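import Pool.Agent.Lib.MP_333da9_nt.Defs

/-!
# Exactness: the solutions are additive polynomials (pure combinatorics of coefficients)

`classSum`: if `f = r ^ p - r` in `𝔽_p[t]` and `p ∤ K` then `∑_{j < J} f.coeff (K p^j) = 0` for all `J`
with `natDegree f < K p^J` (telescoping: `f.coeff (K p^j) = r.coeff (K p^(j-1)) - r.coeff (K p^j)`).

Paper proof of `exact`.  Write `z_n = Z.coeff n`, `y_n = Y.coeff n`, `P = p^s`.
(0) From the degree hypotheses: `z_n = 0` for `n ≥ 2P`, `y_n = 0` for `n ≥ 3P`.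
(1) From `c1` at the class `K = k + 2p^(s+1-j)` (`n = p^j k`, `p ∤ k`, `n < 2P` so `j ≤ s`):
    `z_{p^j k} = 0` unless `k = pB+1`, and `z_{p^j (pB+1)} = y_{B + 2p^(s-j)}`  (n in range `n<2P`).
    From `d1` at `K = k + p^(s+1-j)`: `y_{p^j k} = 0` unless `k = pB+2`, and
    `y_{p^j (pB+2)} = z_{B + p^(s-j)}` (`n < 3P`).
(2) From `c0` at `K = k + 2p^(s-j)`: `z_{p^j (pB+1)} = y_{pB + 2p^(s-j)}`; here the other terms on the
    right are `y_{K p^i - 1}`, `i ≥ 1`, index `≡ -1 mod p`, zero by (1) (p ≥ 5).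
    From `d0` at `K = k + p^(s-j)`: `y_{p^j (pB+2)} = z_{pB + p^(s-j)}` (other terms
    `z_{K p^i - 2}`, index `≡ -2`, zero by (1)).
(3) `j = 0`: if `z_{pB+1} ≠ 0`, `B ≥ 1`, then `y_{pB+2P} ≠ 0`, so `pB + 2P ≤ deg Y ≤ max 2 (pn)`, so
    `pB + 1 ≤ max m 1`, so `p (pB) + 1 ≤ p m` is in range and `z_{p(pB)+1} = y_{pB+2P} ≠ 0`: infinitely
    many nonzero coefficients, contradiction.  Same for `y_{pB+2}`, `B ≥ 1`.
(4) `j ≥ 1`, `B ≥ 1` (then `j < s`, `e = s - j ≥ 1`): `y_{B+2p^e} = 0` by induction on `B` : if `p ∤ B`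
    the index is prime to `p` and `≠ 2`, use (3); if `B = pB'`, `y_{pB'+2p^e} = z_{p^j(pB'+1)}
    = y_{B'+2p^e} = 0`.  So `z_{p^j (pB+1)} = 0`.  Same for `y`.
(5) So `z_n ≠ 0 → n = p^j`, `y_n ≠ 0 → n = 2p^j`, `j ≤ s`, and `y_{2p^j} = z_{p^(s-j)}` by (1).
-/

set_option autoImplicit false

namespace MP333

open Polynomial

variable {p : ℕ} [Fact p.Prime]

lemma coeff_pow_p (r : Rp p) (n : ℕ) : (r ^ p).coeff n = if p ∣ n then r.coeff (n / p) else 0 := by
  rw [← ZMod.expand_card r, coeff_expand (Fact.out : p.Prime).pos]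

lemma p_mul_natDegree_le (r : Rp p) : p * r.natDegree ≤ (r ^ p - r).natDegree := by
  have hp : 1 < p := (Fact.out : p.Prime).one_lt
  rcases Nat.eq_zero_or_pos r.natDegree with h | h
  · rw [h]; simp
  · have h1 : r.natDegree < (r ^ p).natDegree := by
      rw [natDegree_pow]; nlinarith
    rw [natDegree_sub_eq_left_of_natDegree_lt h1, natDegree_pow]

theorem classSum (f r : Rp p) (h : f = r ^ p - r) (K : ℕ) (hK : ¬ p ∣ K) (J : ℕ)
    (hJ : f.natDegree < K * p ^ J) :
    ∑ j ∈ Finset.range J, f.coeff (K * p ^ j) = 0 := by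
  have hp : p.Prime := Fact.out
  cases J with
  | zero => simp
  | succ J =>
    have key : ∀ J : ℕ, ∑ j ∈ Finset.range (J + 1), f.coeff (K * p ^ j) = -r.coeff (K * p ^ J) := by
      intro J
      induction J with
      | zero =>
        rw [Finset.sum_range_one, pow_zero, mul_one, h, coeff_sub, coeff_pow_p, if_neg hK, zero_sub]
      | succ J ih =>
        rw [Finset.sum_range_succ, ih, h, coeff_sub, coeff_pow_p, if_pos, pow_succ, ← mul_assoc,
          Nat.mul_div_cancel _ hp.pos]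
        · ring
        · rw [pow_succ, ← mul_assoc]; exact Dvd.intro_left _ rfl
    rw [key J, neg_eq_zero]
    apply coeff_eq_zero_of_natDegree_lt
    have h1 := p_mul_natDegree_le r
    rw [← h] at h1
    have h2 : p * r.natDegree < p * (K * p ^ J) := by
      calc p * r.natDegree ≤ f.natDegree := h1
        _ < K * p ^ (J + 1) := hJ
        _ = p * (K * p ^ J) := by ring
    exact Nat.lt_of_mul_lt_mul_left h2

lemma class_eq (f : Rp p) (hf : ∃ R : Rp p, f = R ^ p - R) (α β : ℕ → ZMod p)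
    (hαβ : ∀ N, f.coeff N = α N - β N) (K : ℕ) (hK : ¬ p ∣ K) (j : ℕ)
    (hα : ∀ i, i ≠ j → α (K * p ^ i) = 0) (hβ : ∀ i, i ≠ 0 → β (K * p ^ i) = 0) :
    α (K * p ^ j) = β K := by
  have hp : p.Prime := Fact.out
  obtain ⟨R, hR⟩ := hf
  have hK0 : 0 < K := Nat.pos_of_ne_zero (by rintro rfl; exact hK (dvd_zero _))
  have h := classSum f R hR K hK (f.natDegree + j + 1) (by
    have h1 : f.natDegree + j + 1 < p ^ (f.natDegree + j + 1) := Nat.lt_pow_self hp.one_lt
    calc f.natDegree < p ^ (f.natDegree + j + 1) := by omega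
      _ ≤ K * p ^ (f.natDegree + j + 1) := Nat.le_mul_of_pos_left _ hK0)
  simp_rw [hαβ] at h
  rw [Finset.sum_sub_distrib, Finset.sum_eq_single j, Finset.sum_eq_single 0, pow_zero, mul_one] at h
  · exact sub_eq_zero.1 h
  · intro i _ hi; exact hβ i hi
  · intro h; simp at h
  · intro i _ hi; exact hα i hi
  · intro h; simp at h

lemma uniq (A : Rp p) {a b K j : ℕ} (hab : a + b ≤ p * a)
    (hA : ∀ n, b ≤ n → A.coeff n = 0) (h1 : a ≤ K * p ^ j) (h2 : K * p ^ j < a + b) :
    ∀ i, i ≠ j → (if a ≤ K * p ^ i then A.coeff (K * p ^ i - a) else 0) = 0 := by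
  have hp : p.Prime := Fact.out
  intro i hi
  split_ifs with h
  · rcases lt_or_gt_of_ne hi with h3 | h3
    · exfalso
      have h4 : p ^ i * p ≤ p ^ j := by
        rw [← pow_succ]; exact Nat.pow_le_pow_right hp.pos h3
      have h5 : K * p ^ i * p ≤ K * p ^ j := by
        rw [mul_assoc]; exact Nat.mul_le_mul_left _ h4
      have h6 : a * p ≤ K * p ^ i * p := Nat.mul_le_mul_right _ h
      have h7 : a * p = p * a := mul_comm _ _
      omega
    · apply hA
      have h4 : p ^ j * p ≤ p ^ i := by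
        rw [← pow_succ]; exact Nat.pow_le_pow_right hp.pos h3
      have h5 : K * p ^ j * p ≤ K * p ^ i := by
        rw [mul_assoc]; exact Nat.mul_le_mul_left _ h4
      have h6 : a * p ≤ K * p ^ j * p := Nat.mul_le_mul_right _ h1
      have h7 : a * p = p * a := mul_comm _ _
      omega
  · rfl

lemma not_dvd_sub {p N c : ℕ} (hc : 0 < c) (hcp : c < p) (hN : p ∣ N) (hcN : c ≤ N) : ¬ p ∣ N - c := by
  intro h
  have h1 : p ∣ N - (N - c) := Nat.dvd_sub hN h
  rw [Nat.sub_sub_self hcN] at h1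
  exact absurd (Nat.le_of_dvd hc h1) (not_le.2 hcp)

lemma coeff_XY (Y : Rp p) (N : ℕ) : (X * Y ^ p : Rp p).coeff N =
    if 1 ≤ N ∧ p ∣ N - 1 then Y.coeff ((N - 1) / p) else 0 := by
  rw [← pow_one (X : Rp p), coeff_X_pow_mul', coeff_pow_p]
  split_ifs <;> simp_all

lemma coeff_X2Y (Y : Rp p) (N : ℕ) : (X ^ 2 * Y ^ p : Rp p).coeff N =
    if 2 ≤ N ∧ p ∣ N - 2 then Y.coeff ((N - 2) / p) else 0 := by
  rw [coeff_X_pow_mul', coeff_pow_p]
  split_ifs <;> simp_all

section main

variable {s : ℕ} {Z Y : Rp p}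

/-- relation (1) for `Z` -/
lemma rel1Z (hp : 5 ≤ p) (hz : ∀ n, 2 * p ^ s ≤ n → Z.coeff n = 0)
    (c1 : ∃ R : Rp p, X ^ (2 * p ^ (s + 1)) * Z - X * Y ^ p = R ^ p - R)
    {j k : ℕ} (hk : ¬ p ∣ k) (hn : p ^ j * k < 2 * p ^ s) :
    j ≤ s ∧ Z.coeff (p ^ j * k) = if k % p = 1 then Y.coeff (k / p + 2 * p ^ (s - j)) else 0 := by
  have hpp : p.Prime := Fact.out
  have hk0 : 0 < k := Nat.pos_of_ne_zero (by rintro rfl; exact hk (dvd_zero _))
  have hP : 0 < p ^ s := Nat.pow_pos hpp.pos
  have hjs : j ≤ s := by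
    by_contra hcon
    have h1 : p ^ (s + 1) ≤ p ^ j := Nat.pow_le_pow_right hpp.pos (by omega)
    have h2 : p ^ j ≤ p ^ j * k := Nat.le_mul_of_pos_right _ hk0
    have h3 : 5 * p ^ s ≤ p * p ^ s := Nat.mul_le_mul_right _ hp
    have h4 : p ^ (s + 1) = p * p ^ s := by ring
    omega
  refine ⟨hjs, ?_⟩
  set K := k + 2 * p ^ (s + 1 - j) with hKdef
  have hdK : p ∣ 2 * p ^ (s + 1 - j) := Dvd.dvd.mul_left (dvd_pow_self p (by omega)) 2
  have hK : ¬ p ∣ K := fun h => hk ((Nat.dvd_add_left hdK).1 h)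
  have hpow : p ^ (s + 1 - j) * p ^ j = p ^ (s + 1) := by
    rw [← pow_add]; congr 1; omega
  have hKj : K * p ^ j = p ^ j * k + 2 * p ^ (s + 1) := by
    rw [hKdef, add_mul, mul_assoc, hpow, mul_comm k]
  have hmain := class_eq _ c1 (fun N => if 2 * p ^ (s + 1) ≤ N then Z.coeff (N - 2 * p ^ (s + 1)) else 0)
    (fun N => if 1 ≤ N ∧ p ∣ N - 1 then Y.coeff ((N - 1) / p) else 0)
    (fun N => by rw [coeff_sub, coeff_X_pow_mul', coeff_XY]) K hK j
    (by
      refine uniq Z (b := 2 * p ^ s) ?_ hz ?_ ?_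
      · have h1 : p ^ (s + 1) = p * p ^ s := by ring
        have h5 : 5 * (p * p ^ s) ≤ p * (p * p ^ s) := Nat.mul_le_mul_right _ hp
        have h6 : 5 * p ^ s ≤ p * p ^ s := Nat.mul_le_mul_right _ hp
        rw [h1]; nlinarith
      · rw [hKj]; omega
      · rw [hKj]; omega)
    (by
      intro i hi
      have hdvd : p ∣ K * p ^ i := Dvd.dvd.mul_left (dvd_pow_self p hi) K
      rw [if_neg]
      rintro ⟨h1, h2⟩
      exact not_dvd_sub one_pos hpp.one_lt hdvd h1 h2)
  beta_reduce at hmain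
  rw [hKj, if_pos (by omega), Nat.add_sub_cancel] at hmain
  rw [hmain]
  have hmod : K % p = k % p := by
    rw [hKdef, Nat.add_mod, Nat.mod_eq_zero_of_dvd hdK, add_zero, Nat.mod_mod]
  have hK1 : 1 ≤ K := by omega
  have hiff : (1 ≤ K ∧ p ∣ K - 1) ↔ k % p = 1 := by
    constructor
    · rintro ⟨_, h⟩
      rw [← hmod]
      have h1 : K % p = 1 % p := ((Nat.modEq_iff_dvd' hK1).2 h).symm
      rw [h1, Nat.mod_eq_of_lt hpp.one_lt]
    · intro h
      refine ⟨hK1, (Nat.modEq_iff_dvd' hK1).1 ?_⟩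
      show 1 % p = K % p
      rw [hmod, h, Nat.mod_eq_of_lt hpp.one_lt]
  by_cases h : k % p = 1
  · rw [if_pos h, if_pos (hiff.2 h)]
    congr 1
    have h1 : k = p * (k / p) + 1 := by
      have := Nat.div_add_mod k p
      omega
    have h2 : 2 * p ^ (s + 1 - j) = p * (2 * p ^ (s - j)) := by
      rw [show s + 1 - j = (s - j) + 1 by omega]; ring
    have h3 : K - 1 = p * (k / p + 2 * p ^ (s - j)) := by
      rw [hKdef, h2]
      conv_lhs => rw [h1]
      rw [mul_add]; omega
    rw [h3, Nat.mul_div_cancel_left _ hpp.pos]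
  · rw [if_neg h, if_neg (fun h' => h (hiff.1 h'))]

/-- relation (1) for `Y` -/
lemma rel1Y (hp : 5 ≤ p) (hy : ∀ n, 3 * p ^ s ≤ n → Y.coeff n = 0)
    (d1 : ∃ R : Rp p, X ^ (p ^ (s + 1)) * Y - X ^ 2 * Z ^ p = R ^ p - R)
    {j k : ℕ} (hk : ¬ p ∣ k) (hn : p ^ j * k < 3 * p ^ s) :
    j ≤ s ∧ Y.coeff (p ^ j * k) = if k % p = 2 then Z.coeff (k / p + p ^ (s - j)) else 0 := by
  have hpp : p.Prime := Fact.out
  have hk0 : 0 < k := Nat.pos_of_ne_zero (by rintro rfl; exact hk (dvd_zero _))
  have hP : 0 < p ^ s := Nat.pow_pos hpp.pos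
  have hjs : j ≤ s := by
    by_contra hcon
    have h1 : p ^ (s + 1) ≤ p ^ j := Nat.pow_le_pow_right hpp.pos (by omega)
    have h2 : p ^ j ≤ p ^ j * k := Nat.le_mul_of_pos_right _ hk0
    have h3 : 5 * p ^ s ≤ p * p ^ s := Nat.mul_le_mul_right _ hp
    have h4 : p ^ (s + 1) = p * p ^ s := by ring
    omega
  refine ⟨hjs, ?_⟩
  set K := k + p ^ (s + 1 - j) with hKdef
  have hdK : p ∣ p ^ (s + 1 - j) := dvd_pow_self p (by omega)
  have hK : ¬ p ∣ K := fun h => hk ((Nat.dvd_add_left hdK).1 h)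
  have hpow : p ^ (s + 1 - j) * p ^ j = p ^ (s + 1) := by
    rw [← pow_add]; congr 1; omega
  have hKj : K * p ^ j = p ^ j * k + p ^ (s + 1) := by
    rw [hKdef, add_mul, hpow, mul_comm k]
  have hmain := class_eq _ d1 (fun N => if p ^ (s + 1) ≤ N then Y.coeff (N - p ^ (s + 1)) else 0)
    (fun N => if 2 ≤ N ∧ p ∣ N - 2 then Z.coeff ((N - 2) / p) else 0)
    (fun N => by rw [coeff_sub, coeff_X_pow_mul', coeff_X2Y]) K hK j
    (by
      refine uniq Y (b := 3 * p ^ s) ?_ hy ?_ ?_
      · have h1 : p ^ (s + 1) = p * p ^ s := by ring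
        have h5 : 5 * (p * p ^ s) ≤ p * (p * p ^ s) := Nat.mul_le_mul_right _ hp
        have h6 : 5 * p ^ s ≤ p * p ^ s := Nat.mul_le_mul_right _ hp
        rw [h1]; nlinarith
      · rw [hKj]; omega
      · rw [hKj]; omega)
    (by
      intro i hi
      have hdvd : p ∣ K * p ^ i := Dvd.dvd.mul_left (dvd_pow_self p hi) K
      rw [if_neg]
      rintro ⟨h1, h2⟩
      exact not_dvd_sub two_pos (by omega) hdvd h1 h2)
  beta_reduce at hmain
  rw [hKj, if_pos (by omega), Nat.add_sub_cancel] at hmain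
  rw [hmain]
  have hmod : K % p = k % p := by
    rw [hKdef, Nat.add_mod, Nat.mod_eq_zero_of_dvd hdK, add_zero, Nat.mod_mod]
  have hK1 : 2 ≤ K := by
    have : 0 < p ^ (s + 1 - j) := Nat.pow_pos hpp.pos
    omega
  have h2p : 2 % p = 2 := Nat.mod_eq_of_lt (by omega)
  have hiff : (2 ≤ K ∧ p ∣ K - 2) ↔ k % p = 2 := by
    constructor
    · rintro ⟨_, h⟩
      rw [← hmod]
      have h1 : K % p = 2 % p := ((Nat.modEq_iff_dvd' hK1).2 h).symm
      rw [h1, h2p]
    · intro h
      refine ⟨hK1, (Nat.modEq_iff_dvd' hK1).1 ?_⟩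
      show 2 % p = K % p
      rw [hmod, h, h2p]
  by_cases h : k % p = 2
  · rw [if_pos h, if_pos (hiff.2 h)]
    congr 1
    have h1 : k = p * (k / p) + 2 := by
      have := Nat.div_add_mod k p
      omega
    have h2 : p ^ (s + 1 - j) = p * (p ^ (s - j)) := by
      rw [show s + 1 - j = (s - j) + 1 by omega]; ring
    have h3 : K - 2 = p * (k / p + p ^ (s - j)) := by
      rw [hKdef, h2]
      conv_lhs => rw [h1]
      rw [mul_add]; omega
    rw [h3, Nat.mul_div_cancel_left _ hpp.pos]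
  · rw [if_neg h, if_neg (fun h' => h (hiff.1 h'))]

/-- relation (2) for `Z` -/
lemma rel2Z (hp : 5 ≤ p) (hz : ∀ n, 2 * p ^ s ≤ n → Z.coeff n = 0)
    (hy : ∀ n, 3 * p ^ s ≤ n → Y.coeff n = 0)
    (d1 : ∃ R : Rp p, X ^ (p ^ (s + 1)) * Y - X ^ 2 * Z ^ p = R ^ p - R)
    (c0 : ∃ R : Rp p, X ^ (2 * p ^ s) * Z - X * Y = R ^ p - R)
    {j k : ℕ} (hjs : j ≤ s) (hk : ¬ p ∣ k) (hn : p ^ j * k < 2 * p ^ s) :
    Z.coeff (p ^ j * k) = Y.coeff (k - 1 + 2 * p ^ (s - j)) := by
  have hpp : p.Prime := Fact.out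
  have hk0 : 0 < k := Nat.pos_of_ne_zero (by rintro rfl; exact hk (dvd_zero _))
  have hP : 0 < p ^ s := Nat.pow_pos hpp.pos
  set K := k + 2 * p ^ (s - j) with hKdef
  have hpow : p ^ (s - j) * p ^ j = p ^ s := by
    rw [← pow_add]; congr 1; omega
  have hKj : K * p ^ j = p ^ j * k + 2 * p ^ s := by
    rw [hKdef, add_mul, mul_assoc, hpow, mul_comm k]
  have hK : ¬ p ∣ K := by
    rcases lt_or_eq_of_le hjs with h | h
    · have hdK : p ∣ 2 * p ^ (s - j) := Dvd.dvd.mul_left (dvd_pow_self p (by omega)) 2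
      exact fun h => hk ((Nat.dvd_add_left hdK).1 h)
    · subst h
      have h1 : k < 2 := by
        by_contra hcon
        have : p ^ j * 2 ≤ p ^ j * k := Nat.mul_le_mul_left _ (by omega)
        omega
      have h2 : K = 3 := by
        rw [hKdef, Nat.sub_self, pow_zero]; omega
      rw [h2]
      intro h
      have := Nat.le_of_dvd (by norm_num) h
      omega
  have hmain := class_eq _ c0 (fun N => if 2 * p ^ s ≤ N then Z.coeff (N - 2 * p ^ s) else 0)
    (fun N => if 1 ≤ N then Y.coeff (N - 1) else 0)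
    (fun N => by
      rw [coeff_sub, coeff_X_pow_mul', ← pow_one (X : Rp p), coeff_X_pow_mul']) K hK j
    (by
      refine uniq Z (b := 2 * p ^ s) ?_ hz ?_ ?_
      · nlinarith
      · rw [hKj]; omega
      · rw [hKj]; omega)
    (by
      intro i hi
      have hdvd : p ∣ K * p ^ i := Dvd.dvd.mul_left (dvd_pow_self p hi) K
      have hK0 : 0 < K := by omega
      have hN : p ≤ K * p ^ i := Nat.le_of_dvd (Nat.mul_pos hK0 (Nat.pow_pos hpp.pos)) hdvd
      rw [if_pos (by omega)]
      rcases lt_or_ge (K * p ^ i - 1) (3 * p ^ s) with h | h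
      · have hnd : ¬ p ∣ K * p ^ i - 1 := not_dvd_sub one_pos hpp.one_lt hdvd (by omega)
        have h1 := (rel1Y (j := 0) hp hy d1 hnd (by rwa [pow_zero, one_mul])).2
        rw [pow_zero, one_mul, if_neg] at h1
        · exact h1
        · intro h2
          -- N - 1 ≡ 2, N ≡ 3 mod p
          have h3 : (K * p ^ i - 1 + 1) % p = 0 := by
            rw [Nat.sub_add_cancel (by omega)]; exact Nat.mod_eq_zero_of_dvd hdvd
          rw [Nat.add_mod, h2, Nat.mod_eq_of_lt (show 1 < p by omega),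
            Nat.mod_eq_of_lt (show 2 + 1 < p by omega)] at h3
          omega
      · exact hy _ h)
  beta_reduce at hmain
  rw [hKj, if_pos (by omega), Nat.add_sub_cancel, if_pos (by omega)] at hmain
  rw [hmain]
  congr 1
  omega

/-- relation (2) for `Y` -/
lemma rel2Y (hp : 5 ≤ p) (hz : ∀ n, 2 * p ^ s ≤ n → Z.coeff n = 0)
    (hy : ∀ n, 3 * p ^ s ≤ n → Y.coeff n = 0)
    (c1 : ∃ R : Rp p, X ^ (2 * p ^ (s + 1)) * Z - X * Y ^ p = R ^ p - R)
    (d0 : ∃ R : Rp p, X ^ (p ^ s) * Y - X ^ 2 * Z = R ^ p - R)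
    {j k : ℕ} (hjs : j ≤ s) (hk : ¬ p ∣ k) (hn : p ^ j * k < 3 * p ^ s) :
    Y.coeff (p ^ j * k) = Z.coeff (k + p ^ (s - j) - 2) := by
  have hpp : p.Prime := Fact.out
  have hk0 : 0 < k := Nat.pos_of_ne_zero (by rintro rfl; exact hk (dvd_zero _))
  have hP : 0 < p ^ s := Nat.pow_pos hpp.pos
  set K := k + p ^ (s - j) with hKdef
  have hpow : p ^ (s - j) * p ^ j = p ^ s := by
    rw [← pow_add]; congr 1; omega
  have hKj : K * p ^ j = p ^ j * k + p ^ s := by
    rw [hKdef, add_mul, hpow, mul_comm k]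
  have hK : ¬ p ∣ K := by
    rcases lt_or_eq_of_le hjs with h | h
    · have hdK : p ∣ p ^ (s - j) := dvd_pow_self p (by omega)
      exact fun h => hk ((Nat.dvd_add_left hdK).1 h)
    · subst h
      have h1 : k < 3 := by
        by_contra hcon
        have : p ^ j * 3 ≤ p ^ j * k := Nat.mul_le_mul_left _ (by omega)
        omega
      have h2 : K < 4 ∧ 0 < K := by
        rw [hKdef, Nat.sub_self, pow_zero]; omega
      intro h
      have := Nat.le_of_dvd h2.2 h
      omega
  have hmain := class_eq _ d0 (fun N => if p ^ s ≤ N then Y.coeff (N - p ^ s) else 0)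
    (fun N => if 2 ≤ N then Z.coeff (N - 2) else 0)
    (fun N => by
      rw [coeff_sub, coeff_X_pow_mul', coeff_X_pow_mul']) K hK j
    (by
      refine uniq Y (b := 3 * p ^ s) ?_ hy ?_ ?_
      · nlinarith
      · rw [hKj]; omega
      · rw [hKj]; omega)
    (by
      intro i hi
      have hdvd : p ∣ K * p ^ i := Dvd.dvd.mul_left (dvd_pow_self p hi) K
      have hK0 : 0 < K := by omega
      have hN : p ≤ K * p ^ i := Nat.le_of_dvd (Nat.mul_pos hK0 (Nat.pow_pos hpp.pos)) hdvd
      rw [if_pos (by omega)]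
      rcases lt_or_ge (K * p ^ i - 2) (2 * p ^ s) with h | h
      · have hnd : ¬ p ∣ K * p ^ i - 2 := not_dvd_sub two_pos (by omega) hdvd (by omega)
        have h1 := (rel1Z (j := 0) hp hz c1 hnd (by rwa [pow_zero, one_mul])).2
        rw [pow_zero, one_mul, if_neg] at h1
        · exact h1
        · intro h2
          have h3 : (K * p ^ i - 2 + 2) % p = 0 := by
            rw [Nat.sub_add_cancel (by omega)]; exact Nat.mod_eq_zero_of_dvd hdvd
          rw [Nat.add_mod, h2, Nat.mod_eq_of_lt (show 2 < p by omega),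
            Nat.mod_eq_of_lt (show 1 + 2 < p by omega)] at h3
          omega
      · exact hz _ h)
  beta_reduce at hmain
  have hK2 : 2 ≤ K := by
    have : 0 < p ^ (s - j) := Nat.pow_pos hpp.pos
    omega
  rw [hKj, if_pos (by omega), Nat.add_sub_cancel, if_pos hK2] at hmain
  exact hmain

end main

lemma bounds (hp : 5 ≤ p) {s m n : ℕ}
    (h1 : p * n + 1 ≤ 2 * p ^ s + max m 1) (h2 : p * m + 2 ≤ p ^ s + max n 2) :
    p * m < 2 * p ^ s ∧ p * n < 3 * p ^ s := by
  have hpp : p.Prime := Fact.out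
  have hP : 0 < p ^ s := Nat.pow_pos hpp.pos
  have hm : 5 * m ≤ p * m := Nat.mul_le_mul_right _ hp
  have hn : 5 * n ≤ p * n := Nat.mul_le_mul_right _ hp
  generalize p * m = a at *
  generalize p * n = b at *
  generalize p ^ s = P at *
  omega

lemma mod_one (p B : ℕ) (hp : 5 ≤ p) : (p * B + 1) % p = 1 ∧ (p * B + 1) / p = B ∧ ¬ p ∣ p * B + 1 := by
  have h1 : (p * B + 1) % p = 1 := by
    rw [Nat.mul_add_mod, Nat.mod_eq_of_lt (by omega)]
  refine ⟨h1, ?_, ?_⟩
  · rw [Nat.mul_add_div (by omega), Nat.div_eq_of_lt (by omega), add_zero]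
  · intro h
    have := Nat.mod_eq_zero_of_dvd h
    omega

lemma mod_two (p B : ℕ) (hp : 5 ≤ p) : (p * B + 2) % p = 2 ∧ (p * B + 2) / p = B ∧ ¬ p ∣ p * B + 2 := by
  have h1 : (p * B + 2) % p = 2 := by
    rw [Nat.mul_add_mod, Nat.mod_eq_of_lt (by omega)]
  refine ⟨h1, ?_, ?_⟩
  · rw [Nat.mul_add_div (by omega), Nat.div_eq_of_lt (by omega), add_zero]
  · intro h
    have := Nat.mod_eq_zero_of_dvd h
    omega

theorem exact (hp : 5 ≤ p) (s : ℕ) (hs : 1 ≤ s) (Z Y : Rp p) (m n : ℕ)
    (hZ0 : Z.coeff 0 = 0) (hY0 : Y.coeff 0 = 0)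
    (hZ : Z.natDegree ≤ max 1 (p * m)) (hY : Y.natDegree ≤ max 2 (p * n))
    (h1 : p * n + 1 ≤ 2 * p ^ s + max m 1) (h2 : p * m + 2 ≤ p ^ s + max n 2)
    (c0 : ∃ R : Rp p, X ^ (2 * p ^ s) * Z - X * Y = R ^ p - R)
    (d0 : ∃ R : Rp p, X ^ (p ^ s) * Y - X ^ 2 * Z = R ^ p - R)
    (c1 : ∃ R : Rp p, X ^ (2 * p ^ (s + 1)) * Z - X * Y ^ p = R ^ p - R)
    (d1 : ∃ R : Rp p, X ^ (p ^ (s + 1)) * Y - X ^ 2 * Z ^ p = R ^ p - R) :
    Z = ∑ i ∈ Finset.range (s + 1), C (Z.coeff (p ^ i)) * X ^ (p ^ i) ∧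
      Y = ∑ i ∈ Finset.range (s + 1), C (Z.coeff (p ^ i)) * X ^ (2 * p ^ (s - i)) := by
  have hpp : p.Prime := Fact.out
  have hP5 : 5 ≤ p ^ s := by
    calc 5 ≤ p := hp
      _ = p ^ 1 := (pow_one p).symm
      _ ≤ p ^ s := Nat.pow_le_pow_right hpp.pos hs
  obtain ⟨b1, b2⟩ := bounds hp h1 h2
  have hz : ∀ N, 2 * p ^ s ≤ N → Z.coeff N = 0 := by
    intro N hN
    apply coeff_eq_zero_of_natDegree_lt
    rcases le_max_iff.1 hZ with h | h <;> omega
  have hy : ∀ N, 3 * p ^ s ≤ N → Y.coeff N = 0 := by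
    intro N hN
    apply coeff_eq_zero_of_natDegree_lt
    rcases le_max_iff.1 hY with h | h <;> omega
  -- step 3
  have z3 : ∀ D B : ℕ, 2 * p ^ s ≤ B + D → 1 ≤ B → Z.coeff (p * B + 1) = 0 := by
    intro D
    induction D with
    | zero =>
      intro B hB hB1
      apply hz
      have : B ≤ p * B := Nat.le_mul_of_pos_left _ hpp.pos
      omega
    | succ D ih =>
      intro B hB hB1
      by_contra hne
      have hlt : p * B + 1 < 2 * p ^ s := by
        by_contra hcon
        exact hne (hz _ (by omega))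
      obtain ⟨q1, q2, q3⟩ := mod_one p B hp
      have e1 := rel2Z hp hz hy d1 c0 (j := 0) (Nat.zero_le s) q3 (by rwa [pow_zero, one_mul])
      rw [pow_zero, one_mul, Nat.add_sub_cancel, Nat.sub_zero] at e1
      have hYne : Y.coeff (p * B + 2 * p ^ s) ≠ 0 := by rw [← e1]; exact hne
      have hdeg := (le_natDegree_of_ne_zero hYne).trans hY
      have hpB : p ≤ p * B := Nat.le_mul_of_pos_right _ hB1
      have h3 : p * B + 1 ≤ m := by
        generalize p * B = a at *
        generalize p * n = b at *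
        generalize p ^ s = P at *
        omega
      have h4 : p * (p * B) + 1 < 2 * p ^ s := by
        have h5 : p * (p * B + 1) ≤ p * m := Nat.mul_le_mul_left _ h3
        rw [mul_add, mul_one] at h5
        omega
      obtain ⟨r1, r2, r3⟩ := mod_one p (p * B) hp
      have e2 := (rel1Z hp hz c1 (j := 0) r3 (by rwa [pow_zero, one_mul])).2
      rw [pow_zero, one_mul, if_pos r1, r2, Nat.sub_zero] at e2
      have h6 : B + 1 ≤ p * B := by
        have : 5 * B ≤ p * B := Nat.mul_le_mul_right _ hp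
        omega
      have h7 := ih (p * B) (by omega) (by omega)
      rw [e2] at h7
      exact hYne h7
  have z3' : ∀ B : ℕ, 1 ≤ B → Z.coeff (p * B + 1) = 0 := fun B hB => z3 (2 * p ^ s) B (by omega) hB
  have y3 : ∀ D B : ℕ, 3 * p ^ s ≤ B + D → 1 ≤ B → Y.coeff (p * B + 2) = 0 := by
    intro D
    induction D with
    | zero =>
      intro B hB hB1
      apply hy
      have : B ≤ p * B := Nat.le_mul_of_pos_left _ hpp.pos
      omega
    | succ D ih =>
      intro B hB hB1
      by_contra hne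
      have hlt : p * B + 2 < 3 * p ^ s := by
        by_contra hcon
        exact hne (hy _ (by omega))
      obtain ⟨q1, q2, q3⟩ := mod_two p B hp
      have e1 := rel2Y hp hz hy c1 d0 (j := 0) (Nat.zero_le s) q3 (by rwa [pow_zero, one_mul])
      rw [pow_zero, one_mul, Nat.sub_zero, show p * B + 2 + p ^ s - 2 = p * B + p ^ s by omega] at e1
      have hZne : Z.coeff (p * B + p ^ s) ≠ 0 := by rw [← e1]; exact hne
      have hdeg := (le_natDegree_of_ne_zero hZne).trans hZ
      have hpB : p ≤ p * B := Nat.le_mul_of_pos_right _ hB1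
      have h3 : p * B + 2 ≤ n := by
        generalize p * B = a at *
        generalize p * m = b at *
        generalize p ^ s = P at *
        omega
      have h4 : p * (p * B) + 2 < 3 * p ^ s := by
        have h5 : p * (p * B + 2) ≤ p * n := Nat.mul_le_mul_left _ h3
        rw [mul_add] at h5
        omega
      obtain ⟨r1, r2, r3⟩ := mod_two p (p * B) hp
      have e2 := (rel1Y hp hy d1 (j := 0) r3 (by rwa [pow_zero, one_mul])).2
      rw [pow_zero, one_mul, if_pos r1, r2, Nat.sub_zero] at e2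
      have h6 : B + 1 ≤ p * B := by
        have : 5 * B ≤ p * B := Nat.mul_le_mul_right _ hp
        omega
      have h7 := ih (p * B) (by omega) (by omega)
      rw [e2] at h7
      exact hZne h7
  have y3' : ∀ B : ℕ, 1 ≤ B → Y.coeff (p * B + 2) = 0 := fun B hB => y3 (3 * p ^ s) B (by omega) hB
  -- indices prime to p
  have zp : ∀ N : ℕ, ¬ p ∣ N → N ≠ 1 → Z.coeff N = 0 := by
    intro N hN hN1
    rcases lt_or_ge N (2 * p ^ s) with h | h
    · have e := (rel1Z hp hz c1 (j := 0) hN (by rwa [pow_zero, one_mul])).2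
      rw [pow_zero, one_mul] at e
      by_cases hm : N % p = 1
      · have hN2 : N = p * (N / p) + 1 := by
          have := Nat.div_add_mod N p
          omega
        rw [hN2]
        apply z3'
        by_contra hcon
        have : N / p = 0 := Nat.lt_one_iff.1 (not_le.1 hcon)
        rw [this] at hN2
        omega
      · rw [e, if_neg hm]
    · exact hz N h
  have yp : ∀ N : ℕ, ¬ p ∣ N → N ≠ 2 → Y.coeff N = 0 := by
    intro N hN hN1
    rcases lt_or_ge N (3 * p ^ s) with h | h
    · have e := (rel1Y hp hy d1 (j := 0) hN (by rwa [pow_zero, one_mul])).2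
      rw [pow_zero, one_mul] at e
      by_cases hm : N % p = 2
      · have hN2 : N = p * (N / p) + 2 := by
          have := Nat.div_add_mod N p
          omega
        rw [hN2]
        apply y3'
        by_contra hcon
        have : N / p = 0 := Nat.lt_one_iff.1 (not_le.1 hcon)
        rw [this] at hN2
        omega
      · rw [e, if_neg hm]
    · exact hy N h
  -- step 4
  have y4 : ∀ B : ℕ, 1 ≤ B → ∀ j : ℕ, j < s → p ^ j * (p * B + 1) < 2 * p ^ s →
      Y.coeff (B + 2 * p ^ (s - j)) = 0 := by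
    intro B
    induction B using Nat.strong_induction_on with
    | _ B ih =>
      intro hB j hj hlt
      have hd : p ∣ 2 * p ^ (s - j) := Dvd.dvd.mul_left (dvd_pow_self p (by omega)) 2
      by_cases hpB : p ∣ B
      · obtain ⟨B', rfl⟩ := hpB
        have hB' : 1 ≤ B' := by
          rcases Nat.eq_zero_or_pos B' with h | h
          · subst h; simp at hB
          · exact h
        obtain ⟨q1, q2, q3⟩ := mod_one p B' hp
        have hle : p * B' + 1 ≤ p * (p * B') + 1 := by
          have : p * B' ≤ p * (p * B') := Nat.le_mul_of_pos_left _ hpp.pos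
          omega
        have hlt' : p ^ j * (p * B' + 1) < 2 * p ^ s := lt_of_le_of_lt (Nat.mul_le_mul_left _ hle) hlt
        have e1 := rel2Z hp hz hy d1 c0 hj.le q3 hlt'
        rw [Nat.add_sub_cancel] at e1
        have e2 := (rel1Z hp hz c1 q3 hlt').2
        rw [if_pos q1, q2] at e2
        rw [← e1, e2]
        refine ih B' ?_ hB' j hj hlt'
        have : 5 * B' ≤ p * B' := Nat.mul_le_mul_right _ hp
        omega
      · apply yp
        · exact fun h => hpB ((Nat.dvd_add_left hd).1 h)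
        · have : 0 < p ^ (s - j) := Nat.pow_pos hpp.pos
          omega
  have z4 : ∀ B : ℕ, 1 ≤ B → ∀ j : ℕ, j < s → p ^ j * (p * B + 2) < 3 * p ^ s →
      Z.coeff (B + p ^ (s - j)) = 0 := by
    intro B
    induction B using Nat.strong_induction_on with
    | _ B ih =>
      intro hB j hj hlt
      have hd : p ∣ p ^ (s - j) := dvd_pow_self p (by omega)
      by_cases hpB : p ∣ B
      · obtain ⟨B', rfl⟩ := hpB
        have hB' : 1 ≤ B' := by
          rcases Nat.eq_zero_or_pos B' with h | h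
          · subst h; simp at hB
          · exact h
        obtain ⟨q1, q2, q3⟩ := mod_two p B' hp
        have hle : p * B' + 2 ≤ p * (p * B') + 2 := by
          have : p * B' ≤ p * (p * B') := Nat.le_mul_of_pos_left _ hpp.pos
          omega
        have hlt' : p ^ j * (p * B' + 2) < 3 * p ^ s := lt_of_le_of_lt (Nat.mul_le_mul_left _ hle) hlt
        have e1 := rel2Y hp hz hy c1 d0 hj.le q3 hlt'
        rw [show p * B' + 2 + p ^ (s - j) - 2 = p * B' + p ^ (s - j) by omega] at e1
        have e2 := (rel1Y hp hy d1 q3 hlt').2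
        rw [if_pos q1, q2] at e2
        rw [← e1, e2]
        refine ih B' ?_ hB' j hj hlt'
        have : 5 * B' ≤ p * B' := Nat.mul_le_mul_right _ hp
        omega
      · apply zp
        · exact fun h => hpB ((Nat.dvd_add_left hd).1 h)
        · have : 0 < p ^ (s - j) := Nat.pow_pos hpp.pos
          omega
  -- step 5
  have zfin : ∀ N : ℕ, Z.coeff N ≠ 0 → ∃ j ≤ s, N = p ^ j := by
    intro N hN
    have hN0 : N ≠ 0 := by rintro rfl; exact hN hZ0
    obtain ⟨j, k, hk, rfl⟩ := Nat.exists_eq_pow_mul_and_not_dvd hN0 p hpp.ne_one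
    have hlt : p ^ j * k < 2 * p ^ s := by
      by_contra hcon
      exact hN (hz _ (by omega))
    obtain ⟨hjs, e⟩ := rel1Z hp hz c1 hk hlt
    refine ⟨j, hjs, ?_⟩
    by_cases hm : k % p = 1
    · have hk2 : k = p * (k / p) + 1 := by
        have := Nat.div_add_mod k p
        omega
      rcases Nat.eq_zero_or_pos (k / p) with h0 | h0
      · rw [h0] at hk2
        rw [hk2]; simp
      · exfalso
        rw [if_pos hm] at e
        have hj' : j < s := by
          rcases lt_or_eq_of_le hjs with h | h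
          · exact h
          · exfalso
            subst h
            have h6 : 6 ≤ k := by
              have : p ≤ p * (k / p) := Nat.le_mul_of_pos_right _ h0
              omega
            have : p ^ j * 6 ≤ p ^ j * k := Nat.mul_le_mul_left _ h6
            omega
        have := y4 (k / p) h0 j hj' (by rw [← hk2]; exact hlt)
        exact hN (e.trans this)
    · rw [if_neg hm] at e
      exact absurd e hN
  have yfin : ∀ N : ℕ, Y.coeff N ≠ 0 → ∃ j ≤ s, N = 2 * p ^ j := by
    intro N hN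
    have hN0 : N ≠ 0 := by rintro rfl; exact hN hY0
    obtain ⟨j, k, hk, rfl⟩ := Nat.exists_eq_pow_mul_and_not_dvd hN0 p hpp.ne_one
    have hlt : p ^ j * k < 3 * p ^ s := by
      by_contra hcon
      exact hN (hy _ (by omega))
    obtain ⟨hjs, e⟩ := rel1Y hp hy d1 hk hlt
    refine ⟨j, hjs, ?_⟩
    by_cases hm : k % p = 2
    · have hk2 : k = p * (k / p) + 2 := by
        have := Nat.div_add_mod k p
        omega
      rcases Nat.eq_zero_or_pos (k / p) with h0 | h0
      · rw [h0] at hk2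
        rw [hk2]; ring
      · exfalso
        rw [if_pos hm] at e
        have hj' : j < s := by
          rcases lt_or_eq_of_le hjs with h | h
          · exact h
          · exfalso
            subst h
            have h6 : 7 ≤ k := by
              have : p ≤ p * (k / p) := Nat.le_mul_of_pos_right _ h0
              omega
            have : p ^ j * 7 ≤ p ^ j * k := Nat.mul_le_mul_left _ h6
            omega
        have := z4 (k / p) h0 j hj' (by rw [← hk2]; exact hlt)
        exact hN (e.trans this)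
    · rw [if_neg hm] at e
      exact absurd e hN
  have hYZ : ∀ i ≤ s, Y.coeff (2 * p ^ (s - i)) = Z.coeff (p ^ i) := by
    intro i hi
    obtain ⟨q1, q2, q3⟩ := mod_two p 0 hp
    rw [mul_zero, zero_add] at q1 q2 q3
    have hle : p ^ (s - i) ≤ p ^ s := Nat.pow_le_pow_right hpp.pos (by omega)
    have e := (rel1Y hp hy d1 (j := s - i) (k := 2) q3 (by omega)).2
    rw [if_pos q1, q2, zero_add, show s - (s - i) = i by omega] at e
    rw [mul_comm 2, e]
  have hinj : ∀ i j : ℕ, p ^ i = p ^ j → i = j := fun i j h => Nat.pow_right_injective hpp.two_le h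
  constructor
  · ext N
    rw [finsetSum_coeff]
    simp only [coeff_C_mul, coeff_X_pow, mul_ite, mul_one, mul_zero]
    by_cases hN : Z.coeff N = 0
    · rw [hN]
      symm
      refine Finset.sum_eq_zero fun i _ => ?_
      split_ifs with h
      · rw [← h]; exact hN
      · rfl
    · obtain ⟨j, hj, rfl⟩ := zfin N hN
      rw [Finset.sum_eq_single j]
      · simp
      · intro i _ hi
        rw [if_neg]
        intro h
        exact hi (hinj _ _ h).symm
      · intro h
        exact absurd (Finset.mem_range.2 (by omega)) h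
  · ext N
    rw [finsetSum_coeff]
    simp only [coeff_C_mul, coeff_X_pow, mul_ite, mul_one, mul_zero]
    by_cases hN : Y.coeff N = 0
    · rw [hN]
      symm
      refine Finset.sum_eq_zero fun i hi => ?_
      split_ifs with h
      · rw [← hYZ i (by rw [Finset.mem_range] at hi; omega), ← h]; exact hN
      · rfl
    · obtain ⟨j, hj, rfl⟩ := yfin N hN
      rw [Finset.sum_eq_single (s - j)]
      · rw [if_pos (by rw [show s - (s - j) = j by omega])]
        rw [← hYZ (s - j) (by omega), show s - (s - j) = j by omega]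
      · intro i hi hne
        rw [if_neg]
        intro h
        rw [Finset.mem_range] at hi
        have := hinj _ _ (Nat.eq_of_mul_eq_mul_left two_pos h)
        omega
      · intro h
        exact absurd (Finset.mem_range.2 (by omega)) h

end MP333
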