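import Pool.Agent.Lib.MP_333da9_nt.Pole
import Pool.Agent.Lib.MP_333da9_nt.Exact

/-!
# The coefficients are the Catalan numbers

Paper proof.  (i) `h` is a polynomial: `t ^ 2 h ^ p + r ^ p = r + P` with `P` a polynomial; at an
irreducible `g` let `m ≥ 1` be the pole order of `h`, `q` that of `r`; `pole_key2`:
`p m - 2 ≤ q`, and `p q ≤ max q (p m)` so `q ≤ m`: impossible for `p ≥ 5`.  Then `r` is a polynomial.
(ii) Apply `classSum` at `K = 1 + 2 p ^ d`, `0 ≤ d ≤ s` (`K = 3` for `d = 0`), to
`z ^ p y - t y + t T ^ 2 - t ^ 2 h ^ p`, `T = t ^ (p^s)`.  Exponents in this class are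
`p ^ j + 2 p ^ (d + j)`.  `z ^ p y = ∑_{i,l} a_i a_l t ^ (p^(i+1) + 2 p^(s-l))` contributes
`∑_{i + l = s - d - 1} a_i a_l`; `t y` contributes `a_(s-d)`; `t T ^ 2` contributes `[d = s]`;
`t ^ 2 h ^ p` has exponents `≡ 2 mod p`, contributes `0`.  Hence `a_0 = 1` and
`a_(k+1) = ∑_{i+l=k} a_i a_l` for `k < s`, the recursion `catalan_succ`.
-/

set_option autoImplicit false

namespace MP333

open Polynomial

variable {p : ℕ} [Fact p.Prime]

theorem cat_mod {q : ℕ} (hq : 5 ≤ q) (a b : ℕ) :
    (q ^ a + 2 * q ^ b) % q =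
      if a = 0 then (if b = 0 then 3 else 1) else (if b = 0 then 2 else 0) := by
  have h1 : 1 % q = 1 := Nat.mod_eq_of_lt (by omega)
  have h2 : 2 % q = 2 := Nat.mod_eq_of_lt (by omega)
  have h3 : 3 % q = 3 := Nat.mod_eq_of_lt (by omega)
  rcases a with _ | a <;> rcases b with _ | b
  · simpa using h3
  · have : q ^ 0 + 2 * q ^ (b + 1) = 1 + q * (2 * q ^ b) := by ring
    rw [this, Nat.add_mul_mod_self_left, h1]; simp
  · have : q ^ (a + 1) + 2 * q ^ 0 = 2 + q * q ^ a := by ring
    rw [this, Nat.add_mul_mod_self_left, h2]; simp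
  · have : q ^ (a + 1) + 2 * q ^ (b + 1) = q * (q ^ a + 2 * q ^ b) := by ring
    rw [this, Nat.mul_mod_right]; simp

theorem cat_uniq {q : ℕ} (hq : 5 ≤ q) : ∀ a b c e : ℕ,
    q ^ a + 2 * q ^ b = q ^ c + 2 * q ^ e → a = c ∧ b = e := by
  have hinj : ∀ m n : ℕ, q ^ m = q ^ n → m = n := fun m n h =>
    Nat.pow_right_injective (by omega : 2 ≤ q) h
  intro a
  induction a with
  | zero =>
    intro b c e h
    have hm := congrArg (· % q) h
    simp only [cat_mod hq] at hm
    rcases b with _ | b <;> rcases c with _ | c <;> rcases e with _ | e <;> simp at hm ⊢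
    have h' : q ^ (b + 1) = q ^ (e + 1) := by
      simp only [pow_zero] at h; omega
    have := hinj _ _ h'
    omega
  | succ a ih =>
    intro b c e h
    have hm := congrArg (· % q) h
    simp only [cat_mod hq] at hm
    rcases b with _ | b <;> rcases c with _ | c <;> rcases e with _ | e <;> simp at hm ⊢
    · have h' : q ^ (a + 1) = q ^ (c + 1) := by
        simp only [pow_zero] at h; omega
      have := hinj _ _ h'
      omega
    · have h' : q * (q ^ a + 2 * q ^ b) = q * (q ^ c + 2 * q ^ e) := by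
        calc q * (q ^ a + 2 * q ^ b) = q ^ (a + 1) + 2 * q ^ (b + 1) := by ring
          _ = q ^ (c + 1) + 2 * q ^ (e + 1) := h
          _ = q * (q ^ c + 2 * q ^ e) := by ring
      exact ih b c e (Nat.eq_of_mul_eq_mul_left (by omega) h')

theorem cat_frob (s : ℕ) (a : ℕ → ZMod p) :
    (∑ i ∈ Finset.range (s + 1), C (a i) * X ^ (p ^ i) : Rp p) ^ p =
      ∑ i ∈ Finset.range (s + 1), C (a i) * X ^ (p ^ (i + 1)) := by
  rw [sum_pow_char]
  apply Finset.sum_congr rfl
  intro i _
  rw [mul_pow, ← C_pow, ZMod.pow_card, ← pow_mul, ← pow_succ]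

/-- coefficients of `X ^ 2 * H ^ p` -/
theorem cat_coeff_pow (H : Rp p) (N : ℕ) (hN : N % p ≠ 2 % p) :
    (X ^ 2 * H ^ p).coeff N = 0 := by
  by_contra hne
  rw [coeff_X_pow_mul'] at hne
  split_ifs at hne with h2
  · apply hN
    have hp0 : p.Prime := Fact.out
    have h3 : H ^ p = expand (ZMod p) p H := by
      rw [← ZMod.expand_card]
    rw [h3, coeff_expand hp0.pos] at hne
    split_ifs at hne with h4
    · obtain ⟨k, hk⟩ := h4
      have : N = 2 + p * k := by omega
      rw [this, Nat.add_mul_mod_self_left]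
    · exact absurd rfl hne
  · exact absurd rfl hne

theorem cat_sum_ite {J d : ℕ} (hp : 5 ≤ p) (u v : ℕ) (hu : u < J) (x : ZMod p) :
    ∑ j ∈ Finset.range J, (if (1 + 2 * p ^ d) * p ^ j = p ^ u + 2 * p ^ v then x else 0) =
      if d + u = v then x else 0 := by
  have h1 : ∀ j, ((1 + 2 * p ^ d) * p ^ j = p ^ u + 2 * p ^ v) ↔ (j = u ∧ d + u = v) := by
    intro j
    have h2 : (1 + 2 * p ^ d) * p ^ j = p ^ j + 2 * p ^ (d + j) := by ring
    rw [h2]
    constructor
    · intro h
      obtain ⟨ha, hb⟩ := cat_uniq hp _ _ _ _ h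
      subst ha
      exact ⟨rfl, hb⟩
    · rintro ⟨rfl, rfl⟩
      rfl
  simp only [h1]
  by_cases hv : d + u = v
  · simp only [hv, and_true, if_true]
    rw [Finset.sum_ite_eq']
    simp [hu]
  · simp [hv]

theorem catalan_of_e10 (hp : 5 ≤ p) (s : ℕ) (a : ℕ → ZMod p) (z y h r : Kp p)
    (hz : z = algebraMap (Rp p) (Kp p) (∑ i ∈ Finset.range (s + 1), C (a i) * X ^ (p ^ i)))
    (hy : y = algebraMap (Rp p) (Kp p)
      (∑ i ∈ Finset.range (s + 1), C (a i) * X ^ (2 * p ^ (s - i))))
    (e10 : z ^ p * y - RatFunc.X * y + RatFunc.X * (RatFunc.X ^ (p ^ s)) ^ 2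
      - RatFunc.X ^ 2 * h ^ p = r ^ p - r) :
    (∃ H : Rp p, h = algebraMap (Rp p) (Kp p) H) ∧
      ∀ i ≤ s, a i = ((catalan i : ℕ) : ZMod p) := by
  classical
  have hp0 : p.Prime := Fact.out
  set Z : Rp p := ∑ i ∈ Finset.range (s + 1), C (a i) * X ^ (p ^ i) with hZ
  set Y : Rp p := ∑ i ∈ Finset.range (s + 1), C (a i) * X ^ (2 * p ^ (s - i)) with hY
  set P : Rp p := Z ^ p * Y - X * Y + X * (X ^ (p ^ s)) ^ 2 with hP
  have hX : (RatFunc.X : Kp p) = algebraMap (Rp p) (Kp p) X := RatFunc.algebraMap_X.symm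
  have hPmap : algebraMap (Rp p) (Kp p) P - RatFunc.X ^ 2 * h ^ p = r ^ p - r := by
    rw [← e10, hP, hz, hy, hX]
    simp only [map_add, map_sub, map_mul, map_pow]
  have hsum : RatFunc.X ^ 2 * h ^ p + r ^ p = r + algebraMap (Rp p) (Kp p) P := by
    linear_combination -hPmap
  -- (i) `h` is a polynomial
  have hpole : ∀ g : Rp p, Irreducible g → pole g h = 0 := by
    intro g hg
    by_contra hne
    have hm : 1 ≤ pole g h := Nat.one_le_iff_ne_zero.2 hne
    have k1 := pole_key2 (by omega : 3 ≤ p) hg h r hm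
    rw [hsum] at k1
    have k2 := pole_add_le hg r (algebraMap (Rp p) (Kp p) P)
    rw [pole_algebraMap hg, Nat.max_zero] at k2
    have k3 := pole_as hg r
    rw [← hPmap] at k3
    have k4 := pole_sub_le hg (algebraMap (Rp p) (Kp p) P) (RatFunc.X ^ 2 * h ^ p)
    rw [pole_algebraMap hg, Nat.zero_max] at k4
    have k5 := pole_mul_le hg (RatFunc.X ^ 2 : Kp p) (h ^ p)
    rw [pole_pow hg, hX, ← map_pow, pole_algebraMap hg, zero_add, map_pow, ← hX] at k5
    have k6 : p * pole g r ≤ p * pole g h := by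
      rw [← k3]; exact k4.trans k5
    have k7 : pole g r ≤ pole g h := Nat.le_of_mul_le_mul_left k6 hp0.pos
    have k8 : p * pole g h ≤ pole g h + 2 := by omega
    have k9 : 5 * pole g h ≤ p * pole g h := Nat.mul_le_mul_right _ hp
    omega
  obtain ⟨H, hH⟩ := exists_eq_algebraMap_of_pole h hpole
  refine ⟨⟨H, hH⟩, ?_⟩
  obtain ⟨b, hb, hbb⟩ := exists_eq_algebraMap_of_as r (P - X ^ 2 * H ^ p) (by
    rw [← hPmap, hH, hX]
    simp only [map_sub, map_mul, map_pow])
  -- (ii) coefficients
  have hZY : Z ^ p * Y = ∑ i ∈ Finset.range (s + 1), ∑ l ∈ Finset.range (s + 1),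
      C (a i * a l) * X ^ (p ^ (i + 1) + 2 * p ^ (s - l)) := by
    rw [hZ, cat_frob, hY, Finset.sum_mul_sum]
    apply Finset.sum_congr rfl; intro i _
    apply Finset.sum_congr rfl; intro l _
    rw [C_mul, pow_add]; ring
  have hXY : X * Y = ∑ l ∈ Finset.range (s + 1), C (a l) * X ^ (p ^ 0 + 2 * p ^ (s - l)) := by
    rw [hY, Finset.mul_sum]
    apply Finset.sum_congr rfl; intro l _
    rw [pow_add, pow_zero, pow_one]; ring
  have hXT : (X : Rp p) * (X ^ (p ^ s)) ^ 2 = X ^ (p ^ 0 + 2 * p ^ s) := by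
    rw [← pow_mul, pow_add, pow_zero, pow_one, mul_comm (p ^ s) 2]
  -- the relation for each `d ≤ s`
  have key : ∀ d ≤ s, (∑ i ∈ Finset.range (s + 1), ∑ l ∈ Finset.range (s + 1),
      (if d + (i + 1) = s - l then a i * a l else 0)) -
      (∑ l ∈ Finset.range (s + 1), (if d + 0 = s - l then a l else 0)) +
      (if d + 0 = s then 1 else 0) = 0 := by
    intro d hd
    set f : Rp p := P - X ^ 2 * H ^ p with hf
    set J : ℕ := f.natDegree + s + 2 with hJ
    have hK : ¬ p ∣ (1 + 2 * p ^ d) := by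
      intro hdvd
      have h1 := Nat.mod_eq_zero_of_dvd hdvd
      have h2 := cat_mod hp 0 d
      rw [pow_zero, h1] at h2
      simp at h2
      split_ifs at h2
    have hdeg : f.natDegree < (1 + 2 * p ^ d) * p ^ J := by
      have h1 : J < p ^ J := Nat.lt_pow_self hp0.one_lt
      have h2 : 1 * p ^ J ≤ (1 + 2 * p ^ d) * p ^ J := Nat.mul_le_mul_right _ (by omega)
      omega
    have hcs := classSum f b hbb.symm (1 + 2 * p ^ d) hK J hdeg
    have hcoeff : ∀ j, f.coeff ((1 + 2 * p ^ d) * p ^ j) =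
        (∑ i ∈ Finset.range (s + 1), ∑ l ∈ Finset.range (s + 1),
          (if (1 + 2 * p ^ d) * p ^ j = p ^ (i + 1) + 2 * p ^ (s - l) then a i * a l else 0)) -
        (∑ l ∈ Finset.range (s + 1),
          (if (1 + 2 * p ^ d) * p ^ j = p ^ 0 + 2 * p ^ (s - l) then a l else 0)) +
        (if (1 + 2 * p ^ d) * p ^ j = p ^ 0 + 2 * p ^ s then 1 else 0) := by
      intro j
      have h0 : (X ^ 2 * H ^ p).coeff ((1 + 2 * p ^ d) * p ^ j) = 0 := by
        apply cat_coeff_pow
        rcases j with _ | j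
        · rw [pow_zero, mul_one]
          have h2 := cat_mod hp 0 d
          rw [pow_zero] at h2
          rw [h2, Nat.mod_eq_of_lt (by omega : 2 < p)]
          simp
          split_ifs <;> omega
        · have : (1 + 2 * p ^ d) * p ^ (j + 1) = p * ((1 + 2 * p ^ d) * p ^ j) := by ring
          rw [this, Nat.mul_mod_right, Nat.mod_eq_of_lt (by omega : 2 < p)]
          omega
      rw [hf, coeff_sub, h0, sub_zero, hP, hZY, hXY, hXT]
      simp only [coeff_add, coeff_sub, finsetSum_coeff, coeff_C_mul, coeff_X_pow, mul_ite,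
        mul_one, mul_zero]
    rw [Finset.sum_congr rfl (fun j _ => hcoeff j)] at hcs
    rw [Finset.sum_add_distrib, Finset.sum_sub_distrib] at hcs
    rw [Finset.sum_comm, cat_sum_ite hp 0 s (by omega) (1 : ZMod p)] at hcs
    have t1 : (∑ y ∈ Finset.range (s + 1), ∑ x ∈ Finset.range J,
        ∑ l ∈ Finset.range (s + 1),
          (if (1 + 2 * p ^ d) * p ^ x = p ^ (y + 1) + 2 * p ^ (s - l) then a y * a l else 0)) =
        ∑ i ∈ Finset.range (s + 1), ∑ l ∈ Finset.range (s + 1),
          (if d + (i + 1) = s - l then a i * a l else 0) := by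
      apply Finset.sum_congr rfl; intro i hi
      rw [Finset.sum_comm]
      apply Finset.sum_congr rfl; intro l _
      rw [cat_sum_ite hp (i + 1) (s - l) (by
        have := Finset.mem_range.1 hi; omega) (a i * a l)]
    have t2 : (∑ x ∈ Finset.range J, ∑ l ∈ Finset.range (s + 1),
          (if (1 + 2 * p ^ d) * p ^ x = p ^ 0 + 2 * p ^ (s - l) then a l else 0)) =
        ∑ l ∈ Finset.range (s + 1), (if d + 0 = s - l then a l else 0) := by
      rw [Finset.sum_comm]
      apply Finset.sum_congr rfl; intro l _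
      rw [cat_sum_ite hp 0 (s - l) (by omega) (a l)]
    rw [t1, t2] at hcs
    exact hcs
  have hlin : ∀ d ≤ s, (∑ l ∈ Finset.range (s + 1), (if d + 0 = s - l then a l else 0)) =
      a (s - d) := by
    intro d hd
    have h1 : ∀ l ∈ Finset.range (s + 1), (if d + 0 = s - l then a l else 0) =
        if l = s - d then a l else 0 := by
      intro l hl
      have hl' := Finset.mem_range.1 hl
      by_cases h : l = s - d
      · rw [if_pos h, if_pos (by omega)]
      · rw [if_neg h, if_neg (by omega)]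
    rw [Finset.sum_congr rfl h1, Finset.sum_ite_eq']
    rw [if_pos (Finset.mem_range.2 (by omega))]
  -- `a 0 = 1`
  have ha0 : a 0 = 1 := by
    have h := key s le_rfl
    rw [hlin s le_rfl] at h
    have h0 : (∑ i ∈ Finset.range (s + 1), ∑ l ∈ Finset.range (s + 1),
        (if s + (i + 1) = s - l then a i * a l else 0)) = 0 := by
      apply Finset.sum_eq_zero; intro i _
      apply Finset.sum_eq_zero; intro l _
      rw [if_neg (by omega)]
    rw [h0, Nat.sub_self, add_zero, if_pos rfl] at h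
    linear_combination -h
  -- recursion
  have harec : ∀ k, k + 1 ≤ s → a (k + 1) = ∑ ij ∈ Finset.HasAntidiagonal.antidiagonal k, a ij.1 * a ij.2 := by
    intro k hk
    have h := key (s - 1 - k) (by omega)
    rw [hlin (s - 1 - k) (by omega)] at h
    have e1 : s - (s - 1 - k) = k + 1 := by omega
    rw [e1, if_neg (by omega), add_zero] at h
    have h2 : (∑ i ∈ Finset.range (s + 1), ∑ l ∈ Finset.range (s + 1),
        (if s - 1 - k + (i + 1) = s - l then a i * a l else 0)) =
        ∑ ij ∈ Finset.HasAntidiagonal.antidiagonal k, a ij.1 * a ij.2 := by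
      rw [← Finset.sum_product', ← Finset.sum_filter]
      apply Finset.sum_congr _ (fun _ _ => rfl)
      ext ⟨i, l⟩
      simp only [Finset.mem_filter, Finset.mem_product, Finset.mem_range,
        Finset.HasAntidiagonal.mem_antidiagonal]
      omega
    rw [h2] at h
    linear_combination -h
  intro i
  induction i using Nat.strong_induction_on with
  | _ i ih =>
    intro hi
    rcases i with _ | k
    · rw [ha0, catalan_zero, Nat.cast_one]
    · rw [harec k hi, catalan_succ', Nat.cast_sum]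
      apply Finset.sum_congr rfl
      intro ij hij
      have h1 := Finset.HasAntidiagonal.mem_antidiagonal.1 hij
      rw [ih ij.1 (by omega) (by omega), ih ij.2 (by omega) (by omega), Nat.cast_mul]

end MP333
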