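import Mathlib

/-!
# MP_333da9_nt: the Artin–Schreier system over `K = 𝔽_p(t)`

Notation: `Kp p = 𝔽_p(t)`, `Rp p = 𝔽_p[t]`, `℘(r) = r ^ p - r`.
-/

set_option autoImplicit false

namespace MP333

open Polynomial

/-- The rational function field `K = 𝔽_p(t)`. -/
abbrev Kp (p : ℕ) : Type := RatFunc (ZMod p)

/-- The polynomial ring `𝔽_p[t]`. -/
abbrev Rp (p : ℕ) : Type := Polynomial (ZMod p)

/-- The system of equations. The unknowns are the 14 elements of `K`. -/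
structure Sys (p : ℕ) [Fact p.Prime]
    (z y x v₁ v₂ c u w r₁ r₂ r₃ r₄ h r₅ : Kp p) : Prop where
  e1 : x - RatFunc.X = v₁ ^ p - v₁
  e2 : RatFunc.X - x = (x + 1) * (RatFunc.X + 1) * (v₂ ^ p - v₂)
  e3 : c ^ p = c
  e4 : z = c * RatFunc.X + (u ^ p - u)
  e5 : y = c * RatFunc.X ^ 2 + (w ^ p - w)
  e6 : (x ^ p) ^ 2 * z - RatFunc.X * y = r₁ ^ p - r₁
  e7 : x ^ p * y - RatFunc.X ^ 2 * z = r₂ ^ p - r₂
  e8 : ((x ^ p) ^ p) ^ 2 * z - RatFunc.X * y ^ p = r₃ ^ p - r₃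
  e9 : (x ^ p) ^ p * y - RatFunc.X ^ 2 * z ^ p = r₄ ^ p - r₄
  e10 : z ^ p * y - RatFunc.X * y + RatFunc.X * (x ^ p) ^ 2 - RatFunc.X ^ 2 * h ^ p = r₅ ^ p - r₅

/-- `ζ_s = ∑_{i ≤ s} Cat_i t^{p^i}`, `Cat_i` the Catalan numbers. -/
noncomputable def zeta (p : ℕ) (s : ℕ) : Rp p :=
  ∑ i ∈ Finset.range (s + 1), C ((catalan i : ℕ) : ZMod p) * X ^ (p ^ i)

end MP333
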