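import Pool.Agent.Lib.MP_333da9_nt.Defs

/-!
# Degree bounds (polynomial identities only)

With `P = p ^ s`, `T = X ^ P`, `z = C c₀ X + (U^p - U)`, `y = C c₀ X^2 + (W^p - W)`.  As `s ≥ 1`,
`T = x ^ p` with `x = X ^ (p^(s-1))`.  Put `ρ = R₁ - x^2 U`, `σ = R₂ - x W`.  Then
  `X W ^ p + ρ ^ p = ρ + x ^ 2 U - T ^ 2 U + X W + c T ^ 2 X - c X ^ 3`            (I)
  `X ^ 2 U ^ p + σ ^ p = σ + x W - T W + X ^ 2 U + c T X ^ 2 - c X ^ 3`.            (II)
Let `m = natDegree U`, `n = natDegree W`.  If `n ≥ 1`: the derivative of the left side of (I) is `W^p`, so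
its degree is `≥ p n + 1`; from (I) `p deg ρ ≤ max (deg ρ) (M₀) (p n + 1)`,
`M₀ = max (2P + max m 1) (n + 1)`, so `deg ρ ≤ max M₀ n` and so `p n + 1 ≤ M₀`, so
`p n + 1 ≤ 2 P + max m 1`.  Similarly for (II) with derivative `2 X U ^ p` (`p` odd).
-/

set_option autoImplicit false

namespace MP333

open Polynomial

variable {p : ℕ} [Fact p.Prime]

lemma dgr_natDegree_pow_sub (U : Rp p) : (U ^ p - U).natDegree ≤ p * U.natDegree := by
  have hp1 : 1 ≤ p := (Fact.out : p.Prime).one_le
  refine (natDegree_sub_le _ _).trans (max_le natDegree_pow_le ?_)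
  exact Nat.le_mul_of_pos_left _ hp1

lemma dgr_derivative_pow (U : Rp p) : derivative (U ^ p) = 0 := by
  rw [derivative_pow, CharP.cast_eq_zero, C_0, zero_mul, zero_mul]

lemma dgr_le_of_derivative {f : Rp p} {a : ℕ} (ha : 1 ≤ a) (h : a ≤ (derivative f).natDegree) :
    a + 1 ≤ f.natDegree := by
  have := natDegree_derivative_le f
  omega

lemma dgr_Xpow (k : ℕ) (f : Rp p) : (X ^ k * f).natDegree ≤ k + f.natDegree := by
  refine natDegree_mul_le.trans ?_
  exact Nat.add_le_add_right (natDegree_X_pow_le k) _

/-- arithmetic step of both bounds -/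
lemma dgr_arith {p r M n L e : ℕ} (hp : 5 ≤ p) (he : e ≤ 2) (hMn : n + e ≤ M) (he1 : 1 ≤ e)
    (h1 : p * r ≤ max (max r M) (p * n + e)) (h2 : p * n + e ≤ L) (h3 : L ≤ max r M) :
    p * n + e ≤ M := by
  by_cases hr : r ≤ M
  · rw [max_eq_right hr] at h3
    exact h2.trans h3
  · exfalso
    push Not at hr
    have hr1 : n + 1 ≤ r := by omega
    have hpr : p * (n + 1) ≤ p * r := Nat.mul_le_mul_left p hr1
    have hpr2 : 5 * r ≤ p * r := Nat.mul_le_mul_right r hp
    rw [mul_add, mul_one] at hpr
    rcases le_max_iff.1 h1 with h | h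
    · rcases le_max_iff.1 h with h' | h' <;> omega
    · omega

/-- Degree bounds. -/
theorem degree_bounds (hp : 5 ≤ p) (s : ℕ) (hs : 1 ≤ s) (c₀ : ZMod p) (U W R₁ R₂ : Rp p)
    (h6 : X ^ (2 * p ^ s) * (C c₀ * X + (U ^ p - U)) - X * (C c₀ * X ^ 2 + (W ^ p - W))
      = R₁ ^ p - R₁)
    (h7 : X ^ (p ^ s) * (C c₀ * X ^ 2 + (W ^ p - W)) - X ^ 2 * (C c₀ * X + (U ^ p - U))
      = R₂ ^ p - R₂) :
    p * W.natDegree + 1 ≤ 2 * p ^ s + max U.natDegree 1 ∧
      p * U.natDegree + 2 ≤ p ^ s + max W.natDegree 2 := by
  set q : ℕ := p ^ (s - 1) with hq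
  set P : ℕ := p ^ s with hP
  have hPq : q * p = P := by
    rw [hP, hq, ← pow_succ, Nat.sub_add_cancel hs]
  have hq1 : 1 ≤ q := Nat.one_le_pow _ _ (by omega)
  have hqP : q ≤ P := by
    rw [← hPq]
    exact Nat.le_mul_of_pos_right _ (by omega)
  have hP5 : 5 ≤ P := by
    rw [← hPq]
    calc 5 = 1 * 5 := by norm_num
      _ ≤ q * p := Nat.mul_le_mul hq1 hp
  have hC : ∀ (c : ZMod p) (f : Rp p), (C c * f).natDegree ≤ f.natDegree := natDegree_C_mul_le
  constructor
  · -- first bound
    by_cases hn : W.natDegree = 0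
    · rw [hn]
      omega
    set ρ : Rp p := R₁ - X ^ (2 * q) * U with hρ
    have hρp : ρ ^ p = R₁ ^ p - X ^ (2 * P) * U ^ p := by
      rw [hρ, sub_pow_char, mul_pow, ← pow_mul, mul_assoc, hPq]
    have hI : X * W ^ p + ρ ^ p = ρ + X ^ (2 * q) * U - X ^ (2 * P) * U + X * W
        + C c₀ * (X ^ (2 * P) * X) - C c₀ * X ^ 3 := by
      rw [hρp, hρ]
      linear_combination (-1 : Rp p) * h6
    have hL : p * W.natDegree + 1 ≤ (X * W ^ p + ρ ^ p).natDegree := by
      refine dgr_le_of_derivative ?_ ?_
      · have : 1 ≤ W.natDegree := by omega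
        calc 1 ≤ p * 1 := by omega
          _ ≤ p * W.natDegree := Nat.mul_le_mul_left p this
      · rw [derivative_add, derivative_mul, dgr_derivative_pow, dgr_derivative_pow, derivative_X,
          one_mul, mul_zero, add_zero, add_zero, natDegree_pow]
    have hR : (X * W ^ p + ρ ^ p).natDegree ≤
        max ρ.natDegree (max (2 * P + max U.natDegree 1) (W.natDegree + 1)) := by
      rw [hI]
      refine (natDegree_sub_le _ _).trans (max_le ?_ ?_)
      · refine (natDegree_add_le _ _).trans (max_le ?_ ?_)
        · refine (natDegree_add_le _ _).trans (max_le ?_ ?_)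
          · refine (natDegree_sub_le _ _).trans (max_le ?_ ?_)
            · refine (natDegree_add_le _ _).trans (max_le (le_max_left _ _) ?_)
              refine (dgr_Xpow _ _).trans (le_trans ?_ (le_max_right _ _))
              refine le_trans ?_ (le_max_left _ _)
              have := le_max_left U.natDegree 1
              omega
            · refine (dgr_Xpow _ _).trans (le_trans ?_ (le_max_right _ _))
              refine le_trans ?_ (le_max_left _ _)
              have := le_max_left U.natDegree 1
              omega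
          · have h1 := dgr_Xpow 1 W
            rw [pow_one] at h1
            refine h1.trans (le_trans ?_ (le_max_right _ _))
            refine le_trans ?_ (le_max_right _ _)
            omega
        · refine (hC _ _).trans ?_
          have h1 := dgr_Xpow (2 * P) (X : Rp p)
          have h2 : (X : Rp p).natDegree ≤ 1 := natDegree_X_le
          refine h1.trans (le_trans ?_ (le_max_right _ _))
          refine le_trans ?_ (le_max_left _ _)
          have := le_max_right U.natDegree 1
          omega
      · refine (hC _ _).trans ?_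
        refine (natDegree_X_pow_le 3).trans (le_trans ?_ (le_max_right _ _))
        refine le_trans ?_ (le_max_left _ _)
        omega
    have hρd : p * ρ.natDegree ≤ max (max ρ.natDegree
        (max (2 * P + max U.natDegree 1) (W.natDegree + 1))) (p * W.natDegree + 1) := by
      have h1 : ρ ^ p = (X * W ^ p + ρ ^ p) - X * W ^ p := by ring
      rw [← natDegree_pow, h1]
      refine (natDegree_sub_le _ _).trans (max_le (hR.trans (le_max_left _ _)) ?_)
      have h2 := dgr_Xpow 1 (W ^ p)
      rw [pow_one, natDegree_pow] at h2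
      refine h2.trans (le_trans ?_ (le_max_right _ _))
      omega
    have hfin := dgr_arith hp (by norm_num) (le_max_right _ _) le_rfl hρd hL hR
    rcases le_max_iff.1 hfin with h | h
    · exact h
    · exfalso
      have : 5 * W.natDegree ≤ p * W.natDegree := Nat.mul_le_mul_right _ hp
      omega
  · -- second bound
    by_cases hm : U.natDegree = 0
    · rw [hm]
      omega
    set σ : Rp p := R₂ - X ^ q * W with hσ
    have hσp : σ ^ p = R₂ ^ p - X ^ P * W ^ p := by
      rw [hσ, sub_pow_char, mul_pow, ← pow_mul, hPq]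
    have hII : X ^ 2 * U ^ p + σ ^ p = σ + X ^ q * W - X ^ P * W + X ^ 2 * U
        + C c₀ * (X ^ P * X ^ 2) - C c₀ * X ^ 3 := by
      rw [hσp, hσ]
      linear_combination (-1 : Rp p) * h7
    have h2ne : (2 : ZMod p) ≠ 0 := by
      intro h
      have h2 : ((2 : ℕ) : ZMod p) = 0 := by exact_mod_cast h
      rw [ZMod.natCast_eq_zero_iff] at h2
      have := Nat.le_of_dvd (by norm_num) h2
      omega
    have hL : p * U.natDegree + 2 ≤ (X ^ 2 * U ^ p + σ ^ p).natDegree := by
      have h1 : p * U.natDegree + 1 ≤ (derivative (X ^ 2 * U ^ p + σ ^ p)).natDegree := by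
        have h3 : derivative (X ^ 2 * U ^ p + σ ^ p) = C 2 * (X * U ^ p) := by
          rw [derivative_add, derivative_mul, dgr_derivative_pow, dgr_derivative_pow,
            derivative_X_pow, mul_zero, add_zero, add_zero]
          norm_num
          ring
        have hU0 : U ≠ 0 := by
          rintro rfl
          exact hm natDegree_zero
        rw [h3, natDegree_C_mul h2ne, natDegree_X_mul (pow_ne_zero _ hU0), natDegree_pow]
      exact dgr_le_of_derivative (by omega) h1
    have hR : (X ^ 2 * U ^ p + σ ^ p).natDegree ≤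
        max σ.natDegree (max (P + max W.natDegree 2) (U.natDegree + 2)) := by
      rw [hII]
      refine (natDegree_sub_le _ _).trans (max_le ?_ ?_)
      · refine (natDegree_add_le _ _).trans (max_le ?_ ?_)
        · refine (natDegree_add_le _ _).trans (max_le ?_ ?_)
          · refine (natDegree_sub_le _ _).trans (max_le ?_ ?_)
            · refine (natDegree_add_le _ _).trans (max_le (le_max_left _ _) ?_)
              refine (dgr_Xpow _ _).trans (le_trans ?_ (le_max_right _ _))
              refine le_trans ?_ (le_max_left _ _)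
              have := le_max_left W.natDegree 2
              omega
            · refine (dgr_Xpow _ _).trans (le_trans ?_ (le_max_right _ _))
              refine le_trans ?_ (le_max_left _ _)
              have := le_max_left W.natDegree 2
              omega
          · refine (dgr_Xpow _ _).trans (le_trans ?_ (le_max_right _ _))
            refine le_trans ?_ (le_max_right _ _)
            omega
        · refine (hC _ _).trans ?_
          have h1 := dgr_Xpow P (X ^ 2 : Rp p)
          have h2 : (X ^ 2 : Rp p).natDegree ≤ 2 := natDegree_X_pow_le 2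
          refine h1.trans (le_trans ?_ (le_max_right _ _))
          refine le_trans ?_ (le_max_left _ _)
          have := le_max_right W.natDegree 2
          omega
      · refine (hC _ _).trans ?_
        refine (natDegree_X_pow_le 3).trans (le_trans ?_ (le_max_right _ _))
        refine le_trans ?_ (le_max_left _ _)
        omega
    have hσd : p * σ.natDegree ≤ max (max σ.natDegree
        (max (P + max W.natDegree 2) (U.natDegree + 2))) (p * U.natDegree + 2) := by
      have h1 : σ ^ p = (X ^ 2 * U ^ p + σ ^ p) - X ^ 2 * U ^ p := by ring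
      rw [← natDegree_pow, h1]
      refine (natDegree_sub_le _ _).trans (max_le (hR.trans (le_max_left _ _)) ?_)
      have h2 := dgr_Xpow 2 (U ^ p)
      rw [natDegree_pow] at h2
      refine h2.trans (le_trans ?_ (le_max_right _ _))
      omega
    have hfin := dgr_arith hp le_rfl (le_max_right _ _) (by norm_num) hσd hL hR
    rcases le_max_iff.1 hfin with h | h
    · exact h
    · exfalso
      have : 5 * U.natDegree ≤ p * U.natDegree := Nat.mul_le_mul_right _ hp
      omega

theorem natDegree_z (c₀ : ZMod p) (U : Rp p) :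
    (C c₀ * X + (U ^ p - U)).natDegree ≤ max 1 (p * U.natDegree) := by
  refine (natDegree_add_le _ _).trans (max_le ?_ ?_)
  · exact ((natDegree_C_mul_le _ _).trans natDegree_X_le).trans (le_max_left _ _)
  · exact (dgr_natDegree_pow_sub U).trans (le_max_right _ _)

theorem natDegree_y (c₀ : ZMod p) (W : Rp p) :
    (C c₀ * X ^ 2 + (W ^ p - W)).natDegree ≤ max 2 (p * W.natDegree) := by
  refine (natDegree_add_le _ _).trans (max_le ?_ ?_)
  · exact ((natDegree_C_mul_le _ _).trans (natDegree_X_pow_le 2)).trans (le_max_left _ _)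
  · exact (dgr_natDegree_pow_sub W).trans (le_max_right _ _)

lemma dgr_coeff_zero_pow_sub (U : Rp p) : (U ^ p - U).coeff 0 = 0 := by
  rw [coeff_zero_eq_eval_zero, eval_sub, eval_pow, ZMod.pow_card, sub_self]

theorem coeff_zero_z (c₀ : ZMod p) (U : Rp p) : (C c₀ * X + (U ^ p - U)).coeff 0 = 0 := by
  rw [coeff_add, dgr_coeff_zero_pow_sub, add_zero, coeff_C_mul, coeff_X_zero, mul_zero]

theorem coeff_zero_y (c₀ : ZMod p) (W : Rp p) : (C c₀ * X ^ 2 + (W ^ p - W)).coeff 0 = 0 := by
  rw [coeff_add, dgr_coeff_zero_pow_sub, add_zero, coeff_C_mul, coeff_X_pow]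
  norm_num

end MP333
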