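import Pool.Agent.Lib.MP_333da9_nt.Defs

/-!
# For every `k` there is a solution with `z = ζ_(k+1)`

`s = k + 1`, `x = t ^ (p ^ k)`, `x ^ p = t ^ (p ^ s)`, `C_i` Catalan numbers mod `p`,
`z = ∑_{i ≤ s} C_i t^(p^i)`, `y = ∑_{i ≤ s} C_i t^(2 p^(s-i))`, `c = ∑_{i ≤ s} C_i`,
`h = ∑_n g_n t^(p^n)` where `X a² - a + 1 = X^(s+1) g`, `a = ∑_{i ≤ s} C_i X^i`, i.e.
`g_n = ∑_{i + l = s + n, i, l ≤ s} C_i C_l`, `0 ≤ n ≤ s`.
Everything follows from `f ^ (p^j) - f ∈ ℘(K)` (`= ℘(f + f^p + ... + f^(p^(j-1)))`), additivity of `℘`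
(so `℘(K)` is an `𝔽_p`-subspace), and equalities of exponents:
 e1: `t^(p^k) - t`.  e2: `1/(x+1) - 1/(t+1)`, `x + 1 = (t+1)^(p^k)`.
 e4: `t^(p^i) - t`.  e5: `t^(2p^i) - t^2`.
 e6: `t^(2p^s + p^i) = (t * t^(2p^(s-i)))^(p^i)`.
 e7: `t^(p^s + 2p^(s-i)) = (t^2 * t^(p^i))^(p^(s-i))`.
 e8: `t^(2p^(s+1) + p^i) = (t * t^(2p^(s+1-i)))^(p^i)`.
 e9: `t^(p^(s+1) + 2p^(s-i)) = (t^2 * t^(p^(i+1)))^(p^(s-i))`.
 e10: `z^p y = ∑ C_i C_l t^(p^(i+1) + 2p^(s-l))`, the term is `≡ t^(2 + p^(i+l+1-s))` if `i+l+1 ≥ s`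
      and `≡ t^(1 + 2p^(s-i-l-1))` if `i+l+1 ≤ s`;  `catalan_succ`.
-/

set_option autoImplicit false

namespace MP333

open Polynomial

variable {p : ℕ} [Fact p.Prime]

namespace ExistAux

/-- `f ∈ ℘(K)`. -/
def W (f : Kp p) : Prop := ∃ r : Kp p, f = r ^ p - r

instance instCharP : CharP (Kp p) p :=
  charP_of_injective_algebraMap (algebraMap (ZMod p) (Kp p)).injective p

theorem W_zero : W (0 : Kp p) :=
  ⟨0, by rw [zero_pow (Fact.out : p.Prime).ne_zero, sub_zero]⟩

theorem W_add {f g : Kp p} (hf : W f) (hg : W g) : W (f + g) := by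
  obtain ⟨r, rfl⟩ := hf
  obtain ⟨s, rfl⟩ := hg
  exact ⟨r + s, by rw [add_pow_char]; ring⟩

theorem W_mul {c f : Kp p} (hc : c ^ p = c) (hf : W f) : W (c * f) := by
  obtain ⟨r, rfl⟩ := hf
  exact ⟨c * r, by rw [mul_pow, hc]; ring⟩

theorem W_sum {ι : Type} (s : Finset ι) (f : ι → Kp p) (h : ∀ i ∈ s, W (f i)) :
    W (∑ i ∈ s, f i) := by
  classical
  induction s using Finset.induction_on with
  | empty => simpa using W_zero
  | insert a s ha ih =>
    rw [Finset.sum_insert ha]
    exact W_add (h a (Finset.mem_insert_self a s))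
      (ih fun i hi => h i (Finset.mem_insert_of_mem hi))

theorem W_pow (f : Kp p) (j : ℕ) : W (f ^ (p ^ j) - f) := by
  induction j with
  | zero => simpa using W_zero
  | succ j ih =>
    have h : f ^ (p ^ (j + 1)) - f = ((f ^ (p ^ j)) ^ p - f ^ (p ^ j)) + (f ^ (p ^ j) - f) := by
      rw [pow_succ, pow_mul]; ring
    rw [h]
    exact W_add ⟨_, rfl⟩ ih

theorem cast_pow (n : ℕ) : ((n : ℕ) : Kp p) ^ p = n := by
  have h := map_natCast (frobenius (Kp p) p) n
  rwa [frobenius_def] at h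

theorem cast_pow_pow (n : ℕ) (j : ℕ) : ((n : ℕ) : Kp p) ^ p ^ j = n := by
  induction j with
  | zero => simp
  | succ j ih => rw [pow_succ, pow_mul, ih, cast_pow]

/-- a weighted sum of `f_i - g_i` with `f_i = g_i ^ (p ^ j_i)`. -/
theorem W_wsum {ι : Type} (s : Finset ι) (a : ι → ℕ) (f g : ι → Kp p) (j : ι → ℕ)
    (h : ∀ i ∈ s, f i = g i ^ (p ^ j i)) :
    W (∑ i ∈ s, (a i : Kp p) * f i - ∑ i ∈ s, (a i : Kp p) * g i) := by
  rw [← Finset.sum_sub_distrib]
  refine W_sum s _ fun i hi => ?_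
  rw [← mul_sub, h i hi]
  exact W_mul (cast_pow _) (W_pow _ _)

theorem zeta_eq (s : ℕ) : algebraMap (Rp p) (Kp p) (zeta p s) =
    ∑ i ∈ Finset.range (s + 1), ((catalan i : ℕ) : Kp p) * (RatFunc.X : Kp p) ^ (p ^ i) := by
  unfold zeta
  rw [map_sum]
  refine Finset.sum_congr rfl fun i _ => ?_
  rw [map_mul, map_pow, RatFunc.algebraMap_X]
  congr 1
  rw [map_natCast C, map_natCast]

theorem sum_pow_char' {ι : Type} (s : Finset ι) (f : ι → Kp p) :
    (∑ i ∈ s, f i) ^ p = ∑ i ∈ s, f i ^ p := sum_pow_char p s f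

end ExistAux

open ExistAux

theorem exists_sys (hp : 5 ≤ p) (k : ℕ) :
    ∃ y x v₁ v₂ c u w r₁ r₂ r₃ r₄ h r₅ : Kp p,
      Sys p (algebraMap (Rp p) (Kp p) (zeta p (k + 1))) y x v₁ v₂ c u w r₁ r₂ r₃ r₄ h r₅ := by
  have hp0 : 0 < p := by omega
  rw [zeta_eq]
  obtain ⟨s, hs⟩ : ∃ s, s = k + 1 := ⟨_, rfl⟩
  rw [← hs]
  set t : Kp p := RatFunc.X with ht
  set z : Kp p := ∑ i ∈ Finset.range (s + 1), ((catalan i : ℕ) : Kp p) * t ^ (p ^ i) with hz
  set y : Kp p := ∑ i ∈ Finset.range (s + 1), ((catalan i : ℕ) : Kp p) * t ^ (2 * p ^ (s - i))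
    with hy
  set x : Kp p := t ^ (p ^ k) with hx
  set c : Kp p := ((∑ i ∈ Finset.range (s + 1), catalan i : ℕ) : Kp p) with hc
  have hxp : x ^ p = t ^ (p ^ s) := by rw [hx, ← pow_mul, hs, pow_succ]
  have hxpp : (x ^ p) ^ p = t ^ (p ^ (s + 1)) := by rw [hxp, ← pow_mul, ← pow_succ]
  have hyp : y ^ p = ∑ i ∈ Finset.range (s + 1),
      ((catalan i : ℕ) : Kp p) * t ^ (2 * p ^ (s + 1 - i)) := by
    rw [hy, sum_pow_char']
    refine Finset.sum_congr rfl fun i hi => ?_
    rw [mul_pow, cast_pow, ← pow_mul]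
    have hi' : i ≤ s := by simpa [Nat.lt_succ_iff] using hi
    rw [show s + 1 - i = (s - i) + 1 by omega, pow_succ, mul_assoc]
  have hzp : z ^ p = ∑ i ∈ Finset.range (s + 1),
      ((catalan i : ℕ) : Kp p) * t ^ (p ^ (i + 1)) := by
    rw [hz, sum_pow_char']
    refine Finset.sum_congr rfl fun i _ => ?_
    rw [mul_pow, cast_pow, ← pow_mul, ← pow_succ]
  have ht1 : t + 1 ≠ 0 := by
    have h1 : (algebraMap (Rp p) (Kp p)) (X + 1) ≠ 0 := by
      rw [Ne, map_eq_zero_iff _ (IsFractionRing.injective (Rp p) (Kp p))]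
      have := Polynomial.X_add_C_ne_zero (1 : ZMod p)
      simpa using this
    simpa [ht] using h1
  have hx1 : x + 1 = (t + 1) ^ (p ^ k) := by
    rw [add_pow_char_pow, one_pow]
  have hx1' : x + 1 ≠ 0 := by rw [hx1]; exact pow_ne_zero _ ht1
  -- e1
  obtain ⟨v₁, h1⟩ : W (x - t) := W_pow t k
  -- e2
  obtain ⟨v₂, h2⟩ : W ((x + 1)⁻¹ - (t + 1)⁻¹) := by
    have := W_pow ((t + 1)⁻¹) k
    rwa [inv_pow, ← hx1] at this
  -- e4
  obtain ⟨u, h4⟩ : W (z - c * t) := by
    have h := W_wsum (Finset.range (s + 1)) (fun i => catalan i) (fun i => t ^ (p ^ i))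
      (fun _ => t) (fun i => i) (fun i _ => rfl)
    rwa [← Finset.sum_mul, ← Nat.cast_sum] at h
  -- e5
  obtain ⟨w, h5⟩ : W (y - c * t ^ 2) := by
    have h := W_wsum (Finset.range (s + 1)) (fun i => catalan i)
      (fun i => t ^ (2 * p ^ (s - i)))
      (fun _ => t ^ 2) (fun i => s - i) (fun i _ => by rw [pow_mul])
    rwa [← Finset.sum_mul, ← Nat.cast_sum] at h
  -- e6
  obtain ⟨r₁, h6⟩ : W ((x ^ p) ^ 2 * z - t * y) := by
    have h := W_wsum (Finset.range (s + 1)) (fun i => catalan i)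
      (fun i => t ^ (2 * p ^ s + p ^ i)) (fun i => t ^ (1 + 2 * p ^ (s - i))) (fun i => i)
      (fun i hi => by
        have hi' : i ≤ s := by simpa [Nat.lt_succ_iff] using hi
        rw [← pow_mul]
        congr 1
        have h1 : p ^ s = p ^ (s - i) * p ^ i := by rw [← pow_add]; congr 1; omega
        rw [h1]; ring)
    convert h using 2
    · rw [hxp, hz, Finset.mul_sum]
      refine Finset.sum_congr rfl fun i _ => ?_
      rw [pow_add, ← pow_mul, mul_comm (p ^ s) 2]; ring
    · rw [hy, Finset.mul_sum]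
      refine Finset.sum_congr rfl fun i _ => ?_
      rw [pow_add, pow_one]; ring
  -- e7
  obtain ⟨r₂, h7⟩ : W (x ^ p * y - t ^ 2 * z) := by
    have h := W_wsum (Finset.range (s + 1)) (fun i => catalan i)
      (fun i => t ^ (p ^ s + 2 * p ^ (s - i))) (fun i => t ^ (2 + p ^ i)) (fun i => s - i)
      (fun i hi => by
        have hi' : i ≤ s := by simpa [Nat.lt_succ_iff] using hi
        rw [← pow_mul]
        congr 1
        have h1 : p ^ s = p ^ i * p ^ (s - i) := by rw [← pow_add]; congr 1; omega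
        rw [h1]; ring)
    convert h using 2
    · rw [hxp, hy, Finset.mul_sum]
      refine Finset.sum_congr rfl fun i _ => ?_
      rw [pow_add]; ring
    · rw [hz, Finset.mul_sum]
      refine Finset.sum_congr rfl fun i _ => ?_
      rw [pow_add]; ring
  -- e8
  obtain ⟨r₃, h8⟩ : W (((x ^ p) ^ p) ^ 2 * z - t * y ^ p) := by
    have h := W_wsum (Finset.range (s + 1)) (fun i => catalan i)
      (fun i => t ^ (2 * p ^ (s + 1) + p ^ i)) (fun i => t ^ (1 + 2 * p ^ (s + 1 - i)))
      (fun i => i)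
      (fun i hi => by
        have hi' : i ≤ s := by simpa [Nat.lt_succ_iff] using hi
        rw [← pow_mul]
        congr 1
        have h1 : p ^ (s + 1) = p ^ (s + 1 - i) * p ^ i := by rw [← pow_add]; congr 1; omega
        rw [h1]; ring)
    convert h using 2
    · rw [hxpp, hz, Finset.mul_sum]
      refine Finset.sum_congr rfl fun i _ => ?_
      rw [pow_add t, ← pow_mul, mul_comm (p ^ (s + 1)) 2]; ring
    · rw [hyp, Finset.mul_sum]
      refine Finset.sum_congr rfl fun i _ => ?_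
      rw [pow_add t, pow_one]; ring
  -- e9
  obtain ⟨r₄, h9⟩ : W ((x ^ p) ^ p * y - t ^ 2 * z ^ p) := by
    have h := W_wsum (Finset.range (s + 1)) (fun i => catalan i)
      (fun i => t ^ (p ^ (s + 1) + 2 * p ^ (s - i))) (fun i => t ^ (2 + p ^ (i + 1)))
      (fun i => s - i)
      (fun i hi => by
        have hi' : i ≤ s := by simpa [Nat.lt_succ_iff] using hi
        rw [← pow_mul]
        congr 1
        have h1 : p ^ (s + 1) = p ^ (i + 1) * p ^ (s - i) := by
          rw [← pow_add]; congr 1; omega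
        rw [h1]; ring)
    convert h using 2
    · rw [hxpp, hy, Finset.mul_sum]
      refine Finset.sum_congr rfl fun i _ => ?_
      rw [pow_add t]; ring
    · rw [hzp, Finset.mul_sum]
      refine Finset.sum_congr rfl fun i _ => ?_
      rw [pow_add t]; ring
  -- e10
  set G : ℕ → Kp p := fun j => t ^ (1 + 2 * p ^ (s - j)) with hG
  set h : Kp p := ∑ i ∈ Finset.range (s + 1), ∑ l ∈ Finset.range (s + 1),
    if i + l < s then 0 else ((catalan i * catalan l : ℕ) : Kp p) * t ^ (p ^ (i + l - s)) with hh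
  obtain ⟨r₅, h10⟩ : W (z ^ p * y - t * y + t * (x ^ p) ^ 2 - t ^ 2 * h ^ p) := by
    have hW := W_wsum ((Finset.range (s + 1)) ×ˢ (Finset.range (s + 1)))
      (fun q => catalan q.1 * catalan q.2)
      (fun q => t ^ (p ^ (q.1 + 1) + 2 * p ^ (s - q.2)))
      (fun q => if q.1 + q.2 < s then G (q.1 + q.2 + 1) else t ^ (2 + p ^ (q.1 + q.2 + 1 - s)))
      (fun q => if q.1 + q.2 < s then q.1 + 1 else s - q.2)
      (fun q hq => by
        rw [Finset.mem_product, Finset.mem_range, Finset.mem_range] at hq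
        by_cases hlt : q.1 + q.2 < s
        · rw [if_pos hlt, if_pos hlt, hG]
          simp only
          rw [← pow_mul]
          congr 1
          have h1 : p ^ (s - q.2) = p ^ (s - (q.1 + q.2 + 1)) * p ^ (q.1 + 1) := by
            rw [← pow_add]; congr 1; omega
          rw [h1]; ring
        · rw [if_neg hlt, if_neg hlt, ← pow_mul]
          congr 1
          have h1 : p ^ (q.1 + 1) = p ^ (q.1 + q.2 + 1 - s) * p ^ (s - q.2) := by
            rw [← pow_add]; congr 1; omega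
          rw [h1]; ring)
    convert hW using 1
    have e1 : z ^ p * y = ∑ q ∈ (Finset.range (s + 1)) ×ˢ (Finset.range (s + 1)),
        ((catalan q.1 * catalan q.2 : ℕ) : Kp p) * t ^ (p ^ (q.1 + 1) + 2 * p ^ (s - q.2)) := by
      rw [hzp, hy, Finset.sum_mul_sum, Finset.sum_product]
      refine Finset.sum_congr rfl fun i _ => Finset.sum_congr rfl fun l _ => ?_
      rw [pow_add, Nat.cast_mul]; ring
    have e2 : t * y = t * (x ^ p) ^ 2 +
        ∑ q ∈ (Finset.range (s + 1)) ×ˢ (Finset.range (s + 1)),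
          ((catalan q.1 * catalan q.2 : ℕ) : Kp p) *
            (if q.1 + q.2 < s then G (q.1 + q.2 + 1) else 0) := by
      have e3 : t * y = ∑ j ∈ Finset.range (s + 1), ((catalan j : ℕ) : Kp p) * G j := by
        rw [hy, Finset.mul_sum]
        refine Finset.sum_congr rfl fun i _ => ?_
        rw [hG]
        simp only
        rw [pow_add t, pow_one]; ring
      rw [e3, Finset.sum_range_succ', add_comm]
      congr 1
      · rw [catalan_zero, hG, hxp]
        simp only [Nat.cast_one, one_mul, Nat.sub_zero]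
        rw [pow_add, pow_one, ← pow_mul, mul_comm 2]
      · have e4 : ∑ q ∈ (Finset.range (s + 1)) ×ˢ (Finset.range (s + 1)),
            ((catalan q.1 * catalan q.2 : ℕ) : Kp p) *
              (if q.1 + q.2 < s then G (q.1 + q.2 + 1) else 0) =
            ∑ q ∈ ((Finset.range (s + 1)) ×ˢ (Finset.range (s + 1))).filter
              (fun q => q.1 + q.2 < s),
              ((catalan q.1 * catalan q.2 : ℕ) : Kp p) * G (q.1 + q.2 + 1) := by
          rw [Finset.sum_filter]
          refine Finset.sum_congr rfl fun q _ => ?_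
          split_ifs <;> simp
        rw [e4, ← Finset.sum_fiberwise_of_maps_to (t := Finset.range s)
          (g := fun q : ℕ × ℕ => q.1 + q.2)]
        · refine Finset.sum_congr rfl fun j hj => ?_
          rw [Finset.mem_range] at hj
          rw [catalan_succ', Nat.cast_sum, Finset.sum_mul]
          refine Finset.sum_congr ?_ fun q hq => ?_
          · ext q
            rw [Finset.HasAntidiagonal.mem_antidiagonal, Finset.mem_filter, Finset.mem_filter,
              Finset.mem_product, Finset.mem_range, Finset.mem_range]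
            omega
          · rw [Finset.mem_filter] at hq
            rw [hq.2]
        · intro q hq
          rw [Finset.mem_filter] at hq
          exact Finset.mem_range.mpr hq.2
    have e5 : t ^ 2 * h ^ p = ∑ q ∈ (Finset.range (s + 1)) ×ˢ (Finset.range (s + 1)),
        ((catalan q.1 * catalan q.2 : ℕ) : Kp p) *
          (if q.1 + q.2 < s then 0 else t ^ (2 + p ^ (q.1 + q.2 + 1 - s))) := by
      rw [hh, ← Finset.sum_product', sum_pow_char', Finset.mul_sum]
      refine Finset.sum_congr rfl fun q _ => ?_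
      by_cases hlt : q.1 + q.2 < s
      · rw [if_pos hlt, if_pos hlt, zero_pow hp0.ne', mul_zero, mul_zero]
      · rw [if_neg hlt, if_neg hlt, mul_pow, cast_pow, ← pow_mul, ← pow_succ, pow_add t,
          show q.1 + q.2 - s + 1 = q.1 + q.2 + 1 - s by omega]
        ring
    have e6 : ∑ q ∈ (Finset.range (s + 1)) ×ˢ (Finset.range (s + 1)),
        ((catalan q.1 * catalan q.2 : ℕ) : Kp p) *
          (if q.1 + q.2 < s then G (q.1 + q.2 + 1) else t ^ (2 + p ^ (q.1 + q.2 + 1 - s))) =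
        ∑ q ∈ (Finset.range (s + 1)) ×ˢ (Finset.range (s + 1)),
          ((catalan q.1 * catalan q.2 : ℕ) : Kp p) *
            (if q.1 + q.2 < s then G (q.1 + q.2 + 1) else 0) +
        ∑ q ∈ (Finset.range (s + 1)) ×ˢ (Finset.range (s + 1)),
        ((catalan q.1 * catalan q.2 : ℕ) : Kp p) *
          (if q.1 + q.2 < s then 0 else t ^ (2 + p ^ (q.1 + q.2 + 1 - s))) := by
      rw [← Finset.sum_add_distrib]
      refine Finset.sum_congr rfl fun q _ => ?_
      split_ifs <;> ring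
    rw [e6, ← e1, ← e5, e2]
    ring
  refine ⟨y, x, v₁, v₂, c, u, w, r₁, r₂, r₃, r₄, h, r₅, ?_⟩
  exact
    { e1 := h1
      e2 := by
        rw [← h2]
        field_simp
        ring
      e3 := cast_pow _
      e4 := by rw [← h4]; ring
      e5 := by rw [← h5]; ring
      e6 := h6
      e7 := h7
      e8 := h8
      e9 := h9
      e10 := h10 }

end MP333
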