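import Pool.Agent.Lib.MP_333da9_nt.Defs

/-!
# `ζ = ∑ C_i t^(p^i) ∈ 𝔽_p⟦t⟧` is transcendental over `𝔽_p(t)`

Paper proof.  Suppose `H(ζ) = 0`, `0 ≠ H ∈ 𝔽_p[t][Y]`.  Then `𝔽_p(t)(ζ)` is a finite extension, so the
powers `ζ^(p^j) = ∑_i C_i t^(p^(i+j))`, `j ≥ 0`, are linearly dependent over `𝔽_p[t]`:
`∑_{j ≤ d} A_j ζ^(p^j) = 0`, `A_j ∈ 𝔽_p[t]` not all zero.  So
`∑_i (∑_j A_j C_(i-j)) t^(p^i) = 0`; for `i` large the exponents `p^i + [0, N]`, `N = max deg A_j`, are
disjoint from the others, so `∑_j A_j C_(i-j) = 0` for all large `i`.  Taking the coefficient of a `t^e`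
with some `A_{j,e} ≠ 0`: `∑_j α_j C_(i-j) = 0` for large `i`, `α ≠ 0`: so `Q(X) R(X) = P(X)` with
`R = ∑ C_i X^i ∈ 𝔽_p⟦X⟧`, `Q ≠ 0` and `P` polynomials.  But `X R² - R + 1 = 0` (`catalan_succ`), so
`(2XP - Q)² = (1 - 4X) Q²`, degrees of different parity (p ≠ 2).  Contradiction.
Finally if `H(ζ) ≠ 0` has order `N` then, as `t^(p^(s+1)) ∣ ζ - ζ_s`, `H(ζ_s)` has order `N` for
`p^(s+1) > N`.
-/

set_option autoImplicit false

namespace MP333

open Polynomial

open scoped RatFunc

variable {p : ℕ} [Fact p.Prime]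

/-- The ring homomorphism `𝔽_p[t] → 𝔽_p⟦t⟧`. -/
noncomputable abbrev toPS (p : ℕ) [Fact p.Prime] : Rp p →+* PowerSeries (ZMod p) :=
  Polynomial.coeToPowerSeries.ringHom

/-- The coefficients of `ζ`. -/
noncomputable def zcoef (p : ℕ) (m : ℕ) : ZMod p :=
  if m = p ^ (Nat.log p m) then ((catalan (Nat.log p m) : ℕ) : ZMod p) else 0

/-- The power series `ζ`. -/
noncomputable def zser (p : ℕ) : PowerSeries (ZMod p) := PowerSeries.mk (zcoef p)

theorem two_le_p : 2 ≤ p := (Fact.out : p.Prime).two_le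

theorem zeta_coeff (s m : ℕ) :
    (zeta p s).coeff m =
      if m = p ^ (Nat.log p m) ∧ Nat.log p m ≤ s then ((catalan (Nat.log p m) : ℕ) : ZMod p)
      else 0 := by
  have hp2 : 1 < p := two_le_p
  unfold zeta
  rw [finsetSum_coeff]
  simp only [coeff_C_mul, coeff_X_pow]
  split_ifs with h
  · rw [Finset.sum_eq_single (Nat.log p m)]
    · rw [if_pos h.1, mul_one]
    · intro b _ hb
      rw [if_neg, mul_zero]
      intro hm
      apply hb
      rw [hm, Nat.log_pow hp2]
    · intro hn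
      exfalso
      apply hn
      rw [Finset.mem_range]
      omega
  · apply Finset.sum_eq_zero
    intro b hb
    rw [if_neg, mul_zero]
    intro hm
    apply h
    rw [hm, Nat.log_pow hp2]
    refine ⟨rfl, ?_⟩
    rw [Finset.mem_range] at hb
    omega

/-- `t^(p^(s+1))` divides `ζ - ζ_s`. -/
theorem X_pow_dvd_sub (s : ℕ) :
    (PowerSeries.X : PowerSeries (ZMod p)) ^ (p ^ (s + 1)) ∣ zser p - toPS p (zeta p s) := by
  have hp2 : 1 < p := two_le_p
  rw [PowerSeries.X_pow_dvd_iff]
  intro m hm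
  rw [map_sub]
  have h1 : PowerSeries.coeff m (toPS p (zeta p s)) = (zeta p s).coeff m := by
    simp [toPS]
  rw [h1, zeta_coeff, zser, PowerSeries.coeff_mk, zcoef]
  have hlog : Nat.log p m ≤ s := by
    rcases Nat.eq_zero_or_pos m with h0 | h0
    · subst h0; simp
    · have := Nat.log_lt_of_lt_pow (by omega) hm
      omega
  by_cases h : m = p ^ (Nat.log p m)
  · rw [if_pos h, if_pos ⟨h, hlog⟩, sub_self]
  · rw [if_neg h, if_neg (fun h' => h h'.1), sub_self]

theorem X_pow_dvd_eval_sub (H : Polynomial (Rp p)) (s : ℕ) :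
    (PowerSeries.X : PowerSeries (ZMod p)) ^ (p ^ (s + 1)) ∣
      H.eval₂ (toPS p) (zser p) - toPS p (H.eval (zeta p s)) := by
  have h1 : toPS p (H.eval (zeta p s)) = H.eval₂ (toPS p) (toPS p (zeta p s)) := by
    rw [Polynomial.eval₂_at_apply]
  rw [h1, ← Polynomial.eval_map, ← Polynomial.eval_map]
  exact (X_pow_dvd_sub s).trans (Polynomial.sub_dvd_eval_sub _ _ _)

/-- If the conclusion of `transc` fails, then `H(ζ) = 0`. -/
theorem eval_eq_zero (H : Polynomial (Rp p))
    (hcon : ∀ N s₀ : ℕ, ∃ s ≥ s₀, (X : Rp p) ^ (N + 1) ∣ H.eval (zeta p s)) :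
    H.eval₂ (toPS p) (zser p) = 0 := by
  have hp2 : 1 < p := two_le_p
  ext m
  obtain ⟨s, hs, hd⟩ := hcon m m
  have h1 := X_pow_dvd_eval_sub H s
  rw [PowerSeries.X_pow_dvd_iff] at h1
  have h2 := h1 m (lt_of_lt_of_le (Nat.lt_pow_self hp2) (Nat.pow_le_pow_right (by omega) (by omega)))
  rw [map_sub, sub_eq_zero] at h2
  rw [h2]
  have h3 : PowerSeries.coeff m (toPS p (H.eval (zeta p s))) = (H.eval (zeta p s)).coeff m := by
    simp [toPS]
  rw [h3]
  rw [Polynomial.X_pow_dvd_iff] at hd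
  rw [hd m (by omega)]
  simp

/-- The Laurent series field. -/
abbrev Lp (p : ℕ) : Type := LaurentSeries (ZMod p)

/-- Linear dependence of the powers `ζ^(p^j)` over `𝔽_p[t]`. -/
theorem exists_relation (H : Polynomial (Rp p)) (hH : H ≠ 0)
    (h0 : H.eval₂ (toPS p) (zser p) = 0) :
    ∃ (S : Finset ℕ) (A : ℕ → Rp p), (∃ j ∈ S, A j ≠ 0) ∧
      ∑ j ∈ S, toPS p (A j) * (zser p) ^ (p ^ j) = 0 := by
  have hinj : Function.Injective (HahnSeries.ofPowerSeries ℤ (ZMod p)) :=
    HahnSeries.ofPowerSeries_injective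
  have halg : ∀ r : Rp p, algebraMap (Rp p) (Lp p) r =
      HahnSeries.ofPowerSeries ℤ (ZMod p) (toPS p r) := fun r => rfl
  let x : (Lp p) := HahnSeries.ofPowerSeries ℤ (ZMod p) (zser p)
  have hx : IsAlgebraic (Rp p) x := by
    refine ⟨H, hH, ?_⟩
    have h1 : aeval x H = HahnSeries.ofPowerSeries ℤ (ZMod p) (H.eval₂ (toPS p) (zser p)) := by
      rw [Polynomial.hom_eval₂]
      rfl
    rw [h1, h0, map_zero]
  have hxF : IsAlgebraic (Kp p) x := hx.extendScalars (by
    exact IsFractionRing.injective (Rp p) (Kp p))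
  have hint : IsIntegral (Kp p) x := hxF.isIntegral
  haveI : FiniteDimensional (Kp p) (IntermediateField.adjoin (Kp p) {x}) :=
    IntermediateField.adjoin.finiteDimensional hint
  let b : ℕ → IntermediateField.adjoin (Kp p) {x} := fun j =>
    (IntermediateField.AdjoinSimple.gen (Kp p) x) ^ (p ^ j)
  have hb : ¬ LinearIndependent (Kp p) b := Module.Finite.not_linearIndependent_of_infinite b
  have hb2 : ¬ LinearIndependent (Kp p) (fun j : ℕ => x ^ (p ^ j)) := by
    intro h
    apply hb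
    have h2 : LinearIndependent (Kp p)
        (((IntermediateField.adjoin (Kp p) {x}).val.toLinearMap) ∘ b) := h
    exact LinearIndependent.of_comp _ h2
  have hb3 : ¬ LinearIndependent (Rp p) (fun j : ℕ => x ^ (p ^ j)) := by
    rw [LinearIndependent.iff_fractionRing (R := Rp p) (K := Kp p)]
    exact hb2
  rw [not_linearIndependent_iff] at hb3
  obtain ⟨S, A, hsum, hj⟩ := hb3
  refine ⟨S, A, hj, ?_⟩
  apply hinj
  rw [map_zero, map_sum, ← hsum]
  apply Finset.sum_congr rfl
  intro j _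
  rw [map_mul, map_pow, Algebra.smul_def, halg]

theorem zeta_pow (s j : ℕ) :
    (zeta p s) ^ (p ^ j) = ∑ i ∈ Finset.range (s + 1),
      C ((catalan i : ℕ) : ZMod p) * X ^ (p ^ (i + j)) := by
  unfold zeta
  rw [sum_pow_char_pow]
  apply Finset.sum_congr rfl
  intro i _
  rw [mul_pow, ← C_pow, ← pow_mul, ← pow_add]
  congr 2
  have := ZMod.pow_card_pow (n := j) ((catalan i : ℕ) : ZMod p)
  exact this

/-- The combinatorial consequence: a linear recurrence for the Catalan numbers mod `p`. -/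
theorem exists_recurrence (S : Finset ℕ) (A : ℕ → Rp p) (hA : ∃ j ∈ S, A j ≠ 0)
    (h : ∑ j ∈ S, toPS p (A j) * (zser p) ^ (p ^ j) = 0) :
    ∃ (Q : Polynomial (ZMod p)) (n₀ : ℕ), Q ≠ 0 ∧
      ∀ n ≥ n₀, ∑ j ∈ Finset.range (n + 1), Q.coeff j * ((catalan (n - j) : ℕ) : ZMod p) = 0 := by
  have hp2 : 1 < p := two_le_p
  obtain ⟨j₀, hj₀, hA0⟩ := hA
  -- the divisibility in `𝔽_p[t]`
  have hdvd : ∀ s : ℕ, (X : Rp p) ^ (p ^ (s + 1)) ∣ ∑ j ∈ S, A j * (zeta p s) ^ (p ^ j) := by
    intro s
    have h1 : (PowerSeries.X : PowerSeries (ZMod p)) ^ (p ^ (s + 1)) ∣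
        (∑ j ∈ S, toPS p (A j) * (zser p) ^ (p ^ j)) -
          toPS p (∑ j ∈ S, A j * (zeta p s) ^ (p ^ j)) := by
      rw [map_sum, ← Finset.sum_sub_distrib]
      apply Finset.dvd_sum
      intro j _
      rw [map_mul, map_pow, ← mul_sub]
      apply Dvd.dvd.mul_left
      exact (X_pow_dvd_sub s).trans (sub_dvd_pow_sub_pow _ _ _)
    rw [h, zero_sub, dvd_neg, PowerSeries.X_pow_dvd_iff] at h1
    rw [Polynomial.X_pow_dvd_iff]
    intro m hm
    have := h1 m hm
    rw [← this]
    exact (Polynomial.coeff_coe _ _).symm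
  -- choose the degree `e`
  obtain ⟨e, he⟩ : ∃ e, (A j₀).coeff e ≠ 0 := by
    by_contra hcon
    push Not at hcon
    exact hA0 (Polynomial.ext (fun n => by rw [hcon n, coeff_zero]))
  obtain ⟨N, hN⟩ : ∃ N : ℕ, ∀ j ∈ S, (A j).natDegree ≤ N ∧ e ≤ N := by
    refine ⟨S.sup (fun j => (A j).natDegree) + e, fun j hj => ⟨?_, by omega⟩⟩
    have h9 : (A j).natDegree ≤ S.sup (fun j => (A j).natDegree) :=
      Finset.le_sup (f := fun j => (A j).natDegree) hj
    omega
  have heN : e ≤ N := (hN j₀ hj₀).2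
  refine ⟨∑ j ∈ S, C ((A j).coeff e) * X ^ j, N + 1, ?_, ?_⟩
  · intro hQ
    apply he
    have := congrArg (fun q : Polynomial (ZMod p) => q.coeff j₀) hQ
    simp only [finsetSum_coeff, coeff_C_mul, coeff_X_pow, coeff_zero] at this
    rw [Finset.sum_eq_single j₀] at this
    · simpa using this
    · intro b _ hb
      rw [if_neg (Ne.symm hb), mul_zero]
    · intro hn
      exact absurd hj₀ hn
  · intro n hn
    have hpn : N < p ^ n - p ^ (n - 1) := by
      obtain ⟨n', rfl⟩ : ∃ n', n = n' + 1 := ⟨n - 1, by omega⟩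
      have h1 : n' < p ^ n' := Nat.lt_pow_self hp2
      have h2 : p ^ (n' + 1) = p ^ n' * p := pow_succ _ _
      have h3 : p ^ n' * 2 ≤ p ^ n' * p := Nat.mul_le_mul_left _ hp2
      rw [Nat.add_sub_cancel]
      omega
    have hmono : p ^ (n - 1) ≤ p ^ n := Nat.pow_le_pow_right (by omega) (by omega)
    have hnext : p ^ n + N < p ^ (n + 1) := by
      rw [pow_succ]
      have h3 : p ^ n * 2 ≤ p ^ n * p := Nat.mul_le_mul_left _ hp2
      omega
    have h1 := hdvd n
    rw [Polynomial.X_pow_dvd_iff] at h1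
    have h2 := h1 (p ^ n + e) (by omega)
    rw [finsetSum_coeff] at h2
    have h3 : ∀ j ∈ S, (A j * (zeta p n) ^ (p ^ j)).coeff (p ^ n + e) =
        if j ≤ n then (A j).coeff e * ((catalan (n - j) : ℕ) : ZMod p) else 0 := by
      intro j hj
      rw [zeta_pow, Finset.mul_sum, finsetSum_coeff]
      have h4 : ∀ i ∈ Finset.range (n + 1),
          (A j * (C ((catalan i : ℕ) : ZMod p) * X ^ (p ^ (i + j)))).coeff (p ^ n + e) =
          if i + j = n then (A j).coeff e * ((catalan i : ℕ) : ZMod p) else 0 := by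
        intro i _
        rw [← mul_assoc, Polynomial.coeff_mul_X_pow']
        rcases lt_trichotomy (i + j) n with hlt | heq | hgt
        · have h5 : p ^ (i + j) ≤ p ^ (n - 1) := Nat.pow_le_pow_right (by omega) (by omega)
          rw [if_pos (by omega), if_neg (by omega), Polynomial.coeff_mul_C,
            Polynomial.coeff_eq_zero_of_natDegree_lt, zero_mul]
          have := (hN j hj).1
          omega
        · rw [heq, if_pos (by omega), if_pos rfl, Polynomial.coeff_mul_C]
          congr 2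
          omega
        · have h5 : p ^ (n + 1) ≤ p ^ (i + j) := Nat.pow_le_pow_right (by omega) (by omega)
          rw [if_neg (by omega), if_neg (by omega)]
      rw [Finset.sum_congr rfl h4]
      split_ifs with hjn
      · rw [Finset.sum_eq_single (n - j)]
        · rw [if_pos (by omega)]
        · intro b _ hb
          rw [if_neg (by omega)]
        · intro hn'
          exfalso
          apply hn'
          rw [Finset.mem_range]
          omega
      · apply Finset.sum_eq_zero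
        intro i _
        rw [if_neg (by omega)]
    rw [Finset.sum_congr rfl h3] at h2
    rw [← h2]
    have h6 : ∀ j, (∑ j ∈ S, C ((A j).coeff e) * (X : Polynomial (ZMod p)) ^ j).coeff j =
        if j ∈ S then (A j).coeff e else 0 := by
      intro j
      rw [finsetSum_coeff]
      simp only [coeff_C_mul, coeff_X_pow, mul_ite, mul_one, mul_zero]
      rw [Finset.sum_ite_eq]
    simp only [h6]
    rw [← Finset.sum_filter, ← Finset.sum_filter_add_sum_filter_not (Finset.range (n + 1)) (fun j => j ∈ S)]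
    have h7 : ∑ x ∈ (Finset.range (n + 1)).filter (fun j => ¬ j ∈ S),
        (if x ∈ S then (A x).coeff e else 0) * ((catalan (n - x) : ℕ) : ZMod p) = 0 := by
      apply Finset.sum_eq_zero
      intro x hx
      rw [Finset.mem_filter] at hx
      rw [if_neg hx.2, zero_mul]
    rw [h7, add_zero]
    have h8 : (Finset.range (n + 1)).filter (fun j => j ∈ S) = S.filter (fun j => j ≤ n) := by
      ext j
      simp only [Finset.mem_filter, Finset.mem_range]
      constructor
      · rintro ⟨h1, h2⟩; exact ⟨h2, by omega⟩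
      · rintro ⟨h1, h2⟩; exact ⟨by omega, h1⟩
    rw [h8]
    apply Finset.sum_congr rfl
    intro j hj
    rw [Finset.mem_filter] at hj
    rw [if_pos hj.1]

/-- The Catalan numbers mod `p` satisfy no linear recurrence (`p` odd). -/
theorem no_recurrence (hp : 3 ≤ p) (Q : Polynomial (ZMod p)) (hQ : Q ≠ 0) (n₀ : ℕ)
    (h : ∀ n ≥ n₀, ∑ j ∈ Finset.range (n + 1),
      Q.coeff j * ((catalan (n - j) : ℕ) : ZMod p) = 0) : False := by
  set R : PowerSeries (ZMod p) := PowerSeries.map (Nat.castRingHom (ZMod p))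
    PowerSeries.catalanSeries with hR
  have hRc : ∀ n, PowerSeries.coeff n R = ((catalan n : ℕ) : ZMod p) := by
    intro n
    simp [hR]
  have hRR : R ^ 2 * PowerSeries.X + 1 = R := by
    have := congrArg (PowerSeries.map (Nat.castRingHom (ZMod p)))
      PowerSeries.catalanSeries_sq_mul_X_add_one
    simpa using this
  -- `Q R` is a polynomial
  set P : Polynomial (ZMod p) := PowerSeries.trunc n₀ ((Q : PowerSeries (ZMod p)) * R) with hP
  have hQR : (Q : PowerSeries (ZMod p)) * R = (P : PowerSeries (ZMod p)) := by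
    ext n
    rw [Polynomial.coeff_coe, hP, PowerSeries.coeff_trunc]
    split_ifs with hn
    · rfl
    · rw [PowerSeries.coeff_mul, Finset.Nat.sum_antidiagonal_eq_sum_range_succ_mk]
      simp only [Polynomial.coeff_coe, hRc]
      exact h n (by omega)
  have hpoly : P ^ 2 * X + Q ^ 2 = P * Q := by
    apply Polynomial.coe_injective (ZMod p)
    push_cast
    rw [← hQR]
    have : ((Q : PowerSeries (ZMod p)) * R) ^ 2 * PowerSeries.X + (Q : PowerSeries (ZMod p)) ^ 2 =
        (Q : PowerSeries (ZMod p)) ^ 2 * (R ^ 2 * PowerSeries.X + 1) := by ring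
    rw [this, hRR]
    ring
  have h4 : (2 * X * P - Q) ^ 2 = (1 - 4 * X) * Q ^ 2 := by
    linear_combination 4 * X * hpoly
  have h4ne : (4 : ZMod p) ≠ 0 := by
    intro h4
    have : ((4 : ℕ) : ZMod p) = 0 := by exact_mod_cast h4
    rw [ZMod.natCast_eq_zero_iff] at this
    have h5 : p ∣ 2 ^ 2 := by simpa using this
    have h6 := (Fact.out : p.Prime).dvd_of_dvd_pow h5
    have := Nat.le_of_dvd (by norm_num) h6
    omega
  have hdeg1 : (1 - 4 * X : Polynomial (ZMod p)).natDegree = 1 := by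
    have : (1 - 4 * X : Polynomial (ZMod p)) = C (-4) * X + C 1 := by
      simp only [map_neg, map_one]
      have : (C 4 : Polynomial (ZMod p)) = 4 := rfl
      rw [this]
      ring
    rw [this]
    exact Polynomial.natDegree_linear (by simpa using h4ne)
  have hne1 : (1 - 4 * X : Polynomial (ZMod p)) ≠ 0 := by
    intro h0
    rw [h0] at hdeg1
    simp at hdeg1
  have h5 := congrArg Polynomial.natDegree h4
  rw [Polynomial.natDegree_pow, Polynomial.natDegree_mul hne1 (pow_ne_zero 2 hQ), hdeg1,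
    Polynomial.natDegree_pow] at h5
  omega

theorem transc (hp : 3 ≤ p) (H : Polynomial (Rp p)) (hH : H ≠ 0) :
    ∃ N s₀ : ℕ, ∀ s ≥ s₀, ¬ (X : Rp p) ^ (N + 1) ∣ H.eval (zeta p s) := by
  by_contra hcon
  push Not at hcon
  have h0 := eval_eq_zero H hcon
  obtain ⟨S, A, hA, hsum⟩ := exists_relation H hH h0
  obtain ⟨Q, n₀, hQ, hrec⟩ := exists_recurrence S A hA hsum
  exact no_recurrence hp Q hQ n₀ hrec

end MP333
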