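import Pool.Agent.Lib.MP_333da9_nt.Wrap2

/-!
# The counterexample attached to a Diophantine set: main statement
-/

set_option autoImplicit false

namespace MP333

open MvPolynomial

variable {K : Type} [Field K]

theorem aeval_algMap {L : Type} [Field L] [Algebra K L] {n : ℕ} (b : Fin n → K)
    (G : MvPolynomial (Fin n) K) :
    aeval (fun i => algebraMap K L (b i)) G = algebraMap K L (aeval b G) :=
  MvPolynomial.aeval_algebraMap_apply L b G

section

variable {M : ℕ} (I : Ideal (MvPolynomial (Fin (M + 1)) K)) [hI : I.IsPrime]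

theorem isPoint_cons {L : Type} [Field L] [Algebra K L] (b : Fin (M + 1) → L)
    (hb : ∀ G ∈ I, aeval b G = 0) :
    (closureVar I).IsPoint (L := L) (Fin.cons 1 b : Fin (M + 2) → L) := by
  rw [isPoint_closureVar_iff I _ (by simp)]
  intro G hG
  have : (fun i : Fin (M + 1) => (Fin.cons 1 b : Fin (M + 2) → L) i.succ /
      (Fin.cons 1 b : Fin (M + 2) → L) 0) = b := by
    funext i; simp
  rw [this]
  exact hb G hG

theorem closureVar_dense (T : Set (Fin (M + 1) → K)) (hT : vanishingIdeal K T = I) :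
    (closureVar I).DensePoints := by
  intro d F hF h
  have key : ∀ F : MvPolynomial (Fin (M + 2)) K, F.IsHomogeneous d →
      (∀ a : Fin (M + 2) → K, (closureVar I).IsPoint a → aeval a F = 0) → F ∈ closureIdeal I := by
    intro F hF h
    rw [mem_closureIdeal_homog I d F hF, ← hT]
    intro b hb
    rw [aeval_dehom]
    exact h _ (isPoint_cons I b fun G hG => by
      rw [← hT] at hG
      exact hG b hb)
  exact key F hF h

theorem closureVar_posDim (T : Set (Fin (M + 1) → K)) (hT : vanishingIdeal K T = I)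
    (hinf : ((fun a : Fin (M + 1) → K => a 0) '' T).Infinite) : (closureVar I).PosDim := by
  refine posDim_of (closureVar I) (0 : Fin (M + 2)) (1 : Fin (M + 2))
    (algebraMap K (AlgebraicClosure K) '' ((fun a : Fin (M + 1) → K => a 0) '' T))
    (hinf.image (Function.Injective.injOn (algebraMap K (AlgebraicClosure K)).injective)) ?_
  rintro _ ⟨_, ⟨b, hb, rfl⟩, rfl⟩
  refine ⟨(Fin.cons 1 (fun i => algebraMap K (AlgebraicClosure K) (b i)) :
    Fin (M + 2) → AlgebraicClosure K), isPoint_cons I _ fun G hG => ?_, by simp, ?_⟩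
  · rw [aeval_algMap]
    rw [← hT] at hG
    have := hG b hb
    rw [this, map_zero]
  · change (Fin.cons 1 (fun i => algebraMap K (AlgebraicClosure K) (b i)) :
      Fin (M + 2) → AlgebraicClosure K) (Fin.succ 0) = _
    rw [Fin.cons_succ]

theorem projMap_dominant [Infinite K] (T : Set (Fin (M + 1) → K)) (hT : vanishingIdeal K T = I)
    (hinf : ((fun a : Fin (M + 1) → K => a 0) '' T).Infinite) : (projMap I).IsDominant := by
  intro d G hG h
  have key : ∀ G : MvPolynomial (Fin 2) K, G.IsHomogeneous d →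
      bind₁ (![X 0, X 1] : Fin 2 → MvPolynomial (Fin (M + 2)) K) G ∈ closureIdeal I → G = 0 := by
    intro G hG' h'
    rw [mem_closureIdeal_homog I d _ (bind_homog d G hG'), ← hT] at h'
    have h0 : dehomLine G = 0 := by
      refine Polynomial.eq_zero_of_infinite_isRoot _ (hinf.mono ?_)
      rintro _ ⟨b, hb, rfl⟩
      change (dehomLine G).eval (b 0) = 0
      have h1 := h' b hb
      rw [aeval_dehom, aeval_bind] at h1
      rw [eval_dehomLine]
      exact h1
    exact eq_zero_of_dehomLine d G hG' h0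
  exact Ideal.mem_bot.2 (key G hG h)

theorem value_eq (v : AbsoluteValue K ℝ) (a : Fin (M + 2) → K) (ha : a 0 ≠ 0)
    (hle : ∀ j : Fin (M + 1), v (a j.succ / a 0) ≤ 1) (e : ℕ) (G : MvPolynomial (Fin 2) K)
    (hG : G.IsHomogeneous e) :
    v (aeval a (bind₁ (![X 0, X 1] : Fin 2 → MvPolynomial (Fin (M + 2)) K) G)) /
      (⨆ i : Fin (M + 2), v (a i)) ^ e = v ((dehomLine G).eval (a 1 / a 0)) := by
  have hv0 : 0 < v (a 0) := v.pos ha
  have hsup : (⨆ i : Fin (M + 2), v (a i)) = v (a 0) := by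
    refine le_antisymm (ciSup_le fun i => ?_)
      (le_ciSup (f := fun i : Fin (M + 2) => v (a i)) (Set.finite_range _).bddAbove 0)
    refine Fin.cases le_rfl (fun j => ?_) i
    have h1 := hle j
    rw [map_div₀] at h1
    rwa [div_le_one hv0] at h1
  rw [hsup, aeval_bind, aeval_line_homog e G hG _ _ ha, map_mul, map_pow]
  rw [mul_comm, mul_div_assoc, div_self (pow_ne_zero _ hv0.ne'), mul_one]

theorem isPoint_algMap (a : Fin (M + 2) → K) (ha : (closureVar I).IsPoint a) (h0 : a 0 ≠ 0) :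
    (closureVar I).IsPoint (L := AlgebraicClosure K)
      (fun i : Fin (M + 2) => algebraMap K (AlgebraicClosure K) (a i)) := by
  have ha' := (isPoint_closureVar_def I a).1 ha
  refine (isPoint_closureVar_def I (L := AlgebraicClosure K)
    (fun i : Fin (M + 2) => algebraMap K (AlgebraicClosure K) (a i))).2 ?_
  refine ⟨fun h => h0 ?_, fun F hF => ?_⟩
  · have := congrFun h (0 : Fin (M + 2))
    exact (map_eq_zero (algebraMap K (AlgebraicClosure K))).1 this
  · rw [aeval_algMap, ha'.2 F hF, map_zero]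

theorem mapsInto_of (Z : ClosedSet K 1) (a : Fin (M + 2) → K)
    (ha : (closureVar I).IsPoint a) (h0 : a 0 ≠ 0)
    (hcon : ∀ (e : ℕ) (G : MvPolynomial (Fin 2) K), G.IsHomogeneous e → G ∈ Z.J →
      (dehomLine G).eval (a 1 / a 0) = 0) :
    (projMap I).MapsInto Z
      (fun i : Fin (M + 2) => algebraMap K (AlgebraicClosure K) (a i)) := by
  set a' : Fin (M + 2) → AlgebraicClosure K := fun i => algebraMap K (AlgebraicClosure K) (a i)
    with ha'
  have h2 : (fun i => aeval a' ((projMap I).F i)) =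
      (![a' 0, a' 1] : Fin 2 → AlgebraicClosure K) := by
    funext i
    change aeval a' ((![X 0, X 1] : Fin 2 → MvPolynomial (Fin (M + 2)) K) i) = _
    fin_cases i
    · exact aeval_X _ _
    · exact aeval_X _ _
  refine ⟨isPoint_algMap I a ha h0, projMap I, fun i j => ?_, ⟨⟨?_, ?_⟩, ?_⟩⟩
  · rw [mul_comm, sub_self]; exact Ideal.zero_mem _
  · intro h
    have h1 : a' 0 = 0 := congrFun (h2.symm.trans h) (0 : Fin 2)
    exact h0 ((map_eq_zero (algebraMap K (AlgebraicClosure K))).1 h1)
  · intro Q hQ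
    rw [(Ideal.mem_bot.1 hQ : Q = 0), map_zero]
  · intro Q hQ
    have key : ∀ Q : MvPolynomial (Fin 2) K,
        (∀ d', homogeneousComponent d' Q ∈ Z.J) →
        aeval (![a' 0, a' 1] : Fin 2 → AlgebraicClosure K) Q = 0 := by
      intro Q hQ
      have h4 : (![a' 0, a' 1] : Fin 2 → AlgebraicClosure K) =
          fun i => algebraMap K (AlgebraicClosure K) ((![a 0, a 1] : Fin 2 → K) i) := by
        funext i
        fin_cases i <;> rfl
      rw [h4, aeval_algMap]
      have h5 : aeval (![a 0, a 1] : Fin 2 → K) Q = 0 := by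
        rw [← sum_homogeneousComponent Q, map_sum]
        refine Finset.sum_eq_zero fun d' _ => ?_
        rw [aeval_line_homog d' _ (homogeneousComponent_isHomogeneous d' _) _ _ h0,
          hcon d' _ (homogeneousComponent_isHomogeneous d' Q) (hQ d'), mul_zero]
      rw [h5, map_zero]
    exact (congrArg (fun c : Fin 2 → AlgebraicClosure K =>
      aeval c (Q : MvPolynomial (Fin 2) K)) h2).trans (key Q (Z.homog Q hQ))

end

/-- The main statement of this file. -/
theorem exists_counterexample [Infinite K] (v : AbsoluteValue K ℝ) {M : ℕ}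
    (S : Set (Fin (M + 1) → K)) (E : Set (MvPolynomial (Fin (M + 1)) K))
    (hE : ∀ a, a ∈ S ↔ ∀ G ∈ E, aeval a G = 0)
    (hinf : ((fun a : Fin (M + 1) → K => a 0) '' S).Infinite)
    (hint : ∀ a ∈ S, ∀ i, v (a i) ≤ 1)
    (hna : ∀ H : Polynomial K, H ≠ 0 → ∃ ε > 0,
      {z ∈ (fun a : Fin (M + 1) → K => a 0) '' S | v (H.eval z) < ε}.Finite) :
    ∃ (n m : ℕ) (V : ProjVar K n) (W : ProjVar K m) (f : RatMap V W) (B : ClosedSet K n),
      V.PosDim ∧ W.PosDim ∧ V.DensePoints ∧ f.IsDominant ∧ B.IsProper V ∧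
        ∀ Z : ClosedSet K m, Z.IsProper W → ∀ P : ℕ → Fin (n + 1) → K,
          (∀ k, V.IsPoint (P k) ∧ ¬ B.Mem V (P k) ∧ ¬ f.InPullback Z (P k)) →
            ¬ f.Approaches Z v P := by
  classical
  obtain ⟨T, hTS, hTinf, hTprime⟩ := exists_prime_component S hinf
  set I := vanishingIdeal K T with hI
  refine ⟨M + 1, 1, closureVar I, projLine K, projMap I, hyperplane K M, closureVar_posDim I T hI.symm hTinf,
    projLine_posDim, closureVar_dense I T hI.symm, projMap_dominant I T hI.symm hTinf, ?_, ?_⟩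
  · intro h
    refine X_zero_notMem_closureIdeal I (h ?_)
    intro a ha
    have h1 : aeval (a : Fin (M + 2) → K) (X 0 : MvPolynomial (Fin (M + 2)) K) =
      (a : Fin (M + 2) → K) 0 := aeval_X _ _
    exact h1.trans ha
  intro Z hZ P' hP happ
  obtain ⟨P, hPP⟩ : ∃ P : ℕ → Fin (M + 2) → K, P = P' := ⟨P', rfl⟩
  subst hPP
  -- the coordinates
  have hP0 : ∀ n, P n 0 ≠ 0 := by
    intro n h0
    exact (hP n).2.1 ⟨(hP n).1, fun F hF => hF _ h0⟩
  have hbI : ∀ n, ∀ G ∈ I, aeval (fun i : Fin (M + 1) => P n i.succ / P n 0) G = 0 := fun n =>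
    (isPoint_closureVar_iff I _ (hP0 n)).1 (hP n).1
  have hbS : ∀ n, (fun i : Fin (M + 1) => P n i.succ / P n 0) ∈ S := by
    intro n
    rw [hE]
    intro G hG
    refine hbI n G ?_
    intro a ha
    exact (hE a).1 (hTS ha) G hG
  have htend : ∀ (e : ℕ) (G : MvPolynomial (Fin 2) K), G.IsHomogeneous e → G ∈ Z.J →
      Filter.Tendsto (fun n => v ((dehomLine G).eval (P n 1 / P n 0))) Filter.atTop (nhds 0) := by
    intro e G hG hGZ
    have h1 := happ e (bind₁ (![X 0, X 1] : Fin 2 → MvPolynomial (Fin (M + 2)) K) G)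
      (bind_homog e G hG) (vanishes_bind I Z e G hG hGZ)
    refine h1.congr fun n => ?_
    exact value_eq v (P n) (hP0 n) (fun j => hint _ (hbS n) j) e G hG
  -- a nonzero form in the ideal of `Z`
  obtain ⟨e, G, hG, hGZ, hG0⟩ : ∃ (e : ℕ) (G : MvPolynomial (Fin 2) K), G.IsHomogeneous e ∧
      G ∈ Z.J ∧ G ≠ 0 := by
    obtain ⟨G, hG1, hG2⟩ := SetLike.not_le_iff_exists.1 hZ
    have hG3 : (G : MvPolynomial (Fin 2) K) ≠ 0 := fun h => hG2 (Ideal.mem_bot.2 h)
    by_contra hcon
    push Not at hcon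
    refine hG3 ?_
    have h1 : ∀ d, homogeneousComponent d (G : MvPolynomial (Fin 2) K) ∈ Z.J :=
      fun d => Z.homog G hG1 d
    have h2 : (G : MvPolynomial (Fin 2) K) = ∑ d ∈ Finset.range
      ((G : MvPolynomial (Fin 2) K).totalDegree + 1),
        homogeneousComponent d (G : MvPolynomial (Fin 2) K) :=
      (sum_homogeneousComponent (G : MvPolynomial (Fin 2) K)).symm
    exact h2.trans (Finset.sum_eq_zero fun d _ =>
      hcon d _ (homogeneousComponent_isHomogeneous d (G : MvPolynomial (Fin 2) K)) (h1 d))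
  have hH0 : dehomLine G ≠ 0 := fun h => hG0 (eq_zero_of_dehomLine e G hG h)
  obtain ⟨ε, hε, hfin⟩ := hna _ hH0
  -- eventually the value of the coordinate lies in a finite set
  have hev : ∀ᶠ n in Filter.atTop, P n 1 / P n 0 ∈
      {z ∈ (fun a : Fin (M + 1) → K => a 0) '' S | v ((dehomLine G).eval z) < ε} := by
    have := (htend e G hG hGZ).eventually (gt_mem_nhds hε)
    exact this.mono fun n hn => ⟨⟨_, hbS n, rfl⟩, hn⟩
  -- some value is taken infinitely often
  obtain ⟨z, hz⟩ : ∃ z, ∃ᶠ n in Filter.atTop, P n 1 / P n 0 = z := by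
    by_contra hcon
    simp only [not_exists, Filter.not_frequently] at hcon
    have h1 : ∀ᶠ n in Filter.atTop, ∀ z ∈ {z ∈ (fun a : Fin (M + 1) → K => a 0) '' S |
        v ((dehomLine G).eval z) < ε}, ¬ P n 1 / P n 0 = z := by
      rw [Filter.eventually_all_finite hfin]
      intro z _
      exact hcon z
    obtain ⟨n, hn1, hn2⟩ := (hev.and h1).exists
    exact hn2 _ hn1 rfl
  -- a form of `Z.J` not vanishing at `(1 : z)`
  obtain ⟨n₀, hn₀⟩ := hz.exists
  obtain ⟨e', G', hG', hGZ', hne⟩ : ∃ (e' : ℕ) (G' : MvPolynomial (Fin 2) K),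
      G'.IsHomogeneous e' ∧ G' ∈ Z.J ∧ (dehomLine G').eval z ≠ 0 := by
    by_contra hcon
    push Not at hcon
    refine (hP n₀).2.2 ⟨(hP n₀).1, ?_⟩
    intro d F hF hFv
    have hmaps := mapsInto_of I Z (P n₀) (hP n₀).1 (hP0 n₀) (by
      intro e G hG hGZ
      rw [hn₀]
      exact hcon e G hG hGZ)
    have h8 := hFv _ hmaps
    have h9 := aeval_algMap (L := AlgebraicClosure K) (P n₀) (F : MvPolynomial (Fin (M + 2)) K)
    exact (map_eq_zero (algebraMap K (AlgebraicClosure K))).1 (h9.symm.trans h8)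
  have h1 := (htend e' G' hG' hGZ').eventually (gt_mem_nhds (v.pos hne))
  obtain ⟨n, hn1, hn2⟩ := (hz.and_eventually h1).exists
  rw [hn1] at hn2
  exact lt_irrefl _ hn2

end MP333
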