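import Pool.Agent.Lib.MP_333da9_nt.Sol
import Pool.Agent.Lib.MP_333da9_nt.Exist
import Pool.Agent.Lib.MP_333da9_nt.Transc
import Pool.Agent.Lib.MP_333da9_nt.Wrap3

/-!
# MP_333da9_nt: assembly
-/

set_option autoImplicit false

namespace MP333

variable {p : ℕ} [Fact p.Prime]

open Polynomial

/-- The `t`-adic absolute value of `𝔽_p(t)`. -/
noncomputable def tabs (p : ℕ) [Fact p.Prime] : AbsoluteValue (Kp p) ℝ :=
  (Polynomial.idealX (ZMod p)).adicAbv (K := Kp p) (b := 2) one_lt_two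

theorem tabs_poly_le (a : Rp p) : tabs p (algebraMap (Rp p) (Kp p) a) ≤ 1 :=
  IsDedekindDomain.HeightOneSpectrum.adicAbv_coe_le_one _ _ _

theorem tabs_poly_eq (a : Rp p) (ha : ¬ X ∣ a) : tabs p (algebraMap (Rp p) (Kp p) a) = 1 := by
  refine (IsDedekindDomain.HeightOneSpectrum.adicAbv_coe_eq_one_iff _ _ _).2 ?_
  rw [Polynomial.idealX_span, Ideal.mem_span_singleton]
  exact ha

theorem tabs_X_lt : tabs p (algebraMap (Rp p) (Kp p) X) < 1 := by
  refine (IsDedekindDomain.HeightOneSpectrum.adicAbv_coe_lt_one_iff _ _ _).2 ?_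
  rw [Polynomial.idealX_span, Ideal.mem_span_singleton]

theorem tabs_X_pos : 0 < tabs p (algebraMap (Rp p) (Kp p) X) := by
  refine (tabs p).pos ?_
  rw [Ne, map_eq_zero_iff _ (IsFractionRing.injective (Rp p) (Kp p))]
  exact Polynomial.X_ne_zero

theorem tabs_nontrivial : (tabs p).IsNontrivial := by
  refine ⟨algebraMap (Rp p) (Kp p) X, ?_, tabs_X_lt.ne⟩
  rw [Ne, map_eq_zero_iff _ (IsFractionRing.injective (Rp p) (Kp p))]
  exact Polynomial.X_ne_zero

theorem tabs_le_of_pole (f : Kp p) (hf : pole (X : Rp p) f = 0) : tabs p f ≤ 1 := by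
  obtain ⟨a, b, hb, h⟩ := (poleLe_iff Polynomial.irreducible_X 0 f).2 hf.le
  rw [pow_zero, one_mul] at h
  have h1 := congrArg (tabs p) h
  rw [map_mul, tabs_poly_eq b hb, mul_one] at h1
  rw [h1]
  exact tabs_poly_le a

theorem tabs_ge (q : Rp p) (N : ℕ) (hq : ¬ X ^ (N + 1) ∣ q) :
    tabs p (algebraMap (Rp p) (Kp p) X) ^ N ≤ tabs p (algebraMap (Rp p) (Kp p) q) := by
  have hq0 : q ≠ 0 := by rintro rfl; exact hq (dvd_zero _)
  obtain ⟨q', hq', hnd⟩ := Polynomial.exists_eq_pow_rootMultiplicity_mul_and_not_dvd q hq0 0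
  rw [C_0, sub_zero] at hq' hnd
  have hk : q.rootMultiplicity 0 ≤ N := by
    by_contra hcon
    apply hq
    rw [hq']
    exact (pow_dvd_pow X (by omega)).mul_right _
  rw [hq', map_mul, map_mul, map_pow, map_pow, tabs_poly_eq q' hnd, mul_one]
  exact pow_le_pow_of_le_one tabs_X_pos.le tabs_X_lt.le hk

theorem eval_zeta_ge (hp : 3 ≤ p) (H : Polynomial (Kp p)) (hH : H ≠ 0) :
    ∃ ε > 0, ∃ s₀ : ℕ, ∀ s ≥ s₀, ε ≤ tabs p (H.eval (algebraMap (Rp p) (Kp p) (zeta p s))) := by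
  obtain ⟨d, hdM, hd⟩ := IsLocalization.integerNormalization_spec (nonZeroDivisors (Rp p)) H
  set H₁ := IsLocalization.integerNormalization (nonZeroDivisors (Rp p)) H with hH₁
  have hd0 : (d : Rp p) ≠ 0 := nonZeroDivisors.ne_zero hdM
  have hinj : Function.Injective (algebraMap (Rp p) (Kp p)) := IsFractionRing.injective _ _
  have hd0' : algebraMap (Rp p) (Kp p) d ≠ 0 := by
    rw [Ne, map_eq_zero_iff _ hinj]; exact hd0
  have hH₁0 : H₁ ≠ 0 := by
    intro h0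
    rw [h0, Polynomial.map_zero] at hd
    have h1 : (d : Rp p) • H = C (algebraMap (Rp p) (Kp p) d) * H := by
      rw [← Polynomial.smul_eq_C_mul, algebraMap_smul]
    rw [h1] at hd
    rcases mul_eq_zero.1 hd.symm with h2 | h2
    · exact hd0' (Polynomial.C_eq_zero.1 h2)
    · exact hH h2
  obtain ⟨N, s₀, hN⟩ := transc hp H₁ hH₁0
  refine ⟨tabs p (algebraMap (Rp p) (Kp p) X) ^ N, pow_pos tabs_X_pos N, s₀, fun s hs => ?_⟩
  have h1 := tabs_ge _ N (hN s hs)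
  have h2 : algebraMap (Rp p) (Kp p) (H₁.eval (zeta p s)) =
      algebraMap (Rp p) (Kp p) d * H.eval (algebraMap (Rp p) (Kp p) (zeta p s)) := by
    have h3 := congrArg (fun Q : Polynomial (Kp p) =>
      Q.eval (algebraMap (Rp p) (Kp p) (zeta p s))) hd
    simp only [Polynomial.eval_map, Polynomial.eval₂_at_apply] at h3
    rw [h3]
    have h4 : (d : Rp p) • H = C (algebraMap (Rp p) (Kp p) d) * H := by
      rw [← Polynomial.smul_eq_C_mul, algebraMap_smul]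
    rw [h4, Polynomial.eval_mul, Polynomial.eval_C]
  rw [h2, map_mul] at h1
  refine h1.trans ?_
  exact mul_le_of_le_one_left ((tabs p).nonneg _) (tabs_poly_le _)

/-! ### The system as a system of polynomial equations in 14 unknowns -/

/-- The solutions, as vectors. -/
def solSet (p : ℕ) [Fact p.Prime] : Set (Fin 14 → Kp p) :=
  {a | Sys p (a 0) (a 1) (a 2) (a 3) (a 4) (a 5) (a 6) (a 7) (a 8) (a 9) (a 10) (a 11) (a 12) (a 13)}

/-- The equations. -/
noncomputable def eqs (p : ℕ) [Fact p.Prime] : Fin 10 → MvPolynomial (Fin 14) (Kp p) :=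
  let T : MvPolynomial (Fin 14) (Kp p) := MvPolynomial.C RatFunc.X
  let Y : Fin 14 → MvPolynomial (Fin 14) (Kp p) := MvPolynomial.X
  ![Y 2 - T - (Y 3 ^ p - Y 3),
    T - Y 2 - (Y 2 + 1) * (T + 1) * (Y 4 ^ p - Y 4),
    Y 5 ^ p - Y 5,
    Y 0 - (Y 5 * T + (Y 6 ^ p - Y 6)),
    Y 1 - (Y 5 * T ^ 2 + (Y 7 ^ p - Y 7)),
    (Y 2 ^ p) ^ 2 * Y 0 - T * Y 1 - (Y 8 ^ p - Y 8),
    Y 2 ^ p * Y 1 - T ^ 2 * Y 0 - (Y 9 ^ p - Y 9),
    ((Y 2 ^ p) ^ p) ^ 2 * Y 0 - T * Y 1 ^ p - (Y 10 ^ p - Y 10),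
    (Y 2 ^ p) ^ p * Y 1 - T ^ 2 * Y 0 ^ p - (Y 11 ^ p - Y 11),
    Y 0 ^ p * Y 1 - T * Y 1 + T * (Y 2 ^ p) ^ 2 - T ^ 2 * Y 12 ^ p - (Y 13 ^ p - Y 13)]

theorem mem_solSet_iff (a : Fin 14 → Kp p) :
    a ∈ solSet p ↔ ∀ G ∈ Set.range (eqs p), MvPolynomial.aeval a G = 0 := by
  have key : (∀ G ∈ Set.range (eqs p), MvPolynomial.aeval a G = 0) ↔
      ∀ i, MvPolynomial.aeval a (eqs p i) = 0 := by
    constructor
    · intro h i; exact h _ ⟨i, rfl⟩
    · rintro h _ ⟨i, rfl⟩; exact h i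
  rw [key]
  have hC : ∀ c : Kp p, MvPolynomial.aeval a (MvPolynomial.C c : MvPolynomial (Fin 14) (Kp p)) = c :=
    fun c => MvPolynomial.aeval_C _ _
  constructor
  · intro h i
    obtain ⟨e1, e2, e3, e4, e5, e6, e7, e8, e9, e10⟩ := h
    fin_cases i
    · simp [eqs, e1]
    · simp [eqs, e2]
    · simp [eqs, e3]
    · simpa [eqs, hC, sub_eq_zero] using e4
    · simpa [eqs, hC, sub_eq_zero] using e5
    · simp [eqs, e6]
    · simp [eqs, e7]
    · simp [eqs, e8]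
    · simp [eqs, e9]
    · simp [eqs, e10]
  · intro h
    refine ⟨?_, ?_, ?_, ?_, ?_, ?_, ?_, ?_, ?_, ?_⟩
    · have := h 0; simpa [eqs, hC, sub_eq_zero] using this
    · have := h 1; simpa [eqs, hC, sub_eq_zero] using this
    · have := h 2; simpa [eqs, hC, sub_eq_zero] using this
    · have := h 3; simpa [eqs, hC, sub_eq_zero] using this
    · have := h 4; simpa [eqs, hC, sub_eq_zero] using this
    · have := h 5; simpa [eqs, hC, sub_eq_zero] using this
    · have := h 6; simpa [eqs, hC, sub_eq_zero] using this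
    · have := h 7; simpa [eqs, hC, sub_eq_zero] using this
    · have := h 8; simpa [eqs, hC, sub_eq_zero] using this
    · have := h 9; simpa [eqs, hC, sub_eq_zero] using this

theorem zeta_mem_image (hp : 5 ≤ p) (k : ℕ) :
    algebraMap (Rp p) (Kp p) (zeta p (k + 1)) ∈ (fun a : Fin 14 → Kp p => a 0) '' solSet p := by
  obtain ⟨y, x, v₁, v₂, c, u, w, r₁, r₂, r₃, r₄, h, r₅, S⟩ := exists_sys hp k
  exact ⟨![algebraMap (Rp p) (Kp p) (zeta p (k + 1)), y, x, v₁, v₂, c, u, w, r₁, r₂, r₃, r₄, h, r₅],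
    S, rfl⟩

theorem image_infinite (hp : 5 ≤ p) :
    ((fun a : Fin 14 → Kp p => a 0) '' solSet p).Infinite := by
  classical
  intro hfin
  obtain ⟨ε, hε, s₀, hs₀⟩ := eval_zeta_ge (p := p) (by omega)
    (∏ z ∈ hfin.toFinset, (X - C z)) (Finset.prod_ne_zero_iff.2 fun z _ => X_sub_C_ne_zero z)
  have h1 := hs₀ (s₀ + 1) (by omega)
  rw [Polynomial.eval_prod] at h1
  rw [Finset.prod_eq_zero (hfin.mem_toFinset.2 (zeta_mem_image hp s₀)) (by simp), map_zero] at h1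
  exact absurd h1 (not_le.2 hε)

theorem infinite_Kp : Infinite (Kp p) :=
  Infinite.of_injective (algebraMap (Rp p) (Kp p)) (IsFractionRing.injective _ _)

theorem final (hp : 5 ≤ p) :
    ∃ (n m : ℕ) (V : ProjVar (Kp p) n) (W : ProjVar (Kp p) m) (f : RatMap V W)
      (B : ClosedSet (Kp p) n),
      V.PosDim ∧ W.PosDim ∧ V.DensePoints ∧ f.IsDominant ∧ B.IsProper V ∧
        ∀ Z : ClosedSet (Kp p) m, Z.IsProper W → ∀ P : ℕ → Fin (n + 1) → Kp p,
          (∀ k, V.IsPoint (P k) ∧ ¬ B.Mem V (P k) ∧ ¬ f.InPullback Z (P k)) →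
            ¬ f.Approaches Z (tabs p) P := by
  classical
  have := infinite_Kp (p := p)
  refine exists_counterexample (M := 13) (tabs p) (solSet p) (Set.range (eqs p)) mem_solSet_iff
    (image_infinite hp) ?_ ?_
  · intro a ha i
    have h1 := (sys_sol hp ha).2
    refine tabs_le_of_pole _ (h1 (a i) ?_)
    fin_cases i <;> simp
  · intro H hH
    obtain ⟨ε, hε, s₀, hs₀⟩ := eval_zeta_ge (p := p) (by omega) H hH
    refine ⟨ε, hε, ?_⟩
    refine ((Finset.range s₀).finite_toSet.image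
      (fun s => algebraMap (Rp p) (Kp p) (zeta p s))).subset ?_
    rintro _ ⟨⟨a, ha, rfl⟩, hlt⟩
    obtain ⟨s, hs⟩ := (sys_sol hp ha).1
    refine ⟨s, ?_, hs.symm⟩
    rw [Finset.mem_coe, Finset.mem_range]
    by_contra hcon
    have h2 := hs₀ s (by omega)
    rw [← hs] at h2
    exact absurd hlt (not_lt.2 h2)

end MP333
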