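import Pool.Agent.Lib.MP_333da9_nt.Pole

/-!
# The unknowns `u`, `w` are polynomials, and degree bounds

Paper proof.  Put `T = x ^ p` (`x` a polynomial), `z = c t + u ^ p - u`, `y = c t ^ 2 + w ^ p - w`.
`e6` reads, with `ρ = r₁ - x ^ 2 u`,
  `t w ^ p + ρ ^ p = ρ + x ^ 2 u - T ^ 2 u + t w + c T ^ 2 t - c t ^ 3`            (I)
and `e7` reads, with `σ = r₂ - x w`,
  `t ^ 2 u ^ p + σ ^ p = σ + x w - T w + t ^ 2 u + c T t ^ 2 - c t ^ 3`.            (II)
At an irreducible `g` let `m, n, q, q'` be the pole orders of `u, w, ρ, σ`.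
(I) and `pole_key1`: if `n ≥ 1` then `p n - 1 ≤ max q (max m n)`; moreover
`p q = pole (ρ ^ p) ≤ max q (max m (p n))`, so `q ≤ max m n`; hence `p n - 1 ≤ m`.
(II) and `pole_key2`: if `m ≥ 1` then `p m - 2 ≤ max q' (max m n)`, `p q' ≤ max q' (max (p m) n)`,
so `q' ≤ max m n` and `p m - 2 ≤ n`.  For `p ≥ 5` both together are impossible unless `m = n = 0`.

Degrees: the same with the polynomial identities (I), (II): `natDegree (t W ^ p + ρ ^ p) ≥ p n + 1`
when `W ≠ 0` because its derivative is `W ^ p`.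
-/

set_option autoImplicit false

namespace MP333

open Polynomial

variable {p : ℕ} [Fact p.Prime]

/-- Elements with `c ^ p = c` are constants of `𝔽_p`. -/
theorem exists_const_of_pow_eq (c : Kp p) (hc : c ^ p = c) : ∃ c₀ : ZMod p, c = RatFunc.C c₀ := by
  have hp2 : 2 ≤ p := (Fact.out : p.Prime).two_le
  obtain ⟨b, hb, hb2⟩ := exists_eq_algebraMap_of_as c 0 (by rw [hc, sub_self, map_zero])
  have h1 : b ^ p = b := sub_eq_zero.1 hb2
  have h2 : p * b.natDegree = b.natDegree := by
    rw [← natDegree_pow, h1]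
  have h3 : b.natDegree = 0 := by
    by_contra h
    have h4 : 0 < b.natDegree := Nat.pos_of_ne_zero h
    nlinarith
  refine ⟨b.coeff 0, ?_⟩
  rw [hb, ← RatFunc.algebraMap_C, ← eq_C_of_natDegree_eq_zero h3]

theorem int_pole_poly_mul {g : Rp p} (hg : Irreducible g) (a : Rp p) (f : Kp p) :
    pole g (algebraMap (Rp p) (Kp p) a * f) ≤ pole g f := by
  refine (pole_mul_le hg _ _).trans ?_
  rw [pole_algebraMap hg, zero_add]

/-- pole of `ρ + A u + B w + E` -/
theorem int_pole_rhs {g : Rp p} (hg : Irreducible g) (A B E : Rp p) (ρ u w : Kp p) :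
    pole g (ρ + algebraMap (Rp p) (Kp p) A * u + algebraMap (Rp p) (Kp p) B * w +
      algebraMap (Rp p) (Kp p) E) ≤ max (pole g ρ) (max (pole g u) (pole g w)) := by
  have h1 := pole_add_le hg (ρ + algebraMap (Rp p) (Kp p) A * u + algebraMap (Rp p) (Kp p) B * w)
    (algebraMap (Rp p) (Kp p) E)
  have h2 := pole_add_le hg (ρ + algebraMap (Rp p) (Kp p) A * u)
    (algebraMap (Rp p) (Kp p) B * w)
  have h3 := pole_add_le hg ρ (algebraMap (Rp p) (Kp p) A * u)
  have h4 := int_pole_poly_mul hg A u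
  have h5 := int_pole_poly_mul hg B w
  rw [pole_algebraMap hg] at h1
  omega

theorem exists_polys (hp : 5 ≤ p) {z y x c u w r₁ r₂ : Kp p} (x₀ : Rp p)
    (hx : x = algebraMap (Rp p) (Kp p) x₀) (c₀ : ZMod p) (hc : c = RatFunc.C c₀)
    (e4 : z = c * RatFunc.X + (u ^ p - u)) (e5 : y = c * RatFunc.X ^ 2 + (w ^ p - w))
    (e6 : (x ^ p) ^ 2 * z - RatFunc.X * y = r₁ ^ p - r₁)
    (e7 : x ^ p * y - RatFunc.X ^ 2 * z = r₂ ^ p - r₂) :
    ∃ U W : Rp p, u = algebraMap (Rp p) (Kp p) U ∧ w = algebraMap (Rp p) (Kp p) W := by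
  have hchar : CharP (Kp p) p := inferInstance
  set ρ := r₁ - x ^ 2 * u with hρ
  set σ := r₂ - x * w with hσ
  have hr1 : r₁ = ρ + x ^ 2 * u := by rw [hρ]; ring
  have hr2 : r₂ = σ + x * w := by rw [hσ]; ring
  have I1 : RatFunc.X * w ^ p + ρ ^ p = ρ + algebraMap (Rp p) (Kp p) (x₀ ^ 2 - (x₀ ^ p) ^ 2) * u +
      algebraMap (Rp p) (Kp p) X * w +
      algebraMap (Rp p) (Kp p) (C c₀ * (x₀ ^ p) ^ 2 * X - C c₀ * X ^ 3) := by
    simp only [map_sub, map_mul, map_pow, RatFunc.algebraMap_X, RatFunc.algebraMap_C, ← hx, ← hc]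
    have h1 : r₁ ^ p = ρ ^ p + (x ^ p) ^ 2 * u ^ p := by
      rw [hr1, add_pow_char, mul_pow]
      ring
    rw [h1, e4, e5] at e6
    have h2 : r₁ = ρ + x ^ 2 * u := hr1
    linear_combination (-1 : Kp p) * e6 - h2
  have I2 : RatFunc.X ^ 2 * u ^ p + σ ^ p = σ + algebraMap (Rp p) (Kp p) (X ^ 2) * u +
      algebraMap (Rp p) (Kp p) (x₀ - x₀ ^ p) * w +
      algebraMap (Rp p) (Kp p) (C c₀ * x₀ ^ p * X ^ 2 - C c₀ * X ^ 3) := by
    simp only [map_sub, map_mul, map_pow, RatFunc.algebraMap_X, RatFunc.algebraMap_C, ← hx, ← hc]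
    have h1 : r₂ ^ p = σ ^ p + x ^ p * w ^ p := by
      rw [hr2, add_pow_char, mul_pow]
    rw [h1, e4, e5] at e7
    have h2 : r₂ = σ + x * w := hr2
    linear_combination (-1 : Kp p) * e7 - h2
  have key : ∀ g : Rp p, Irreducible g → pole g u = 0 ∧ pole g w = 0 := by
    intro g hg
    set m := pole g u with hm
    set n := pole g w with hn
    set q := pole g ρ with hq
    set q' := pole g σ with hq'
    -- bounds of the right-hand sides
    have b1 : pole g (RatFunc.X * w ^ p + ρ ^ p) ≤ max q (max m n) := by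
      rw [I1]
      exact int_pole_rhs hg _ _ _ _ _ _
    have b2 : pole g (RatFunc.X ^ 2 * u ^ p + σ ^ p) ≤ max q' (max m n) := by
      rw [I2]
      exact int_pole_rhs hg _ _ _ _ _ _
    -- bounds for `ρ`, `σ`
    have hXw : pole g (RatFunc.X * w ^ p) ≤ p * n := by
      rw [← RatFunc.algebraMap_X]
      refine (int_pole_poly_mul hg _ _).trans ?_
      rw [pole_pow hg]
    have hXu : pole g (RatFunc.X ^ 2 * u ^ p) ≤ p * m := by
      rw [← RatFunc.algebraMap_X, ← map_pow]
      refine (int_pole_poly_mul hg _ _).trans ?_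
      rw [pole_pow hg]
    have c1 : p * q ≤ max (max q (max m n)) (p * n) := by
      have h1 : ρ ^ p = (RatFunc.X * w ^ p + ρ ^ p) - RatFunc.X * w ^ p := by ring
      have h2 := pole_sub_le hg (RatFunc.X * w ^ p + ρ ^ p) (RatFunc.X * w ^ p)
      rw [← h1, pole_pow hg] at h2
      exact h2.trans (max_le_max b1 hXw)
    have c2 : p * q' ≤ max (max q' (max m n)) (p * m) := by
      have h1 : σ ^ p = (RatFunc.X ^ 2 * u ^ p + σ ^ p) - RatFunc.X ^ 2 * u ^ p := by ring
      have h2 := pole_sub_le hg (RatFunc.X ^ 2 * u ^ p + σ ^ p) (RatFunc.X ^ 2 * u ^ p)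
      rw [← h1, pole_pow hg] at h2
      exact h2.trans (max_le_max b2 hXu)
    have d1 : q ≤ max m n := by
      by_contra hcon
      push Not at hcon
      have hqm : m < q := lt_of_le_of_lt (le_max_left _ _) hcon
      have hqn : n < q := lt_of_le_of_lt (le_max_right _ _) hcon
      rcases le_max_iff.1 c1 with h | h
      · have : max q (max m n) = q := max_eq_left hcon.le
        rw [this] at h
        nlinarith
      · nlinarith
    have d2 : q' ≤ max m n := by
      by_contra hcon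
      push Not at hcon
      have hqm : m < q' := lt_of_le_of_lt (le_max_left _ _) hcon
      have hqn : n < q' := lt_of_le_of_lt (le_max_right _ _) hcon
      rcases le_max_iff.1 c2 with h | h
      · have : max q' (max m n) = q' := max_eq_left hcon.le
        rw [this] at h
        nlinarith
      · nlinarith
    have f1 : 1 ≤ n → p * n ≤ m + 1 := by
      intro h
      have h1 := pole_key1 hg w ρ h
      have h2 : p * n ≤ max m n + 1 := h1.trans (by omega)
      rcases le_total m n with h3 | h3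
      · rw [max_eq_right h3] at h2
        nlinarith
      · rwa [max_eq_left h3] at h2
    have f2 : 1 ≤ m → p * m ≤ n + 2 := by
      intro h
      have h1 := pole_key2 (by omega) hg u σ h
      have h2 : p * m ≤ max m n + 2 := h1.trans (by omega)
      rcases le_total m n with h3 | h3
      · rwa [max_eq_right h3] at h2
      · rw [max_eq_left h3] at h2
        nlinarith
    have hn0 : n = 0 := by
      by_contra hcon
      have h1 : 1 ≤ n := Nat.one_le_iff_ne_zero.2 hcon
      have h2 := f1 h1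
      have h3 : 5 * n ≤ m + 1 := (Nat.mul_le_mul_right n hp).trans h2
      have h4 := f2 (by omega)
      have h5 : 5 * m ≤ n + 2 := (Nat.mul_le_mul_right m hp).trans h4
      omega
    have hm0 : m = 0 := by
      by_contra hcon
      have h1 : 1 ≤ m := Nat.one_le_iff_ne_zero.2 hcon
      have h4 := f2 h1
      have h5 : 5 * m ≤ n + 2 := (Nat.mul_le_mul_right m hp).trans h4
      omega
    exact ⟨hm0, hn0⟩
  obtain ⟨U, hU⟩ := exists_eq_algebraMap_of_pole u fun g hg => (key g hg).1
  obtain ⟨W, hW⟩ := exists_eq_algebraMap_of_pole w fun g hg => (key g hg).2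
  exact ⟨U, W, hU, hW⟩

end MP333
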