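import Pool.Agent.Lib.MP_333da9_nt.Defs

/-!
# Pheidas' lemma: `x - t ∈ ℘(K)` and `1/(x+1) - 1/(t+1) ∈ ℘(K)` force `x = t ^ (p ^ k)`

Proof by comparing denominators of fractions in lowest terms.
With `s = t + 1`, `x + 1 = A / B`: the first equation gives `B = b ^ p`, the second one gives
`s ∣ A` and `A = a ^ p` or `A = s * a ^ p`.  The first case is an induction, in the second
one the first equation (derivatives, then degrees) gives `a = b`.
-/

set_option autoImplicit false

namespace MP333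

open Polynomial

variable {p : ℕ} [Fact p.Prime]

theorem phe_charP : CharP (Kp p) p :=
  charP_of_injective_algebraMap (algebraMap (ZMod p) (Kp p)).injective p

/-- Two fractions in lowest terms, one of them with denominator `e ^ p`. -/
theorem phe_lowest {P B Q e : Rp p} (h : P * e ^ p = Q * B) (h1 : IsCoprime P B)
    (h2 : IsCoprime Q (e ^ p)) : ∃ u : ZMod p, u ≠ 0 ∧ B = C u * e ^ p := by
  have hd1 : B ∣ e ^ p := h1.symm.dvd_of_dvd_mul_left ⟨Q, by rw [h]; ring⟩
  have hd2 : e ^ p ∣ B := h2.symm.dvd_of_dvd_mul_left ⟨P, by rw [← h]; ring⟩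
  obtain ⟨w, hw⟩ := associated_of_dvd_dvd hd2 hd1
  obtain ⟨u, hu, huw⟩ := Polynomial.isUnit_iff.mp w.isUnit
  refine ⟨u, hu.ne_zero, ?_⟩
  rw [← hw, ← huw]; ring

theorem phe_C_mul_pow (u : ZMod p) (e : Rp p) : C u * e ^ p = (C u * e) ^ p := by
  rw [mul_pow, ← C_pow, ZMod.pow_card]

/-- `c ^ p - c e ^ (p-1)` is prime to `e ^ p` if `c` is prime to `e`. -/
theorem phe_cop {c e : Rp p} (h : IsCoprime c e) :
    IsCoprime (c ^ p - c * e ^ (p - 1)) (e ^ p) := by
  have hp : 2 ≤ p := (Fact.out : p.Prime).two_le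
  obtain ⟨m, rfl⟩ : ∃ m, p = m + 2 := ⟨p - 2, by omega⟩
  apply IsCoprime.pow_right
  have h1 : c ^ (m + 2) - c * e ^ (m + 2 - 1) = c ^ (m + 2) + e * (-(c * e ^ m)) := by
    rw [show m + 2 - 1 = m + 1 from rfl]; ring
  rw [h1]
  exact IsCoprime.add_mul_left_left h.pow_left _

/-- clearing denominators in the first equation -/
theorem phe_clear1 {A B s : Rp p} (hB : B ≠ 0) {v : Kp p}
    (h : algebraMap (Rp p) (Kp p) A / algebraMap (Rp p) (Kp p) B - algebraMap (Rp p) (Kp p) s
      = v ^ p - v) :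
    (A - s * B) * v.denom ^ p = (v.num ^ p - v.num * v.denom ^ (p - 1)) * B := by
  have hp : 2 ≤ p := (Fact.out : p.Prime).two_le
  have hB' : algebraMap (Rp p) (Kp p) B ≠ 0 := RatFunc.algebraMap_ne_zero hB
  have hE' : algebraMap (Rp p) (Kp p) v.denom ≠ 0 := RatFunc.algebraMap_ne_zero v.denom_ne_zero
  have hv : v = algebraMap (Rp p) (Kp p) v.num / algebraMap (Rp p) (Kp p) v.denom :=
    (RatFunc.num_div_denom v).symm
  apply RatFunc.algebraMap_injective (ZMod p)
  simp only [map_mul, map_sub, map_pow]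
  set a := algebraMap (Rp p) (Kp p) A
  set b := algebraMap (Rp p) (Kp p) B
  set c := algebraMap (Rp p) (Kp p) v.num
  set e := algebraMap (Rp p) (Kp p) v.denom
  set σ := algebraMap (Rp p) (Kp p) s
  have hpow : e ^ p = e ^ (p - 1) * e := by
    rw [← pow_succ]; congr 1; omega
  have h1 : a - σ * b = (v ^ p - v) * b := by
    rw [← h]; field_simp
  rw [h1, hv, div_pow]
  have h2 : c ^ p / e ^ p * e ^ p = c ^ p := div_mul_cancel₀ _ (pow_ne_zero _ hE')
  have h3 : c / e * e ^ p = c * e ^ (p - 1) := by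
    rw [hpow]; field_simp
  calc (c ^ p / e ^ p - c / e) * b * e ^ p
      = (c ^ p / e ^ p * e ^ p - c / e * e ^ p) * b := by ring
    _ = (c ^ p - c * e ^ (p - 1)) * b := by rw [h2, h3]

/-- clearing denominators in the second equation -/
theorem phe_clear2 {A B s : Rp p} (hB : B ≠ 0) {v : Kp p}
    (h : algebraMap (Rp p) (Kp p) s - algebraMap (Rp p) (Kp p) A / algebraMap (Rp p) (Kp p) B
      = algebraMap (Rp p) (Kp p) A / algebraMap (Rp p) (Kp p) B * algebraMap (Rp p) (Kp p) s *
        (v ^ p - v)) :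
    (s * B - A) * v.denom ^ p = (v.num ^ p - v.num * v.denom ^ (p - 1)) * (s * A) := by
  have hp : 2 ≤ p := (Fact.out : p.Prime).two_le
  have hB' : algebraMap (Rp p) (Kp p) B ≠ 0 := RatFunc.algebraMap_ne_zero hB
  have hE' : algebraMap (Rp p) (Kp p) v.denom ≠ 0 := RatFunc.algebraMap_ne_zero v.denom_ne_zero
  have hv : v = algebraMap (Rp p) (Kp p) v.num / algebraMap (Rp p) (Kp p) v.denom :=
    (RatFunc.num_div_denom v).symm
  apply RatFunc.algebraMap_injective (ZMod p)
  simp only [map_mul, map_sub, map_pow]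
  set a := algebraMap (Rp p) (Kp p) A
  set b := algebraMap (Rp p) (Kp p) B
  set c := algebraMap (Rp p) (Kp p) v.num
  set e := algebraMap (Rp p) (Kp p) v.denom
  set σ := algebraMap (Rp p) (Kp p) s
  have hpow : e ^ p = e ^ (p - 1) * e := by
    rw [← pow_succ]; congr 1; omega
  have h1 : σ * b - a = (v ^ p - v) * (σ * a) := by
    have h4 : (σ - a / b) * b = a / b * σ * (v ^ p - v) * b := by rw [h]
    have h5 : (σ - a / b) * b = σ * b - a := by field_simp
    have h6 : a / b * σ * (v ^ p - v) * b = (v ^ p - v) * (σ * a) := by field_simp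
    rw [← h5, h4, h6]
  rw [h1, hv, div_pow]
  have h2 : c ^ p / e ^ p * e ^ p = c ^ p := div_mul_cancel₀ _ (pow_ne_zero _ hE')
  have h3 : c / e * e ^ p = c * e ^ (p - 1) := by
    rw [hpow]; field_simp
  calc (c ^ p / e ^ p - c / e) * (σ * a) * e ^ p
      = (c ^ p / e ^ p * e ^ p - c / e * e ^ p) * (σ * a) := by ring
    _ = (c ^ p - c * e ^ (p - 1)) * (σ * a) := by rw [h2, h3]

/-- The last case: `s (a - b) ^ p = u (c ^ p - c e ^ (p-1))`, `b = u e`, `s' = 1`, forces `a = b`. -/
theorem phe_case2 (hp : 3 ≤ p) {s n c e : Rp p} {u : ZMod p} (hu : u ≠ 0)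
    (hs : derivative s = 1) (hs1 : s.natDegree = 1) (he : e ≠ 0)
    (hne : IsCoprime n e) (h : s * n ^ p = C u * (c ^ p - c * e ^ (p - 1))) : n = 0 := by
  have hC : ∀ q : Rp p, derivative (q ^ p) = 0 := by
    intro q
    rw [derivative_pow]
    simp
  -- derivative
  have h1 : n ^ p = e ^ (p - 2) * (C u * (c * derivative e - derivative c * e)) := by
    have h2 := congrArg derivative h
    rw [derivative_mul, hs, one_mul, hC, mul_zero, add_zero] at h2
    rw [h2, derivative_C_mul, derivative_sub, hC, zero_sub, derivative_mul, derivative_pow]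
    have h3 : ((p - 1 : ℕ) : ZMod p) = -1 := by
      rw [Nat.cast_sub (by omega)]; simp
    have h4 : p - 1 - 1 = p - 2 := by omega
    have h5 : e ^ (p - 1) = e ^ (p - 2) * e := by
      rw [← pow_succ]; congr 1; omega
    rw [h4, h5, h3]
    simp only [C_neg, C_1]
    ring
  have h2 : IsUnit (e ^ (p - 2)) := by
    have h3 : IsCoprime (n ^ p) (e ^ (p - 2)) := hne.pow
    exact h3.isUnit_of_dvd' ⟨_, h1⟩ dvd_rfl
  have h3 : IsUnit e := (isUnit_pow_iff (by omega)).mp h2
  have he0 : e.natDegree = 0 := natDegree_eq_zero_of_isUnit h3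
  by_contra hn
  have hs0 : s ≠ 0 := by
    rintro rfl; simp at hs1
  have hl : (s * n ^ p).natDegree = 1 + p * n.natDegree := by
    rw [natDegree_mul hs0 (pow_ne_zero _ hn), natDegree_pow, hs1]
  have hr : (C u * (c ^ p - c * e ^ (p - 1))).natDegree = p * c.natDegree := by
    rw [natDegree_C_mul hu]
    rcases Nat.eq_zero_or_pos c.natDegree with hc | hc
    · rw [hc, mul_zero]
      apply Nat.le_zero.mp
      refine (natDegree_sub_le _ _).trans ?_
      rw [natDegree_pow, hc, mul_zero]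
      refine max_le le_rfl ?_
      refine natDegree_mul_le.trans ?_
      rw [hc, natDegree_pow, he0, mul_zero, add_zero]
    · have hlt : (c * e ^ (p - 1)).natDegree < (c ^ p).natDegree := by
        rw [natDegree_pow]
        refine lt_of_le_of_lt natDegree_mul_le ?_
        rw [natDegree_pow, he0, mul_zero, add_zero]
        nlinarith
      rw [natDegree_sub_eq_left_of_natDegree_lt hlt, natDegree_pow]
  rw [h, hr] at hl
  have h5 : p ∣ 1 := by
    have : p * c.natDegree - p * n.natDegree = 1 := by omega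
    rw [← this, ← Nat.mul_sub]
    exact dvd_mul_right _ _
  have := Nat.le_of_dvd one_pos h5
  omega

theorem phe_main (hp : 3 ≤ p) {s : Rp p} (hs : derivative s = 1) (hs1 : s.natDegree = 1)
    (hsi : Irreducible s) :
    ∀ N : ℕ, ∀ A B : Rp p, B ≠ 0 → IsCoprime A B → A.natDegree + B.natDegree ≤ N →
      ∀ v₁ v₂ : Kp p,
      algebraMap (Rp p) (Kp p) A / algebraMap (Rp p) (Kp p) B - algebraMap (Rp p) (Kp p) s
        = v₁ ^ p - v₁ →
      algebraMap (Rp p) (Kp p) s - algebraMap (Rp p) (Kp p) A / algebraMap (Rp p) (Kp p) B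
        = algebraMap (Rp p) (Kp p) A / algebraMap (Rp p) (Kp p) B * algebraMap (Rp p) (Kp p) s *
          (v₂ ^ p - v₂) →
      ∃ k : ℕ, algebraMap (Rp p) (Kp p) A / algebraMap (Rp p) (Kp p) B =
        algebraMap (Rp p) (Kp p) s ^ (p ^ k) := by
  have : CharP (Kp p) p := phe_charP
  have hp0 : p ≠ 0 := by omega
  intro N
  induction N using Nat.strong_induction_on with
  | _ N ih =>
  intro A B hB hAB hN v₁ v₂ h1 h2
  have hs0 : s ≠ 0 := hsi.ne_zero
  have hc1 := phe_clear1 hB h1
  have hc2 := phe_clear2 hB h2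
  have hcv1 : IsCoprime v₁.num v₁.denom := RatFunc.isCoprime_num_denom v₁
  have hcv2 : IsCoprime v₂.num v₂.denom := RatFunc.isCoprime_num_denom v₂
  have hE1 : v₁.denom ≠ 0 := v₁.denom_ne_zero
  have hE2 : v₂.denom ≠ 0 := v₂.denom_ne_zero
  set c1 := v₁.num
  set e1 := v₁.denom
  set c2 := v₂.num
  set e2 := v₂.denom
  -- `A ≠ 0`
  have hA : A ≠ 0 := by
    rintro rfl
    rw [sub_zero, mul_zero, mul_zero] at hc2
    exact (mul_ne_zero (mul_ne_zero hs0 hB) (pow_ne_zero _ hE2)) hc2
  -- `B` is a `p`-th power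
  obtain ⟨u, hu, hBu⟩ := phe_lowest hc1
    (by
      have : A - s * B = A + B * (-s) := by ring
      rw [this]
      exact IsCoprime.add_mul_left_left hAB _) (phe_cop hcv1)
  -- `s ∣ A`
  have hsA : s ∣ A := by
    by_contra hsA
    have hcop : IsCoprime s A := (hsi.coprime_iff_not_dvd).mpr hsA
    have hcop2 : IsCoprime (s * B - A) (s * A) := by
      apply IsCoprime.mul_right
      · have : s * B - A = -A + s * B := by ring
        rw [this]
        exact IsCoprime.add_mul_left_left hcop.symm.neg_left _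
      · have : s * B - A = s * B + A * (-1) := by ring
        rw [this]
        exact IsCoprime.add_mul_left_left (hcop.mul_left hAB.symm) _
    obtain ⟨u2, hu2, hsAu⟩ := phe_lowest hc2 hcop2 (phe_cop hcv2)
    rw [phe_C_mul_pow] at hsAu
    have hd : s ∣ C u2 * e2 := hsi.prime.dvd_of_dvd_pow (n := p) (hsAu ▸ dvd_mul_right s A)
    obtain ⟨w, hw⟩ := hd
    rw [hw] at hsAu
    have h3 : A = s * (s ^ (p - 2) * w ^ p) := by
      apply mul_left_cancel₀ hs0
      rw [hsAu, mul_pow]
      have : s ^ p = s * (s * s ^ (p - 2)) := by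
        rw [← pow_succ', ← pow_succ']; congr 1; omega
      rw [this]; ring
    exact hsA ⟨_, h3⟩
  obtain ⟨A', rfl⟩ := hsA
  have hA' : A' ≠ 0 := right_ne_zero_of_mul hA
  have hA'B : IsCoprime A' B := hAB.of_mul_left_right
  have hsB : IsCoprime s B := hAB.of_mul_left_left
  have hc3 : (B - A') * e2 ^ p = (c2 ^ p - c2 * e2 ^ (p - 1)) * (s * A') := by
    apply mul_left_cancel₀ hs0
    calc s * ((B - A') * e2 ^ p) = (s * B - s * A') * e2 ^ p := by ring
      _ = (c2 ^ p - c2 * e2 ^ (p - 1)) * (s * (s * A')) := hc2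
      _ = s * ((c2 ^ p - c2 * e2 ^ (p - 1)) * (s * A')) := by ring
  have hcopA' : IsCoprime (B - A') A' := by
    have : B - A' = B + A' * (-1) := by ring
    rw [this]
    exact IsCoprime.add_mul_left_left hA'B.symm _
  by_cases hd : s ∣ B - A'
  · -- case `A = s a ^ p`
    obtain ⟨F, hF⟩ := hd
    have hc4 : F * e2 ^ p = (c2 ^ p - c2 * e2 ^ (p - 1)) * A' := by
      apply mul_left_cancel₀ hs0
      calc s * (F * e2 ^ p) = (B - A') * e2 ^ p := by rw [hF]; ring
        _ = (c2 ^ p - c2 * e2 ^ (p - 1)) * (s * A') := hc3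
        _ = s * ((c2 ^ p - c2 * e2 ^ (p - 1)) * A') := by ring
    have hcopF : IsCoprime F A' := by
      rw [hF] at hcopA'
      exact hcopA'.of_mul_left_right
    obtain ⟨u2, hu2, hAu⟩ := phe_lowest hc4 hcopF (phe_cop hcv2)
    rw [phe_C_mul_pow] at hAu
    have hBu' : B = (C u * e1) ^ p := by rw [hBu, phe_C_mul_pow]
    have hcop : IsCoprime (C u2 * e2 - C u * e1) e1 := by
      have h3 : IsCoprime (C u2 * e2) (C u * e1) := by
        rw [hAu, hBu'] at hA'B
        exact (IsCoprime.pow_iff (by omega) (by omega)).mp hA'B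
      have h4 : C u2 * e2 - C u * e1 = C u2 * e2 + e1 * (-(C u)) := by ring
      rw [h4]
      exact IsCoprime.add_mul_left_left h3.of_mul_right_right _
    have hn : C u2 * e2 - C u * e1 = 0 := by
      refine phe_case2 hp hu hs hs1 hE1 hcop (c := c1) ?_
      apply mul_right_cancel₀ (pow_ne_zero p hE1)
      calc s * (C u2 * e2 - C u * e1) ^ p * e1 ^ p
          = (s * A' - s * B) * e1 ^ p := by
            rw [sub_pow_char, ← hAu, ← hBu']; ring
        _ = (c1 ^ p - c1 * e1 ^ (p - 1)) * B := hc1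
        _ = C u * (c1 ^ p - c1 * e1 ^ (p - 1)) * e1 ^ p := by rw [hBu]; ring
    have hAB' : A' = B := by
      rw [hAu, hBu', sub_eq_zero.mp hn]
    refine ⟨0, ?_⟩
    rw [hAB', map_mul, pow_zero, pow_one]
    have hB' : algebraMap (Rp p) (Kp p) B ≠ 0 := RatFunc.algebraMap_ne_zero hB
    field_simp
  · -- case `A = a ^ p`
    have hcop2 : IsCoprime (B - A') (s * A') :=
      IsCoprime.mul_right ((hsi.coprime_iff_not_dvd).mpr hd).symm hcopA'
    obtain ⟨u2, hu2, hAu⟩ := phe_lowest hc3 hcop2 (phe_cop hcv2)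
    rw [phe_C_mul_pow] at hAu
    have hBu' : B = (C u * e1) ^ p := by rw [hBu, phe_C_mul_pow]
    set a := C u2 * e2 with ha
    set b := C u * e1 with hb
    have hb0 : b ≠ 0 := by
      intro hb0
      rw [hb0, zero_pow hp0] at hBu'
      exact hB hBu'
    have ha0 : a ≠ 0 := by
      intro ha0
      rw [ha0, zero_pow hp0] at hAu
      exact hA hAu
    have hab : IsCoprime a b := by
      rw [hAu, hBu'] at hAB
      exact (IsCoprime.pow_iff (by omega) (by omega)).mp hAB
    have ha' : algebraMap (Rp p) (Kp p) a ≠ 0 := RatFunc.algebraMap_ne_zero ha0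
    have hb' : algebraMap (Rp p) (Kp p) b ≠ 0 := RatFunc.algebraMap_ne_zero hb0
    have hs' : algebraMap (Rp p) (Kp p) s ≠ 0 := RatFunc.algebraMap_ne_zero hs0
    have hx : algebraMap (Rp p) (Kp p) (s * A') / algebraMap (Rp p) (Kp p) B =
        (algebraMap (Rp p) (Kp p) a / algebraMap (Rp p) (Kp p) b) ^ p := by
      rw [hAu, hBu', map_pow, map_pow, div_pow]
    have hdeg : a.natDegree + b.natDegree < N := by
      have h5 : (s * A').natDegree = p * a.natDegree := by rw [hAu, natDegree_pow]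
      have h6 : B.natDegree = p * b.natDegree := by rw [hBu', natDegree_pow]
      have h7 : 1 ≤ (s * A').natDegree := by
        rw [natDegree_mul hs0 hA', hs1]; omega
      nlinarith
    rw [hx] at h1 h2
    set y := algebraMap (Rp p) (Kp p) a / algebraMap (Rp p) (Kp p) b with hy
    have hy0 : y ≠ 0 := div_ne_zero ha' hb'
    obtain ⟨k, hk⟩ := ih _ hdeg a b hb0 hab le_rfl (v₁ - y) (v₂ - 1 / y) (by
      rw [sub_pow_char]
      linear_combination h1) (by
      rw [sub_pow_char]
      have h8 : v₂ ^ p - v₂ = 1 / y ^ p - 1 / algebraMap (Rp p) (Kp p) s := by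
        have h9 : y ^ p ≠ 0 := pow_ne_zero _ hy0
        field_simp
        linear_combination -h2
      have h10 : v₂ ^ p - (1 / y) ^ p - (v₂ - 1 / y) = 1 / y - 1 / algebraMap (Rp p) (Kp p) s := by
        rw [one_div_pow]
        linear_combination h8
      rw [h10, ← hy]
      field_simp)
    refine ⟨k + 1, ?_⟩
    rw [← hy] at hk
    rw [hx, hk, ← pow_mul, pow_succ]

theorem pheidas (hp : 3 ≤ p) {x v₁ v₂ : Kp p} (e1 : x - RatFunc.X = v₁ ^ p - v₁)
    (e2 : RatFunc.X - x = (x + 1) * (RatFunc.X + 1) * (v₂ ^ p - v₂)) :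
    ∃ k : ℕ, x = RatFunc.X ^ (p ^ k) := by
  have : CharP (Kp p) p := phe_charP
  have hX : algebraMap (Rp p) (Kp p) (X + 1) = RatFunc.X + 1 := by
    rw [map_add, map_one, RatFunc.algebraMap_X]
  have hdeg : (X + 1 : Rp p).natDegree = 1 := by
    have := natDegree_X_add_C (1 : ZMod p)
    simpa using this
  have hirr : Irreducible (X + 1 : Rp p) := by
    have := irreducible_X_sub_C (-1 : ZMod p)
    simpa using this
  obtain ⟨k, hk⟩ := phe_main hp (s := X + 1) (by simp) hdeg hirr _ (x + 1).num (x + 1).denom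
    (x + 1).denom_ne_zero (RatFunc.isCoprime_num_denom _) le_rfl v₁ v₂
    (by rw [RatFunc.num_div_denom, hX]; linear_combination e1)
    (by rw [RatFunc.num_div_denom, hX]; linear_combination e2)
  refine ⟨k, ?_⟩
  rw [RatFunc.num_div_denom, hX, add_pow_char_pow, one_pow] at hk
  exact add_right_cancel hk

end MP333
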