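import Pool.Agent.Lib.MP_333da9_nt.Defs

/-!
# Pole orders of rational functions at an irreducible polynomial `g`
-/

set_option autoImplicit false

namespace MP333

open Polynomial

variable {p : ℕ} [Fact p.Prime]

/-- `f` has a pole of order at most `n` at `g`. -/
def PoleLe (g : Rp p) (n : ℕ) (f : Kp p) : Prop :=
  ∃ a b : Rp p, ¬ g ∣ b ∧ f * algebraMap (Rp p) (Kp p) (g ^ n * b) = algebraMap (Rp p) (Kp p) a

/-- The order of the pole of `f` at `g` (`0` if there is no pole). -/
noncomputable def pole (g : Rp p) (f : Kp p) : ℕ := sInf {n | PoleLe g n f}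

lemma alg_inj : Function.Injective (algebraMap (Rp p) (Kp p)) :=
  IsFractionRing.injective (Rp p) (Kp p)

lemma PoleLe.mono {g : Rp p} {n m : ℕ} {f : Kp p} (h : PoleLe g n f) (hnm : n ≤ m) :
    PoleLe g m f := by
  obtain ⟨a, b, hb, hab⟩ := h
  refine ⟨a * g ^ (m - n), b, hb, ?_⟩
  have : g ^ m * b = (g ^ n * b) * g ^ (m - n) := by
    obtain ⟨k, rfl⟩ := Nat.exists_eq_add_of_le hnm
    simp [pow_add]; ring
  rw [this, map_mul, ← mul_assoc, hab, map_mul]

lemma PoleLe.exists {g : Rp p} (hg : Irreducible g) (f : Kp p) : ∃ n, PoleLe g n f := by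
  have hd : f.denom ≠ 0 := RatFunc.denom_ne_zero f
  obtain ⟨n, c, hc, hn⟩ := WfDvdMonoid.max_power_factor hd hg
  refine ⟨n, f.num, c, hc, ?_⟩
  rw [← hn]
  have h1 : algebraMap (Rp p) (Kp p) f.denom ≠ 0 := by
    intro h; exact hd (alg_inj (by rw [h, map_zero]))
  conv_lhs => rw [← RatFunc.num_div_denom f]
  rw [RatFunc.num_div_denom f] 
  have := RatFunc.num_div_denom f
  rw [div_eq_iff h1] at this
  exact this.symm

theorem poleLe_iff {g : Rp p} (hg : Irreducible g) (n : ℕ) (f : Kp p) :
    PoleLe g n f ↔ pole g f ≤ n := by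
  constructor
  · intro h
    exact Nat.sInf_le h
  · intro h
    have hne : {n | PoleLe g n f}.Nonempty := PoleLe.exists hg f
    have := Nat.sInf_mem hne
    exact PoleLe.mono this h

lemma pole_spec {g : Rp p} (hg : Irreducible g) (f : Kp p) : PoleLe g (pole g f) f :=
  (poleLe_iff hg _ f).2 le_rfl

/-- if `f g ^ n b = a` with `g` dividing neither `a` nor `b`, the pole order is at least `n`. -/
lemma pole_eq_of {g : Rp p} (hg : Irreducible g) {n : ℕ} {f : Kp p} {a b : Rp p}
    (ha : ¬ g ∣ a) (hb : ¬ g ∣ b)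
    (hab : f * algebraMap (Rp p) (Kp p) (g ^ n * b) = algebraMap (Rp p) (Kp p) a) :
    pole g f = n := by
  have hp := hg.prime
  refine le_antisymm ((poleLe_iff hg n f).1 ⟨a, b, hb, hab⟩) ?_
  by_contra hlt
  push Not at hlt
  obtain ⟨a', b', hb', hab'⟩ := pole_spec hg f
  set m := pole g f with hm
  have h1 : a * (g ^ m * b') = a' * (g ^ n * b) := by
    apply alg_inj
    rw [map_mul _ a, map_mul _ a', ← hab, ← hab']
    ring
  obtain ⟨k, hk⟩ := Nat.exists_eq_add_of_lt hlt
  have hgm : g ^ m ≠ 0 := pow_ne_zero _ hg.ne_zero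
  have h2 : a * b' = a' * (g ^ (k + 1) * b) := by
    apply mul_left_cancel₀ hgm
    rw [hk] at h1
    calc g ^ m * (a * b') = a * (g ^ m * b') := by ring
      _ = a' * (g ^ (m + k + 1) * b) := h1
      _ = g ^ m * (a' * (g ^ (k + 1) * b)) := by rw [add_assoc, pow_add]; ring
  have h3 : g ∣ a * b' := by
    rw [h2, pow_succ]
    exact ⟨a' * (g ^ k * b), by ring⟩
  rcases hp.dvd_or_dvd h3 with h | h
  · exact ha h
  · exact hb' h

/-- at a genuine pole the numerator is not divisible by `g`. -/
lemma pole_num {g : Rp p} (hg : Irreducible g) {f : Kp p} (hf : 1 ≤ pole g f) :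
    ∃ a b : Rp p, ¬ g ∣ a ∧ ¬ g ∣ b ∧
      f * algebraMap (Rp p) (Kp p) (g ^ pole g f * b) = algebraMap (Rp p) (Kp p) a := by
  obtain ⟨a, b, hb, hab⟩ := pole_spec hg f
  refine ⟨a, b, ?_, hb, hab⟩
  rintro ⟨c, rfl⟩
  obtain ⟨k, hk⟩ := Nat.exists_eq_add_of_le hf
  have : PoleLe g k f := by
    refine ⟨c, b, hb, ?_⟩
    have hg0 : algebraMap (Rp p) (Kp p) g ≠ 0 := by
      intro h; exact hg.ne_zero (alg_inj (by rw [h, map_zero]))
    apply mul_left_cancel₀ hg0
    rw [← map_mul, ← hab, hk, pow_add, pow_one, mul_assoc, map_mul _ g]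
    ring
  have := (poleLe_iff hg k f).1 this
  omega

theorem pole_algebraMap {g : Rp p} (hg : Irreducible g) (a : Rp p) :
    pole g (algebraMap (Rp p) (Kp p) a) = 0 := by
  have : PoleLe g 0 (algebraMap (Rp p) (Kp p) a) :=
    ⟨a, 1, hg.prime.not_dvd_one, by simp⟩
  exact Nat.le_zero.1 ((poleLe_iff hg 0 _).1 this)

lemma PoleLe.neg {g : Rp p} {n : ℕ} {f : Kp p} (h : PoleLe g n f) : PoleLe g n (-f) := by
  obtain ⟨a, b, hb, hab⟩ := h
  exact ⟨-a, b, hb, by rw [neg_mul, hab, map_neg]⟩

theorem pole_neg (g : Rp p) (f : Kp p) : pole g (-f) = pole g f := by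
  unfold pole
  congr 1
  ext n
  constructor
  · intro h
    have := PoleLe.neg h
    rwa [neg_neg] at this
  · intro h; exact PoleLe.neg h

lemma PoleLe.add {g : Rp p} (hg : Irreducible g) {n : ℕ} {f h : Kp p} (hf : PoleLe g n f)
    (hh : PoleLe g n h) : PoleLe g n (f + h) := by
  obtain ⟨a, b, hb, hab⟩ := hf
  obtain ⟨a', b', hb', hab'⟩ := hh
  refine ⟨a * b' + a' * b, b * b', fun hd => ?_, ?_⟩
  · rcases hg.prime.dvd_or_dvd hd with h | h
    · exact hb h
    · exact hb' h
  · rw [map_add, map_mul _ a, map_mul _ a', ← hab, ← hab']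
    simp only [map_mul]
    ring

theorem pole_add_le {g : Rp p} (hg : Irreducible g) (f h : Kp p) :
    pole g (f + h) ≤ max (pole g f) (pole g h) :=
  (poleLe_iff hg _ _).1 (((pole_spec hg f).mono (le_max_left _ _)).add hg
    ((pole_spec hg h).mono (le_max_right _ _)))

theorem pole_sub_le {g : Rp p} (hg : Irreducible g) (f h : Kp p) :
    pole g (f - h) ≤ max (pole g f) (pole g h) := by
  rw [sub_eq_add_neg]
  have := pole_add_le hg f (-h)
  rwa [pole_neg] at this

lemma PoleLe.mul {g : Rp p} (hg : Irreducible g) {n m : ℕ} {f h : Kp p} (hf : PoleLe g n f)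
    (hh : PoleLe g m h) : PoleLe g (n + m) (f * h) := by
  obtain ⟨a, b, hb, hab⟩ := hf
  obtain ⟨a', b', hb', hab'⟩ := hh
  refine ⟨a * a', b * b', fun hd => ?_, ?_⟩
  · rcases hg.prime.dvd_or_dvd hd with h | h
    · exact hb h
    · exact hb' h
  · rw [map_mul _ a, ← hab, ← hab', pow_add]
    simp only [map_mul]
    ring

theorem pole_mul_le {g : Rp p} (hg : Irreducible g) (f h : Kp p) :
    pole g (f * h) ≤ pole g f + pole g h :=
  (poleLe_iff hg _ _).1 ((pole_spec hg f).mul hg (pole_spec hg h))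

lemma PoleLe.zero_pow {g : Rp p} (hg : Irreducible g) {f : Kp p} (hf : PoleLe g 0 f) (k : ℕ) :
    PoleLe g 0 (f ^ k) := by
  induction k with
  | zero =>
    refine ⟨1, 1, hg.prime.not_dvd_one, by simp⟩
  | succ k ih =>
    have h := ih.mul hg hf
    have h2 : PoleLe g 0 (f ^ k * f) := h.mono (by norm_num)
    rw [pow_succ]
    exact h2

theorem pole_pow {g : Rp p} (hg : Irreducible g) (f : Kp p) :
    pole g (f ^ p) = p * pole g f := by
  rcases Nat.eq_zero_or_pos (pole g f) with h0 | h1
  · rw [h0, mul_zero]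
    have : PoleLe g 0 f := (poleLe_iff hg 0 f).2 h0.le
    exact Nat.le_zero.1 ((poleLe_iff hg 0 _).1 (this.zero_pow hg p))
  · obtain ⟨a, b, ha, hb, hab⟩ := pole_num hg h1
    refine pole_eq_of hg (a := a ^ p) (b := b ^ p) (fun h => ha (hg.prime.dvd_of_dvd_pow h))
      (fun h => hb (hg.prime.dvd_of_dvd_pow h)) ?_
    have e : g ^ (p * pole g f) * b ^ p = (g ^ pole g f * b) ^ p := by
      rw [mul_pow, ← pow_mul, mul_comm p]
    rw [e, map_pow, map_pow, ← hab, mul_pow]

/-- The order of the pole of `r ^ p - r` is `p` times that of `r`. -/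
theorem pole_as {g : Rp p} (hg : Irreducible g) (r : Kp p) :
    pole g (r ^ p - r) = p * pole g r := by
  have hp : 2 ≤ p := (Fact.out : p.Prime).two_le
  rcases Nat.eq_zero_or_pos (pole g r) with h0 | h1
  · rw [h0, mul_zero]
    have : PoleLe g 0 r := (poleLe_iff hg 0 r).2 h0.le
    have h2 := (this.zero_pow hg p).add hg this.neg
    rw [← sub_eq_add_neg] at h2
    exact Nat.le_zero.1 ((poleLe_iff hg 0 _).1 h2)
  · obtain ⟨a, b, ha, hb, hab⟩ := pole_num hg h1
    set n := pole g r with hn
    refine pole_eq_of hg (a := a ^ p - a * (g ^ (p * n - n) * b ^ (p - 1))) (b := b ^ p) ?_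
      (fun h => hb (hg.prime.dvd_of_dvd_pow h)) ?_
    · intro h
      have h1' : g ∣ a * (g ^ (p * n - n) * b ^ (p - 1)) := by
        have : p * n - n ≠ 0 := by
          have : 2 * n ≤ p * n := Nat.mul_le_mul_right _ hp
          omega
        exact Dvd.dvd.mul_left (Dvd.dvd.mul_right (dvd_pow_self g this) _) _
      have := (dvd_sub_left h1').1 h
      exact ha (hg.prime.dvd_of_dvd_pow this)
    · have e1 : g ^ (p * n) * b ^ p = (g ^ n * b) ^ p := by
        rw [mul_pow, ← pow_mul, mul_comm p]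
      have e2 : g ^ (p * n) * b ^ p = (g ^ n * b) * (g ^ (p * n - n) * b ^ (p - 1)) := by
        have h3 : p * n = n + (p * n - n) := by
          have : n ≤ p * n := Nat.le_mul_of_pos_left n (by omega)
          omega
        have h4 : b ^ p = b * b ^ (p - 1) := by
          rw [← pow_succ', Nat.sub_add_cancel (by omega)]
        rw [h4]
        conv_lhs => rw [h3, pow_add]
        ring
      rw [sub_mul, map_sub, map_pow, map_mul _ a, ← hab]
      congr 1
      · rw [e1, map_pow, mul_pow]
      · rw [e2, map_mul _ (g ^ n * b), mul_assoc]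

/-- The derivative of a rational function with `p`-th power denominator. -/
lemma poleLe_deriv {g : Rp p} (hg : Irreducible g) {f u : Kp p} {D N : Rp p} (hD : D ≠ 0)
    (hf : f * algebraMap (Rp p) (Kp p) (D ^ p) = algebraMap (Rp p) (Kp p) N)
    (hu : u * algebraMap (Rp p) (Kp p) (D ^ p) = algebraMap (Rp p) (Kp p) (derivative N))
    {m : ℕ} (hm : PoleLe g m f) : PoleLe g (m + 1) u := by
  obtain ⟨a, b, hb, hab⟩ := hm
  have hDp : D ^ p ≠ 0 := pow_ne_zero _ hD
  have hDa : algebraMap (Rp p) (Kp p) (D ^ p) ≠ 0 := by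
    intro h; exact hDp (alg_inj (by rw [h, map_zero]))
  have h1 : a * D ^ p = N * (g ^ m * b) := by
    apply alg_inj
    rw [map_mul, map_mul, ← hab, ← hf]
    ring
  have hDd : derivative (D ^ p) = 0 := by
    rw [derivative_pow]
    simp
  have h2 : derivative a * D ^ p = derivative N * (g ^ m * b) + N * derivative (g ^ m * b) := by
    have := congrArg derivative h1
    rw [derivative_mul, derivative_mul, hDd, mul_zero, add_zero] at this
    exact this
  have h3 : derivative N * (g ^ m * b) ^ 2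
      = D ^ p * (derivative a * (g ^ m * b) - a * derivative (g ^ m * b)) := by
    have : derivative a * D ^ p * (g ^ m * b)
        = derivative N * (g ^ m * b) ^ 2 + (N * (g ^ m * b)) * derivative (g ^ m * b) := by
      rw [h2]; ring
    rw [← h1] at this
    linear_combination -this
  -- divide by `g ^ (m - 1)`
  refine ⟨derivative a * (g * b) - a * ((m : Rp p) * derivative g * b + g * derivative b), b * b,
    ?_, ?_⟩
  · intro hd
    rcases hg.prime.dvd_or_dvd hd with h | h <;> exact hb h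
  · apply mul_right_cancel₀ hDa
    have hgm : algebraMap (Rp p) (Kp p) (g ^ m) ≠ 0 := by
      intro h; exact pow_ne_zero m hg.ne_zero (alg_inj (by rw [h, map_zero]))
    apply mul_left_cancel₀ hgm
    have h4 : u * algebraMap (Rp p) (Kp p) (g ^ (m + 1) * (b * b)) *
        algebraMap (Rp p) (Kp p) (D ^ p) =
        algebraMap (Rp p) (Kp p) (derivative N * (g ^ (m + 1) * (b * b))) := by
      rw [map_mul _ (derivative N), ← hu]; ring
    rw [h4, ← map_mul, ← map_mul, ← map_mul]
    congr 1
    have h5 : derivative (g ^ m * b) * g = g ^ m * ((m : Rp p) * derivative g * b + g * derivative b) := by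
      rw [derivative_mul, derivative_pow]
      rcases Nat.eq_zero_or_pos m with h0 | h0
      · subst h0; simp; ring
      · obtain ⟨k, rfl⟩ := Nat.exists_eq_add_of_le' h0
        simp only [Nat.add_sub_cancel, pow_succ]
        push_cast
        simp only [map_add, map_natCast, map_one]
        ring
    calc g ^ m * (derivative N * (g ^ (m + 1) * (b * b)))
        = g * (derivative N * (g ^ m * b) ^ 2) := by ring
      _ = g * (D ^ p * (derivative a * (g ^ m * b) - a * derivative (g ^ m * b))) := by rw [h3]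
      _ = D ^ p * (derivative a * (g ^ m * b) * g - a * (derivative (g ^ m * b) * g)) := by ring
      _ = D ^ p * (derivative a * (g ^ m * b) * g
          - a * (g ^ m * ((m : Rp p) * derivative g * b + g * derivative b))) := by rw [h5]
      _ = g ^ m * ((derivative a * (g * b) - a * ((m : Rp p) * derivative g * b + g * derivative b))
          * D ^ p) := by ring

/-- common denominators -/
lemma exists_common (w r : Kp p) : ∃ A B D : Rp p, D ≠ 0 ∧
    w * algebraMap (Rp p) (Kp p) D = algebraMap (Rp p) (Kp p) A ∧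
    r * algebraMap (Rp p) (Kp p) D = algebraMap (Rp p) (Kp p) B := by
  have hw : algebraMap (Rp p) (Kp p) w.denom ≠ 0 := by
    intro h; exact RatFunc.denom_ne_zero w (alg_inj (by rw [h, map_zero]))
  have hr : algebraMap (Rp p) (Kp p) r.denom ≠ 0 := by
    intro h; exact RatFunc.denom_ne_zero r (alg_inj (by rw [h, map_zero]))
  have h1 := RatFunc.num_div_denom w
  have h2 := RatFunc.num_div_denom r
  rw [div_eq_iff hw] at h1
  rw [div_eq_iff hr] at h2
  refine ⟨w.num * r.denom, r.num * w.denom, w.denom * r.denom,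
    mul_ne_zero (RatFunc.denom_ne_zero w) (RatFunc.denom_ne_zero r), ?_, ?_⟩
  · rw [map_mul, map_mul, h1]; ring
  · rw [map_mul, map_mul, h2]; ring

/-- Key lemma: `(t w ^ p + r ^ p)' = w ^ p`, so a pole of `w` gives a pole of `t w ^ p + r ^ p`. -/
theorem pole_key1 {g : Rp p} (hg : Irreducible g) (w r : Kp p) (hw : 1 ≤ pole g w) :
    p * pole g w ≤ pole g (RatFunc.X * w ^ p + r ^ p) + 1 := by
  obtain ⟨A, B, D, hD, hA, hB⟩ := exists_common w r
  rw [← pole_pow hg]
  refine (poleLe_iff hg _ _).1 ?_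
  refine poleLe_deriv hg (f := RatFunc.X * w ^ p + r ^ p) (N := X * A ^ p + B ^ p) hD ?_ ?_
    (pole_spec hg _)
  · rw [map_add, map_mul _ X, map_pow, map_pow, map_pow, ← hA, ← hB, RatFunc.algebraMap_X]
    ring
  · have : derivative (X * A ^ p + B ^ p) = A ^ p := by
      rw [derivative_add, derivative_mul, derivative_pow, derivative_pow]
      simp
    rw [this, map_pow, map_pow, ← hA]
    ring

/-- Key lemma: `(t ^ 2 w ^ p + r ^ p)' = 2 t w ^ p`. -/
theorem pole_key2 (hp : 3 ≤ p) {g : Rp p} (hg : Irreducible g) (w r : Kp p) (hw : 1 ≤ pole g w) :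
    p * pole g w ≤ pole g (RatFunc.X ^ 2 * w ^ p + r ^ p) + 2 := by
  obtain ⟨A, B, D, hD, hA, hB⟩ := exists_common w r
  have h1 : PoleLe g (pole g (RatFunc.X ^ 2 * w ^ p + r ^ p) + 1)
      (algebraMap (Rp p) (Kp p) (2 * X) * w ^ p) := by
    refine poleLe_deriv hg (f := RatFunc.X ^ 2 * w ^ p + r ^ p) (N := X ^ 2 * A ^ p + B ^ p) hD ?_ ?_
      (pole_spec hg _)
    · rw [map_add, map_mul, map_pow, map_pow, map_pow, map_pow, ← hA, ← hB, RatFunc.algebraMap_X]
      ring
    · have : derivative (X ^ 2 * A ^ p + B ^ p) = 2 * X * A ^ p := by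
        rw [derivative_add, derivative_mul, derivative_pow, derivative_pow, derivative_pow]
        simp
        left
        exact map_ofNat C 2
      rw [this, map_mul _ (2 * X), map_pow _ A, map_pow _ D, ← hA]
      ring
  rw [← pole_pow hg]
  refine (poleLe_iff hg _ _).1 ?_
  obtain ⟨a, b, hb, hab⟩ := h1
  set m := pole g (RatFunc.X ^ 2 * w ^ p + r ^ p) with hm
  have h2 : IsUnit (2 : Rp p) := by
    have h20 : (2 : ZMod p) ≠ 0 := by
      intro h
      have : ((2 : ℕ) : ZMod p) = 0 := by exact_mod_cast h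
      rw [ZMod.natCast_eq_zero_iff] at this
      have := Nat.le_of_dvd (by norm_num) this
      omega
    have : (2 : Rp p) = C (2 : ZMod p) := (map_ofNat C 2).symm
    rw [this]
    exact Polynomial.isUnit_C.2 (IsUnit.mk0 _ h20)
  by_cases hgX : g ∣ (X : Rp p)
  · -- `X = g * c`, `c` a unit
    obtain ⟨c, hc⟩ := hgX
    have hXirr : Irreducible (X : Rp p) := Polynomial.irreducible_X
    have hcu : IsUnit c := by
      rcases hXirr.isUnit_or_isUnit hc with h | h
      · exact absurd h hg.not_isUnit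
      · exact h
    refine ⟨a, 2 * c * b, fun hd => ?_, ?_⟩
    · rcases hg.prime.dvd_or_dvd hd with h | h
      · exact hg.not_isUnit (isUnit_of_dvd_unit h (h2.mul hcu))
      · exact hb h
    · rw [← hab]
      have : g ^ (m + 2) * (2 * c * b) = (2 * X) * (g ^ (m + 1) * b) := by
        rw [hc]; ring
      rw [this, map_mul]
      ring
  · refine PoleLe.mono (n := m + 1) ⟨a, 2 * X * b, fun hd => ?_, ?_⟩ (by omega)
    · rcases hg.prime.dvd_or_dvd hd with h | h
      · rcases hg.prime.dvd_or_dvd h with h | h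
        · exact hg.not_isUnit (isUnit_of_dvd_unit h h2)
        · exact hgX h
      · exact hb h
    · rw [← hab]
      have : g ^ (m + 1) * (2 * X * b) = (2 * X) * (g ^ (m + 1) * b) := by ring
      rw [this, map_mul]
      ring

theorem exists_eq_algebraMap_of_pole (f : Kp p) (hf : ∀ g : Rp p, Irreducible g → pole g f = 0) :
    ∃ a : Rp p, f = algebraMap (Rp p) (Kp p) a := by
  have hd0 : f.denom ≠ 0 := RatFunc.denom_ne_zero f
  have hfd : algebraMap (Rp p) (Kp p) f.denom ≠ 0 := by
    intro h; exact hd0 (alg_inj (by rw [h, map_zero]))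
  have h1 := RatFunc.num_div_denom f
  rw [div_eq_iff hfd] at h1
  by_cases hu : IsUnit f.denom
  · obtain ⟨c, hc⟩ := hu.exists_right_inv
    refine ⟨f.num * c, ?_⟩
    rw [map_mul, h1, mul_assoc, ← map_mul, hc, map_one, mul_one]
  · exfalso
    obtain ⟨g, hg, hgd⟩ := WfDvdMonoid.exists_irreducible_factor hu hd0
    obtain ⟨a, b, hb, hab⟩ := (poleLe_iff hg 0 f).2 (hf g hg).le
    have h2 : f.num * b = a * f.denom := by
      apply alg_inj
      rw [map_mul, map_mul, ← hab, h1, pow_zero, one_mul]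
      ring
    have h3 : g ∣ f.num * b := by rw [h2]; exact Dvd.dvd.mul_left hgd _
    rcases hg.prime.dvd_or_dvd h3 with h | h
    · have := (RatFunc.isCoprime_num_denom f).isUnit_of_dvd' h hgd
      exact hg.not_isUnit this
    · exact hb h

/-- If `r ^ p - r` is a polynomial, so is `r`. -/
theorem exists_eq_algebraMap_of_as (r : Kp p) (a : Rp p)
    (h : r ^ p - r = algebraMap (Rp p) (Kp p) a) :
    ∃ b : Rp p, r = algebraMap (Rp p) (Kp p) b ∧ b ^ p - b = a := by
  have hp : 0 < p := (Fact.out : p.Prime).pos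
  obtain ⟨b, hb⟩ := exists_eq_algebraMap_of_pole r (fun g hg => by
    have h1 := pole_as hg r
    rw [h, pole_algebraMap hg] at h1
    rcases Nat.mul_eq_zero.1 h1.symm with h2 | h2
    · omega
    · exact h2)
  refine ⟨b, hb, alg_inj ?_⟩
  rw [map_sub, map_pow, ← hb, h]

end MP333
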