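import Pool.Agent.Lib.MP_333da9_nt.Integral
import Pool.Agent.Lib.MP_333da9_nt.Degree
import Pool.Agent.Lib.MP_333da9_nt.Pheidas
import Pool.Agent.Lib.MP_333da9_nt.Catalan

/-!
# All solutions of the system
-/

set_option autoImplicit false

namespace MP333

open Polynomial

variable {p : ℕ} [Fact p.Prime]

theorem sys_sol (hp : 5 ≤ p) {z y x v₁ v₂ c u w r₁ r₂ r₃ r₄ h r₅ : Kp p}
    (S : Sys p z y x v₁ v₂ c u w r₁ r₂ r₃ r₄ h r₅) :
    (∃ s : ℕ, z = algebraMap (Rp p) (Kp p) (zeta p s)) ∧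
    ∀ f ∈ [z, y, x, v₁, v₂, c, u, w, r₁, r₂, r₃, r₄, h, r₅], pole (X : Rp p) f = 0 := by
  have hpp : p.Prime := Fact.out
  have hX : algebraMap (Rp p) (Kp p) X = RatFunc.X := RatFunc.algebraMap_X
  have hC : ∀ c : ZMod p, algebraMap (Rp p) (Kp p) (C c) = RatFunc.C c := RatFunc.algebraMap_C
  have hXirr : Irreducible (X : Rp p) := Polynomial.irreducible_X
  obtain ⟨k, hk⟩ := pheidas (by omega) S.e1 S.e2
  have hx : x = algebraMap (Rp p) (Kp p) (X ^ (p ^ k)) := by rw [hk, map_pow, hX]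
  have hxp : x ^ p = RatFunc.X ^ (p ^ (k + 1)) := by rw [hk, ← pow_mul, pow_succ]
  obtain ⟨c₀, hc⟩ := exists_const_of_pow_eq c S.e3
  obtain ⟨U, W, hU, hW⟩ := exists_polys hp _ hx c₀ hc S.e4 S.e5 S.e6 S.e7
  set Z : Rp p := C c₀ * X + (U ^ p - U) with hZdef
  set Y : Rp p := C c₀ * X ^ 2 + (W ^ p - W) with hYdef
  have hz : z = algebraMap (Rp p) (Kp p) Z := by
    rw [S.e4, hZdef, map_add, map_mul, map_sub, map_pow, hX, hC, hc, hU]
  have hy : y = algebraMap (Rp p) (Kp p) Y := by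
    rw [S.e5, hYdef, map_add, map_mul, map_sub, map_pow, map_pow, hX, hC, hc, hW]
  -- the polynomials `r_i`
  obtain ⟨R₁, hR₁, hR₁'⟩ := exists_eq_algebraMap_of_as r₁ (X ^ (2 * p ^ (k + 1)) * Z - X * Y) (by
    rw [← S.e6, hxp, hz, hy, map_sub, map_mul, map_mul, map_pow, hX]; ring)
  obtain ⟨R₂, hR₂, hR₂'⟩ := exists_eq_algebraMap_of_as r₂ (X ^ (p ^ (k + 1)) * Y - X ^ 2 * Z) (by
    rw [← S.e7, hxp, hz, hy, map_sub, map_mul, map_mul, map_pow, map_pow, hX])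
  obtain ⟨R₃, hR₃, hR₃'⟩ := exists_eq_algebraMap_of_as r₃
      (X ^ (2 * p ^ (k + 2)) * Z - X * Y ^ p) (by
    rw [← S.e8, hxp, hz, hy, map_sub, map_mul, map_mul, map_pow, map_pow, hX]; ring)
  obtain ⟨R₄, hR₄, hR₄'⟩ := exists_eq_algebraMap_of_as r₄
      (X ^ (p ^ (k + 2)) * Y - X ^ 2 * Z ^ p) (by
    rw [← S.e9, hxp, hz, hy, map_sub, map_mul, map_mul, map_pow, map_pow, map_pow, hX]; ring)
  obtain ⟨h1, h2⟩ := degree_bounds hp (k + 1) (by omega) c₀ U W R₁ R₂ hR₁'.symm hR₂'.symm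
  obtain ⟨hZ', hY'⟩ := exact hp (k + 1) (by omega) Z Y U.natDegree W.natDegree
    (coeff_zero_z c₀ U) (coeff_zero_y c₀ W) (natDegree_z c₀ U) (natDegree_y c₀ W) h1 h2
    ⟨R₁, hR₁'.symm⟩ ⟨R₂, hR₂'.symm⟩ ⟨R₃, hR₃'.symm⟩ ⟨R₄, hR₄'.symm⟩
  obtain ⟨⟨H, hH⟩, hcat⟩ := catalan_of_e10 hp (k + 1) (fun i => Z.coeff (p ^ i)) z y h r₅
    (by rw [hz]; exact congrArg _ hZ') (by rw [hy]; exact congrArg _ hY')
    (by rw [← S.e10, hxp])
  obtain ⟨R₅, hR₅, -⟩ := exists_eq_algebraMap_of_as r₅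
      (Z ^ p * Y - X * Y + X * (X ^ (p ^ (k + 1))) ^ 2 - X ^ 2 * H ^ p) (by
    rw [← S.e10, hxp, hz, hy, hH]
    simp only [map_sub, map_add, map_mul, map_pow, hX])
  obtain ⟨V₁, hV₁, -⟩ := exists_eq_algebraMap_of_as v₁ (X ^ (p ^ k) - X) (by
    rw [← S.e1, hx, map_sub, hX])
  have hv₂ : pole (X : Rp p) v₂ = 0 := by
    have h3 : pole (X : Rp p) (v₂ ^ p - v₂) ≤ 0 := by
      rw [← poleLe_iff hXirr]
      refine ⟨X - X ^ (p ^ k), (X ^ (p ^ k) + 1) * (X + 1), ?_, ?_⟩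
      · rw [Polynomial.X_dvd_iff, Polynomial.coeff_zero_eq_eval_zero]
        simp [hpp.ne_zero]
      · rw [pow_zero, one_mul, map_mul, map_add, map_add, map_one, map_sub, hX, ← hx, S.e2]
        ring
    rw [pole_as hXirr] at h3
    have := hpp.pos
    rcases Nat.eq_zero_or_pos (pole (X : Rp p) v₂) with h4 | h4
    · exact h4
    · have := Nat.mul_pos hpp.pos h4
      omega
  refine ⟨⟨k + 1, ?_⟩, ?_⟩
  · rw [hz, hZ', zeta]
    refine congrArg _ (Finset.sum_congr rfl fun i hi => ?_)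
    rw [hcat i (by have := Finset.mem_range.1 hi; omega)]
  · intro f hf
    simp only [List.mem_cons, List.not_mem_nil, or_false] at hf
    have hpoly : ∀ a : Rp p, pole (X : Rp p) (algebraMap (Rp p) (Kp p) a) = 0 :=
      fun a => pole_algebraMap hXirr a
    rcases hf with rfl | rfl | rfl | rfl | rfl | rfl | rfl | rfl | rfl | rfl | rfl | rfl | rfl | rfl
    · rw [hz]; exact hpoly _
    · rw [hy]; exact hpoly _
    · rw [hx]; exact hpoly _
    · rw [hV₁]; exact hpoly _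
    · exact hv₂
    · rw [hc, ← hC]; exact hpoly _
    · rw [hU]; exact hpoly _
    · rw [hW]; exact hpoly _
    · rw [hR₁]; exact hpoly _
    · rw [hR₂]; exact hpoly _
    · rw [hR₃]; exact hpoly _
    · rw [hR₄]; exact hpoly _
    · rw [hH]; exact hpoly _
    · rw [hR₅]; exact hpoly _

end MP333
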