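import Mathlib

/-!
# Projective varieties, rational maps and `v`-adic approximation: the definitions of MP_333da9_nt

`K` is a field.  Closed subschemes of `ℙⁿ_K` are described by homogeneous ideals of
`K[x₀, …, xₙ]`, points by homogeneous coordinates.
-/

set_option autoImplicit false

namespace MP333

open MvPolynomial

/-- An ideal of a polynomial ring is homogeneous: it contains the homogeneous components of its
elements. -/
def IsHomogeneousIdeal {K : Type} [Field K] {n : ℕ} (I : Ideal (MvPolynomial (Fin n) K)) : Prop :=
  ∀ F ∈ I, ∀ d : ℕ, homogeneousComponent d F ∈ I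

/-- A projective variety in `ℙⁿ_K`: an integral closed subscheme of `ℙⁿ_K`, given by its homogeneous
prime ideal, which does not contain all the variables. -/
structure ProjVar (K : Type) [Field K] (n : ℕ) where
  /-- the homogeneous ideal -/
  I : Ideal (MvPolynomial (Fin (n + 1)) K)
  homog : IsHomogeneousIdeal I
  prime : I.IsPrime
  relevant : ∃ i, (X i : MvPolynomial (Fin (n + 1)) K) ∉ I

variable {K : Type} [Field K] {n m : ℕ}

/-- `a` is a vector of homogeneous coordinates of a point of `V` with coordinates in the extension
field `L` of `K`. -/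
def ProjVar.IsPoint (V : ProjVar K n) {L : Type} [Field L] [Algebra K L] (a : Fin (n + 1) → L) :
    Prop :=
  a ≠ 0 ∧ ∀ F ∈ V.I, aeval a F = 0

/-- `V` has positive dimension: it has infinitely many points over the algebraic closure of `K`. -/
def ProjVar.PosDim (V : ProjVar K n) : Prop :=
  {P : Projectivization (AlgebraicClosure K) (Fin (n + 1) → AlgebraicClosure K) |
    V.IsPoint P.rep}.Infinite

/-- The set `V(K)` of rational points is Zariski dense in `V`: a homogeneous polynomial that
vanishes at all of them belongs to the ideal of `V`. -/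
def ProjVar.DensePoints (V : ProjVar K n) : Prop :=
  ∀ (d : ℕ) (F : MvPolynomial (Fin (n + 1)) K), F.IsHomogeneous d →
    (∀ a : Fin (n + 1) → K, V.IsPoint a → aeval a F = 0) → F ∈ V.I

/-- A closed subset of a projective variety in `ℙⁿ_K`, described by a homogeneous ideal. -/
structure ClosedSet (K : Type) [Field K] (n : ℕ) where
  /-- the homogeneous ideal -/
  J : Ideal (MvPolynomial (Fin (n + 1)) K)
  homog : IsHomogeneousIdeal J

/-- The point with homogeneous coordinates `a` lies on `V` and on the closed set `Z`. -/
def ClosedSet.Mem (Z : ClosedSet K n) (V : ProjVar K n) {L : Type} [Field L] [Algebra K L]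
    (a : Fin (n + 1) → L) : Prop :=
  V.IsPoint a ∧ ∀ F ∈ Z.J, aeval a F = 0

/-- The closed set `Z` does not contain `V`, i.e. the closed subset `Z ∩ V` of `V` is proper. -/
def ClosedSet.IsProper (Z : ClosedSet K n) (V : ProjVar K n) : Prop := ¬ Z.J ≤ V.I

/-- Representatives of rational maps `V ⇢ W`: tuples of homogeneous polynomials of the same degree,
not all of them in the ideal of `V`, which map `V` to `W`. -/
structure RatMap (V : ProjVar K n) (W : ProjVar K m) where
  /-- the degree -/
  d : ℕ
  /-- the homogeneous polynomials -/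
  F : Fin (m + 1) → MvPolynomial (Fin (n + 1)) K
  homog : ∀ i, (F i).IsHomogeneous d
  ne : ∃ i, F i ∉ V.I
  maps : ∀ G ∈ W.I, bind₁ F G ∈ V.I

namespace RatMap

variable {V : ProjVar K n} {W : ProjVar K m}

/-- Two representatives give the same rational map. -/
def Same (f g : RatMap V W) : Prop := ∀ i j, f.F i * g.F j - f.F j * g.F i ∈ V.I

/-- The rational map is dominant: its image lies on no proper closed subset of `W`. -/
def IsDominant (f : RatMap V W) : Prop :=
  ∀ (d : ℕ) (G : MvPolynomial (Fin (m + 1)) K), G.IsHomogeneous d →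
    bind₁ f.F G ∈ V.I → G ∈ W.I

/-- The geometric point `a` of `V` lies in the domain of definition of the rational map `f` and is
mapped to a point of `Z`. -/
def MapsInto (f : RatMap V W) (Z : ClosedSet K m) (a : Fin (n + 1) → AlgebraicClosure K) : Prop :=
  V.IsPoint a ∧ ∃ g : RatMap V W, f.Same g ∧ Z.Mem W (fun i => aeval a (g.F i))

/-- `F` vanishes on `f^*Z`, the Zariski closure of the preimage of `Z` in the domain of definition
of `f`. -/
def Vanishes (f : RatMap V W) (Z : ClosedSet K m) (F : MvPolynomial (Fin (n + 1)) K) : Prop :=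
  ∀ a : Fin (n + 1) → AlgebraicClosure K, f.MapsInto Z a → aeval a F = 0

/-- The point `a` of `V(K)` lies on `f^*Z`. -/
def InPullback (f : RatMap V W) (Z : ClosedSet K m) (a : Fin (n + 1) → K) : Prop :=
  V.IsPoint a ∧ ∀ (d : ℕ) (F : MvPolynomial (Fin (n + 1)) K), F.IsHomogeneous d →
    f.Vanishes Z F → aeval a F = 0

/-- The sequence `P` of points of `V(K)` approaches `f^*Z` `v`-adically: for every homogeneous
polynomial `F` vanishing on `f^*Z`, the absolute value `|F(P_k)|_v`, computed with coordinates of
`P_k` of maximal absolute value `1`, tends to `0`. -/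
def Approaches (f : RatMap V W) (Z : ClosedSet K m) (v : AbsoluteValue K ℝ)
    (P : ℕ → Fin (n + 1) → K) : Prop :=
  ∀ (d : ℕ) (F : MvPolynomial (Fin (n + 1)) K), F.IsHomogeneous d → f.Vanishes Z F →
    Filter.Tendsto (fun k => v (aeval (P k) F) / (⨆ i, v (P k i)) ^ d) Filter.atTop (nhds 0)

end RatMap

end MP333
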