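import Pool.Agent.Lib.MP_333da9_nt.Stmt

/-!
# From a Diophantine set to a projective variety
-/

set_option autoImplicit false

namespace MP333

open MvPolynomial

variable {K : Type} [Field K]

/-- The substitution `x₀ ↦ 1`, `x_{i+1} ↦ X_i`. -/
noncomputable def dehom {M : ℕ} :
    MvPolynomial (Fin (M + 2)) K →ₐ[K] MvPolynomial (Fin (M + 1)) K :=
  aeval (Fin.cons 1 X)

/-- The ring homomorphism whose kernel is the homogeneous ideal of the projective closure. -/
noncomputable def coneMap {M : ℕ} (I : Ideal (MvPolynomial (Fin (M + 1)) K)) :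
    MvPolynomial (Fin (M + 2)) K →ₐ[K] Polynomial (MvPolynomial (Fin (M + 1)) K ⧸ I) :=
  aeval (fun i => Polynomial.C (Ideal.Quotient.mk I (dehom (X i))) * Polynomial.X)

theorem C_mul_X_pow' {B : Type} [CommRing B] (b : B) (n : ℕ) :
    (Polynomial.C b * Polynomial.X) ^ n = Polynomial.C b ^ n * Polynomial.X ^ n := mul_pow _ _ _

theorem coneMap_monomial {M : ℕ} (I : Ideal (MvPolynomial (Fin (M + 1)) K))
    (m : Fin (M + 2) →₀ ℕ) (c : K) :
    coneMap I (monomial m c) =
      Polynomial.C (Ideal.Quotient.mk I (dehom (monomial m c))) * Polynomial.X ^ m.degree := by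
  classical
  rw [coneMap, aeval_monomial, monomial_eq]
  simp only [map_mul, Finsupp.prod, map_prod, map_pow, Finsupp.degree_apply]
  have h1 : ∀ x ∈ m.support,
      (Polynomial.C ((Ideal.Quotient.mk I) (dehom (X x))) * Polynomial.X) ^ m x
        = Polynomial.C ((Ideal.Quotient.mk I) (dehom (X x))) ^ m x * Polynomial.X ^ m x :=
    fun x _ => C_mul_X_pow' _ _
  rw [Finset.prod_congr rfl h1, Finset.prod_mul_distrib, Finset.prod_pow_eq_pow_sum, mul_assoc]
  congr 1
  have h2 : dehom (C c : MvPolynomial (Fin (M + 2)) K) = C c := by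
    rw [← algebraMap_eq, ← algebraMap_eq]; exact AlgHom.commutes _ _
  rw [h2]
  rfl

theorem coneMap_homog {M : ℕ} (I : Ideal (MvPolynomial (Fin (M + 1)) K)) (d : ℕ)
    (F : MvPolynomial (Fin (M + 2)) K) (hF : F.IsHomogeneous d) :
    coneMap I F = Polynomial.C (Ideal.Quotient.mk I (dehom F)) * Polynomial.X ^ d := by
  classical
  conv_lhs => rw [F.as_sum, map_sum]
  conv_rhs => rw [F.as_sum]
  simp only [map_sum, Finset.sum_mul]
  refine Finset.sum_congr rfl fun m hm => ?_
  rw [coneMap_monomial]
  have : m.degree = d := by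
    have := hF (mem_support_iff.1 hm)
    rw [← this, Finsupp.degree_eq_weight_one]
    rfl
  rw [this]

/-- The homogeneous ideal of the projective closure. -/
noncomputable def closureIdeal {M : ℕ} (I : Ideal (MvPolynomial (Fin (M + 1)) K)) :
    Ideal (MvPolynomial (Fin (M + 2)) K) := RingHom.ker (coneMap I)

theorem coneMap_eq_sum {M : ℕ} (I : Ideal (MvPolynomial (Fin (M + 1)) K))
    (F : MvPolynomial (Fin (M + 2)) K) :
    coneMap I F = ∑ d ∈ Finset.range (F.totalDegree + 1),
      Polynomial.C (Ideal.Quotient.mk I (dehom (homogeneousComponent d F))) * Polynomial.X ^ d := by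
  conv_lhs => rw [← sum_homogeneousComponent F, map_sum]
  exact Finset.sum_congr rfl fun d _ => coneMap_homog I d _ (homogeneousComponent_isHomogeneous d F)

theorem mem_closureIdeal_iff {M : ℕ} (I : Ideal (MvPolynomial (Fin (M + 1)) K))
    (F : MvPolynomial (Fin (M + 2)) K) :
    F ∈ closureIdeal I ↔ ∀ d, dehom (homogeneousComponent d F) ∈ I := by
  rw [closureIdeal, RingHom.mem_ker]
  constructor
  · intro h d
    by_cases hd : F.totalDegree < d
    · rw [homogeneousComponent_eq_zero d F hd, map_zero]; exact I.zero_mem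
    · have h1 := congrArg (fun q => Polynomial.coeff q d) ((coneMap_eq_sum I F).symm.trans h)
      simp only [Polynomial.finsetSum_coeff, Polynomial.coeff_C_mul_X_pow,
        Polynomial.coeff_zero] at h1
      rw [Finset.sum_ite_eq] at h1
      rw [if_pos (Finset.mem_range.2 (by omega))] at h1
      exact Ideal.Quotient.eq_zero_iff_mem.1 h1
  · intro h
    refine (coneMap_eq_sum I F).trans (Finset.sum_eq_zero fun d _ => ?_)
    rw [Ideal.Quotient.eq_zero_iff_mem.2 (h d), map_zero, zero_mul]

theorem mem_closureIdeal_homog {M : ℕ} (I : Ideal (MvPolynomial (Fin (M + 1)) K)) (d : ℕ)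
    (F : MvPolynomial (Fin (M + 2)) K) (hF : F.IsHomogeneous d) :
    F ∈ closureIdeal I ↔ dehom F ∈ I := by
  rw [mem_closureIdeal_iff]
  constructor
  · intro h
    have := h d
    rwa [homogeneousComponent_of_mem ((mem_homogeneousSubmodule d F).2 hF), if_pos rfl] at this
  · intro h e
    rw [homogeneousComponent_of_mem ((mem_homogeneousSubmodule d F).2 hF)]
    split_ifs
    · exact h
    · rw [map_zero]; exact I.zero_mem

theorem isHomogeneousIdeal_closureIdeal {M : ℕ} (I : Ideal (MvPolynomial (Fin (M + 1)) K)) :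
    IsHomogeneousIdeal (closureIdeal I) := by
  intro F hF d
  rw [mem_closureIdeal_homog I d _ (homogeneousComponent_isHomogeneous d F)]
  exact (mem_closureIdeal_iff I F).1 hF d

theorem closureIdeal_isPrime {M : ℕ} (I : Ideal (MvPolynomial (Fin (M + 1)) K)) [I.IsPrime] :
    (closureIdeal I).IsPrime := by
  have : IsDomain (MvPolynomial (Fin (M + 1)) K ⧸ I) := Ideal.Quotient.isDomain I
  exact RingHom.ker_isPrime (coneMap I).toRingHom

theorem X_zero_notMem_closureIdeal {M : ℕ} (I : Ideal (MvPolynomial (Fin (M + 1)) K))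
    [hI : I.IsPrime] : (X 0 : MvPolynomial (Fin (M + 2)) K) ∉ closureIdeal I := by
  rw [mem_closureIdeal_homog I 1 _ (isHomogeneous_X K 0)]
  have : dehom (X 0 : MvPolynomial (Fin (M + 2)) K) = 1 := by
    rw [dehom, aeval_X]; rfl
  rw [this]
  exact fun h => hI.ne_top ((Ideal.eq_top_iff_one _).2 h)

/-- The projective closure of an affine variety. -/
noncomputable def closureVar {M : ℕ} (I : Ideal (MvPolynomial (Fin (M + 1)) K)) [I.IsPrime] :
    ProjVar K (M + 1) where
  I := closureIdeal I
  homog := isHomogeneousIdeal_closureIdeal I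
  prime := closureIdeal_isPrime I
  relevant := ⟨0, X_zero_notMem_closureIdeal I⟩

/-! ### Evaluation of homogeneous polynomials -/

section Eval

variable {L : Type} [Field L] [Algebra K L]

theorem aeval_smul_homog {σ : Type} [Fintype σ] (d : ℕ) (F : MvPolynomial σ K)
    (hF : F.IsHomogeneous d) (c : L) (a : σ → L) :
    aeval (fun i => c * a i) F = c ^ d * aeval a F := by
  classical
  conv_lhs => rw [F.as_sum, map_sum]
  conv_rhs => rw [F.as_sum, map_sum, Finset.mul_sum]
  refine Finset.sum_congr rfl fun m hm => ?_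
  rw [aeval_monomial, aeval_monomial]
  have : m.degree = d := by
    have := hF (mem_support_iff.1 hm)
    rw [← this, Finsupp.degree_eq_weight_one]
    rfl
  rw [← this, Finsupp.degree_apply, ← Finset.prod_pow_eq_pow_sum, Finsupp.prod, Finsupp.prod]
  simp only [mul_pow, Finset.prod_mul_distrib]
  ring

theorem aeval_dehom {M : ℕ} (F : MvPolynomial (Fin (M + 2)) K) (b : Fin (M + 1) → L) :
    aeval b (dehom F) = aeval (Fin.cons 1 b : Fin (M + 2) → L) F := by
  have : (aeval b).comp dehom = (aeval (Fin.cons 1 b : Fin (M + 2) → L) :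
      MvPolynomial (Fin (M + 2)) K →ₐ[K] L) := by
    ext i
    simp only [AlgHom.comp_apply, dehom, aeval_X]
    refine Fin.cases ?_ (fun j => ?_) i
    · simp
    · simp
  exact congrArg (fun φ : MvPolynomial (Fin (M + 2)) K →ₐ[K] L => φ F) this

theorem aeval_homog {M : ℕ} (d : ℕ) (F : MvPolynomial (Fin (M + 2)) K) (hF : F.IsHomogeneous d)
    (a : Fin (M + 2) → L) (ha : a 0 ≠ 0) :
    aeval a F = a 0 ^ d * aeval (fun i : Fin (M + 1) => a i.succ / a 0) (dehom F) := by
  rw [aeval_dehom, ← aeval_smul_homog d F hF]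
  congr 1
  congr 1
  funext i
  refine Fin.cases ?_ (fun j => ?_) i
  · simp
  · simp only [Fin.cons_succ]
    field_simp

end Eval

/-- Homogenisation. -/
noncomputable def homogenize {M : ℕ} (G : MvPolynomial (Fin (M + 1)) K) :
    MvPolynomial (Fin (M + 2)) K :=
  ∑ e ∈ Finset.range (G.totalDegree + 1),
    X 0 ^ (G.totalDegree - e) * rename Fin.succ (homogeneousComponent e G)

theorem homogenize_isHomogeneous {M : ℕ} (G : MvPolynomial (Fin (M + 1)) K) :
    (homogenize G).IsHomogeneous G.totalDegree := by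
  refine IsHomogeneous.sum _ _ _ fun e he => ?_
  have h1 : (X 0 ^ (G.totalDegree - e) : MvPolynomial (Fin (M + 2)) K).IsHomogeneous
      (G.totalDegree - e) := isHomogeneous_X_pow _ _
  have h2 : (rename Fin.succ (homogeneousComponent e G) :
      MvPolynomial (Fin (M + 2)) K).IsHomogeneous e :=
    (homogeneousComponent_isHomogeneous e G).rename_isHomogeneous
  have h3 := h1.mul h2
  rwa [Nat.sub_add_cancel (by have := Finset.mem_range.1 he; omega)] at h3

theorem dehom_rename {M : ℕ} (G : MvPolynomial (Fin (M + 1)) K) :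
    dehom (rename Fin.succ G) = G := by
  rw [dehom, aeval_rename]
  have : (Fin.cons 1 X : Fin (M + 2) → MvPolynomial (Fin (M + 1)) K) ∘ Fin.succ = X := by
    funext i; simp
  rw [this, aeval_X_left_apply]

theorem dehom_homogenize {M : ℕ} (G : MvPolynomial (Fin (M + 1)) K) :
    dehom (homogenize G) = G := by
  rw [homogenize, map_sum]
  have : dehom (X 0 : MvPolynomial (Fin (M + 2)) K) = 1 := by
    rw [dehom, aeval_X]; rfl
  simp only [map_mul, map_pow, this, one_pow, one_mul, dehom_rename]
  exact sum_homogeneousComponent G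

theorem isPoint_closureVar_def {M : ℕ} (I : Ideal (MvPolynomial (Fin (M + 1)) K)) [I.IsPrime]
    {L : Type} [Field L] [Algebra K L] (a : Fin (M + 2) → L) :
    (closureVar I).IsPoint (L := L) a ↔
      a ≠ 0 ∧ ∀ F ∈ closureIdeal I, (aeval a : MvPolynomial (Fin (M + 2)) K →ₐ[K] L) F = 0 :=
  Iff.rfl

/-- Points of the projective closure in the chart `x₀ ≠ 0`. -/
theorem isPoint_closureVar_iff {M : ℕ} (I : Ideal (MvPolynomial (Fin (M + 1)) K)) [I.IsPrime]
    {L : Type} [Field L] [Algebra K L] (a : Fin (M + 2) → L) (ha : a 0 ≠ 0) :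
    (closureVar I).IsPoint (L := L) a ↔
      ∀ G ∈ I, aeval (fun i : Fin (M + 1) => a i.succ / a 0) G = 0 := by
  rw [isPoint_closureVar_def]
  constructor
  · intro h G hG
    have h1 : homogenize G ∈ closureIdeal I := by
      rw [mem_closureIdeal_homog I _ _ (homogenize_isHomogeneous G), dehom_homogenize]
      exact hG
    have h2 := h.2 _ h1
    rw [aeval_homog _ _ (homogenize_isHomogeneous G) a ha, dehom_homogenize] at h2
    exact (mul_eq_zero.1 h2).resolve_left (pow_ne_zero _ ha)
  · intro h
    refine ⟨fun h0 => ha (by rw [h0]; rfl), fun F hF => ?_⟩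
    have h1 := (mem_closureIdeal_iff I F).1 hF
    rw [← sum_homogeneousComponent F, map_sum]
    refine Finset.sum_eq_zero fun d _ => ?_
    rw [aeval_homog d _ (homogeneousComponent_isHomogeneous d F) a ha, h _ (h1 d), mul_zero]

/-! ### The choice of a component -/

/-- A subset `T` of `S`, with infinitely many values of the coordinate `0`, whose vanishing ideal is
prime. -/
theorem exists_prime_component {M : ℕ} (S : Set (Fin (M + 1) → K))
    (hS : ((fun a : Fin (M + 1) → K => a 0) '' S).Infinite) :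
    ∃ T ⊆ S, ((fun a : Fin (M + 1) → K => a 0) '' T).Infinite ∧ (vanishingIdeal K T).IsPrime := by
  classical
  let A : Set (Ideal (MvPolynomial (Fin (M + 1)) K)) :=
    {I | ((fun a : Fin (M + 1) → K => a 0) '' (S ∩ zeroLocus K I)).Infinite}
  have hne : A.Nonempty := ⟨⊥, by
    simp only [A, Set.mem_setOf_eq, zeroLocus_bot]
    rwa [Set.top_eq_univ, Set.inter_univ]⟩
  obtain ⟨I, hI, hmax⟩ := WellFounded.has_min
    (wellFounded_gt : WellFounded ((· > ·) : Ideal (MvPolynomial (Fin (M + 1)) K) → _ → Prop)) A hne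
  have hmax' : ∀ J ∈ A, I ≤ J → J = I := by
    intro J hJ hIJ
    by_contra hne'
    exact hmax J hJ (lt_of_le_of_ne hIJ (Ne.symm hne'))
  have hvI : vanishingIdeal K (S ∩ zeroLocus K I) = I := by
    refine hmax' _ ?_ ?_
    · simp only [A, Set.mem_setOf_eq]
      refine Set.Infinite.mono ?_ hI
      refine Set.image_mono fun a ha => ⟨ha.1, fun F hF => hF a ha⟩
    · intro F hF a ha
      exact ha.2 F hF
  refine ⟨S ∩ zeroLocus K I, Set.inter_subset_left, hI, ?_⟩
  rw [hvI]
  have hsplit : ∀ F G : MvPolynomial (Fin (M + 1)) K, F * G ∈ I → F ∈ I ∨ G ∈ I := by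
    intro F G hFG
    have hcover : S ∩ zeroLocus K I ⊆ (S ∩ zeroLocus K (I ⊔ Ideal.span {F})) ∪
        (S ∩ zeroLocus K (I ⊔ Ideal.span {G})) := by
      intro a ha
      have h1 := ha.2 _ hFG
      rw [map_mul, mul_eq_zero] at h1
      have key : ∀ H : MvPolynomial (Fin (M + 1)) K, aeval a H = 0 →
          a ∈ zeroLocus K (I ⊔ Ideal.span {H}) := by
        intro H hH
        intro Q hQ
        obtain ⟨q1, hq1, q2, hq2, rfl⟩ := Submodule.mem_sup.1 hQ
        obtain ⟨q3, rfl⟩ := Ideal.mem_span_singleton.1 hq2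
        rw [map_add, map_mul, hH, zero_mul, add_zero]
        exact ha.2 q1 hq1
      rcases h1 with h1 | h1
      · exact Or.inl ⟨ha.1, key F h1⟩
      · exact Or.inr ⟨ha.1, key G h1⟩
    have h2 : ((fun a : Fin (M + 1) → K => a 0) '' ((S ∩ zeroLocus K (I ⊔ Ideal.span {F})) ∪
        (S ∩ zeroLocus K (I ⊔ Ideal.span {G})))).Infinite := Set.Infinite.mono (Set.image_mono hcover) hI
    rw [Set.image_union, Set.infinite_union] at h2
    have h3 : ∀ H : MvPolynomial (Fin (M + 1)) K, (I ⊔ Ideal.span {H}) ∈ A → H ∈ I := by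
      intro H hH
      rw [← hmax' _ hH le_sup_left]
      exact Ideal.mem_sup_right (Ideal.subset_span rfl)
    exact h2.imp (h3 F) (h3 G)
  refine ⟨?_, fun {F G} h => hsplit F G h⟩
  intro htop
  have : S ∩ zeroLocus K I = ∅ := by
    rw [htop, zeroLocus_top]
    simp
  rw [Set.mem_setOf_eq, this, Set.image_empty] at hI
  exact hI Set.finite_empty

end MP333
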