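import Pool.Agent.Lib.MP_333da9_nt.Wrap

/-!
# The counterexample attached to a Diophantine set
-/

set_option autoImplicit false

namespace MP333

open MvPolynomial

variable {K : Type} [Field K]

/-! ### Scaling and projective points -/

theorem isPoint_smul {n : ℕ} (V : ProjVar K n) {L : Type} [Field L] [Algebra K L]
    (a : Fin (n + 1) → L)
    (ha : V.IsPoint a) (c : L) (hc : c ≠ 0) : V.IsPoint (fun i => c * a i) := by
  refine ⟨fun h => ha.1 ?_, fun F hF => ?_⟩
  · funext i
    have := congrFun h i
    exact (mul_eq_zero.1 this).resolve_left hc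
  · rw [← sum_homogeneousComponent F, map_sum]
    refine Finset.sum_eq_zero fun d _ => ?_
    rw [aeval_smul_homog d _ (homogeneousComponent_isHomogeneous d F),
      ha.2 _ (V.homog F hF d), mul_zero]

theorem posDim_of {n : ℕ} (V : ProjVar K n) (i₀ i₁ : Fin (n + 1)) (T : Set (AlgebraicClosure K))
    (hT : T.Infinite)
    (h : ∀ z ∈ T, ∃ a : Fin (n + 1) → AlgebraicClosure K, V.IsPoint a ∧ a i₀ = 1 ∧ a i₁ = z) :
    V.PosDim := by
  classical
  choose! a ha1 ha2 ha3 using h
  have hne : ∀ z ∈ T, a z ≠ 0 := fun z hz => (ha1 z hz).1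
  have hinf : Infinite T := hT.to_subtype
  let g : T → Projectivization (AlgebraicClosure K) (Fin (n + 1) → AlgebraicClosure K) :=
    fun z => Projectivization.mk _ (a z) (hne z z.2)
  have hg : Function.Injective g := by
    intro z z' hzz
    obtain ⟨c, hc⟩ := (Projectivization.mk_eq_mk_iff' _ _ _ (hne z z.2) (hne z' z'.2)).1 hzz
    have h1 : c * a z' i₀ = a z i₀ := congrFun hc i₀
    have h2 : c * a z' i₁ = a z i₁ := congrFun hc i₁
    rw [ha2 z z.2, ha2 z' z'.2, mul_one] at h1
    rw [ha3 z z.2, ha3 z' z'.2, h1, one_mul] at h2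
    exact Subtype.ext h2.symm
  have h3 : (Set.range g).Infinite := Set.infinite_range_of_injective hg
  refine h3.mono ?_
  rintro _ ⟨z, rfl⟩
  obtain ⟨c, hc⟩ := Projectivization.exists_smul_eq_mk_rep (AlgebraicClosure K) (a z) (hne z z.2)
  change V.IsPoint (g z).rep
  have : (g z).rep = fun i => (c : AlgebraicClosure K) * a z i := by
    change (Projectivization.mk _ (a z) (hne z z.2)).rep = _
    rw [← hc]
    rfl
  rw [this]
  exact isPoint_smul V _ (ha1 z z.2) _ c.ne_zero

/-- The projective line. -/
noncomputable def projLine (K : Type) [Field K] : ProjVar K 1 where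
  I := ⊥
  homog := by
    intro F hF d
    rw [Ideal.mem_bot] at hF ⊢
    rw [hF, map_zero]
  prime := Ideal.isPrime_bot
  relevant := ⟨0, by
    rw [Ideal.mem_bot]
    exact X_ne_zero 0⟩

theorem projLine_posDim : (projLine K).PosDim := by
  refine posDim_of (projLine K) (0 : Fin 2) (1 : Fin 2) Set.univ Set.infinite_univ ?_
  intro z _
  refine ⟨(![1, z] : Fin 2 → AlgebraicClosure K), ⟨?_, ?_⟩, rfl, rfl⟩
  · intro h
    exact one_ne_zero (congrFun h (0 : Fin 2))
  · intro F hF
    rw [(Ideal.mem_bot.1 hF : F = 0), map_zero]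

/-! ### Binary forms -/

/-- `G(1, y)`. -/
noncomputable def dehomLine (G : MvPolynomial (Fin 2) K) : Polynomial K :=
  aeval (![1, Polynomial.X] : Fin 2 → Polynomial K) G

theorem eval_dehomLine (G : MvPolynomial (Fin 2) K) (z : K) :
    (dehomLine G).eval z = aeval (![1, z] : Fin 2 → K) G := by
  rw [dehomLine]
  have : (Polynomial.aeval z).comp (aeval (![1, Polynomial.X] : Fin 2 → Polynomial K)) =
      (aeval (![1, z] : Fin 2 → K) : MvPolynomial (Fin 2) K →ₐ[K] K) := by
    ext i
    fin_cases i <;> simp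
  have h2 := congrArg (fun φ : MvPolynomial (Fin 2) K →ₐ[K] K => φ G) this
  simpa [Polynomial.aeval_def, Polynomial.eval₂_eq_eval_map] using h2

theorem aeval_line_homog (d : ℕ) (G : MvPolynomial (Fin 2) K) (hG : G.IsHomogeneous d)
    (x y : K) (hx : x ≠ 0) :
    aeval (![x, y] : Fin 2 → K) G = x ^ d * (dehomLine G).eval (y / x) := by
  rw [eval_dehomLine, ← aeval_smul_homog d G hG]
  congr 1
  congr 1
  funext i
  fin_cases i
  · simp
  · simp; field_simp

theorem eq_zero_of_dehomLine [Infinite K] (d : ℕ) (G : MvPolynomial (Fin 2) K)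
    (hG : G.IsHomogeneous d) (h : dehomLine G = 0) : G = 0 := by
  have h1 : X 0 * G = 0 := by
    refine MvPolynomial.funext fun a => ?_
    rw [map_mul, eval_X, map_zero]
    by_cases ha : a 0 = 0
    · rw [ha, zero_mul]
    · have h2 := aeval_line_homog d G hG (a 0) (a 1) ha
      rw [h, Polynomial.eval_zero, mul_zero] at h2
      have h3 : (![a 0, a 1] : Fin 2 → K) = a := by
        funext i; fin_cases i <;> rfl
      rw [h3] at h2
      have h4 : eval a G = 0 := by
        rw [← h2]; rfl
      rw [h4, mul_zero]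
  exact (mul_eq_zero.1 h1).resolve_left (X_ne_zero 0)

/-! ### The projection to the line -/

section Proj

variable {M : ℕ} (I : Ideal (MvPolynomial (Fin (M + 1)) K)) [hI : I.IsPrime]

/-- The rational map `(x₀ : x₁)`. -/
noncomputable def projMap : RatMap (closureVar I) (projLine K) where
  d := 1
  F := (![X 0, X 1] : Fin 2 → MvPolynomial (Fin (M + 2)) K)
  homog := by
    intro i
    change ((![X 0, X 1] : Fin 2 → MvPolynomial (Fin (M + 2)) K) i).IsHomogeneous 1
    fin_cases i
    · exact isHomogeneous_X K _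
    · exact isHomogeneous_X K _
  ne := ⟨(0 : Fin 2), X_zero_notMem_closureIdeal I⟩
  maps := by
    intro G hG
    rw [(Ideal.mem_bot.1 hG : G = 0), map_zero]
    exact Ideal.zero_mem _

theorem bind_homog (d : ℕ) (G : MvPolynomial (Fin 2) K) (hG : G.IsHomogeneous d) :
    (bind₁ (![X 0, X 1] : Fin 2 → MvPolynomial (Fin (M + 2)) K) G).IsHomogeneous d := by
  have := hG.aeval (![X 0, X 1] : Fin 2 → MvPolynomial (Fin (M + 2)) K) (n := 1) (by
    intro i
    fin_cases i
    · exact isHomogeneous_X K _
    · exact isHomogeneous_X K _)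
  rwa [one_mul] at this

theorem aeval_bind {L : Type} [Field L] [Algebra K L] (G : MvPolynomial (Fin 2) K)
    (a : Fin (M + 2) → L) :
    aeval a (bind₁ (![X 0, X 1] : Fin 2 → MvPolynomial (Fin (M + 2)) K) G) =
      aeval (![a 0, a 1] : Fin 2 → L) G := by
  rw [aeval_bind₁]
  congr 1
  congr 1
  funext i
  fin_cases i
  · simp
  · simp

theorem aeval_eq_zero_of_prop {L : Type} [Field L] [Algebra K L] (d : ℕ)
    (G : MvPolynomial (Fin 2) K) (hG : G.IsHomogeneous d) (b c : Fin 2 → L) (hb : b ≠ 0)
    (key : ∀ i j : Fin 2, c i * b j = c j * b i) (hbG : aeval b G = 0) : aeval c G = 0 := by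
  obtain ⟨j, hj⟩ := Function.ne_iff.1 hb
  have hj' : b j ≠ 0 := hj
  have h3 : c = fun i => (c j / b j) * b i := by
    funext i
    have := key i j
    field_simp
    linear_combination this
  rw [h3, aeval_smul_homog d G hG, hbG, mul_zero]

/-- Forms of the ideal of `Z`, pulled back, vanish on `f^*Z`. -/
theorem vanishes_bind (Z : ClosedSet K 1) (d : ℕ) (G : MvPolynomial (Fin 2) K)
    (hG : G.IsHomogeneous d) (hGZ : G ∈ Z.J) :
    (projMap I).Vanishes Z
      (bind₁ (![X 0, X 1] : Fin 2 → MvPolynomial (Fin (M + 2)) K) G) := by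
  rintro a ⟨ha, g, hfg, hZ⟩
  set b : Fin 2 → AlgebraicClosure K := fun i => aeval a (g.F i) with hb
  have hb0 : b ≠ 0 := hZ.1.1
  have hbG : aeval b G = 0 := hZ.2 G hGZ
  have key : ∀ i j : Fin 2, (![a 0, a 1] : Fin 2 → AlgebraicClosure K) i * b j =
      (![a 0, a 1] : Fin 2 → AlgebraicClosure K) j * b i := by
    intro i j
    have h1 := ha.2 _ (hfg i j)
    rw [map_sub, map_mul, map_mul, sub_eq_zero] at h1
    have h2 : ∀ i : Fin 2, aeval a ((projMap I).F i) =
        (![a 0, a 1] : Fin 2 → AlgebraicClosure K) i := by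
      intro i
      change aeval a ((![X 0, X 1] : Fin 2 → MvPolynomial (Fin (M + 2)) K) i) = _
      fin_cases i
      · exact aeval_X _ _
      · exact aeval_X _ _
    rw [h2 i, h2 j] at h1
    exact h1
  have h4 := aeval_bind (K := K) G a
  exact h4.trans (aeval_eq_zero_of_prop d G hG b _ hb0 key hbG)

end Proj

/-- The closed subset `x₀ = 0`. -/
noncomputable def hyperplane (K : Type) [Field K] [Infinite K] (M : ℕ) :
    ClosedSet K (M + 1) where
  J := vanishingIdeal K {a : Fin (M + 2) → K | a 0 = 0}
  homog := by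
    intro F hF d a ha
    have h1 : ∀ c : K, ∑ e ∈ Finset.range (F.totalDegree + 1),
        c ^ e * aeval a (homogeneousComponent e F) = 0 := by
      intro c
      have h2 : aeval (fun i => c * a i) F = 0 := hF _ (by
        change c * a 0 = 0
        rw [show a 0 = 0 from ha, mul_zero])
      rw [← h2]
      conv_rhs => rw [← sum_homogeneousComponent F, map_sum]
      exact Finset.sum_congr rfl fun e _ =>
        (aeval_smul_homog e _ (homogeneousComponent_isHomogeneous e F) c a).symm
    let q : Polynomial K := ∑ e ∈ Finset.range (F.totalDegree + 1),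
      Polynomial.C (aeval a (homogeneousComponent e F)) * Polynomial.X ^ e
    have h3 : q = 0 := by
      refine Polynomial.funext fun c => ?_
      rw [Polynomial.eval_zero, ← h1 c, Polynomial.eval_finsetSum]
      refine Finset.sum_congr rfl fun e _ => ?_
      rw [Polynomial.eval_mul, Polynomial.eval_C, Polynomial.eval_pow, Polynomial.eval_X, mul_comm]
    by_cases hd : F.totalDegree < d
    · rw [homogeneousComponent_eq_zero d F hd, map_zero]
    · have h4 := congrArg (fun r : Polynomial K => r.coeff d) h3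
      simp only [q, Polynomial.finsetSum_coeff, Polynomial.coeff_C_mul_X_pow,
        Polynomial.coeff_zero] at h4
      rw [Finset.sum_ite_eq, if_pos (Finset.mem_range.2 (by omega))] at h4
      exact h4

end MP333
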